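import Mathlib

/-!
# Pointwise ergodic theorem for integrable functions, and the one-sided shift
-/

open Set Filter Topology MeasureTheory ProbabilityTheory

namespace Pool.Agent.H653Z.DH

namespace Birk

variable {B : Type*} [MeasurableSpace B]

/-- maximal partial sums -/
noncomputable def Mx (T : B → B) (φ : B → ℝ) : ℕ → B → ℝ
  | 0, _ => 0
  | n + 1, x => max 0 (φ x + Mx T φ n (T x))

omit [MeasurableSpace B] in
lemma Mx_nonneg (T : B → B) (φ : B → ℝ) (n : ℕ) (x : B) : 0 ≤ Mx T φ n x := by
  cases n with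
  | zero => simp [Mx]
  | succ n => simp [Mx]

lemma Mx_meas {T : B → B} (hT : Measurable T) {φ : B → ℝ} (hφ : Measurable φ) (n : ℕ) :
    Measurable (Mx T φ n) := by
  induction n with
  | zero => simpa [Mx] using (measurable_const : Measurable fun _ : B => (0 : ℝ))
  | succ n ih =>
    have : Mx T φ (n + 1) = fun x => max 0 (φ x + Mx T φ n (T x)) := rfl
    rw [this]
    exact measurable_const.max (hφ.add (ih.comp hT))

lemma Mx_int {m : Measure B} [IsProbabilityMeasure m] {T : B → B} (hT : MeasurePreserving T m m)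
    {φ : B → ℝ} (hi : Integrable φ m) (n : ℕ) : Integrable (Mx T φ n) m := by
  induction n with
  | zero => simpa [Mx] using (integrable_const (0 : ℝ) : Integrable (fun _ : B => (0 : ℝ)) m)
  | succ n ih =>
    have : Mx T φ (n + 1) = fun x => max 0 (φ x + Mx T φ n (T x)) := rfl
    rw [this]
    exact (integrable_const (0 : ℝ)).sup (hi.add (hT.integrable_comp_of_integrable ih))

omit [MeasurableSpace B] in
lemma Mx_mono (T : B → B) (φ : B → ℝ) (n : ℕ) (x : B) : Mx T φ n x ≤ Mx T φ (n + 1) x := by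
  induction n generalizing x with
  | zero => exact Mx_nonneg T φ 1 x
  | succ n ih =>
    have h1 := ih (T x)
    show max 0 (φ x + Mx T φ n (T x)) ≤ max 0 (φ x + Mx T φ (n + 1) (T x))
    exact max_le_max le_rfl (by linarith)

omit [MeasurableSpace B] in
lemma Mx_sum (T : B → B) (φ : B → ℝ) (n : ℕ) (x : B) :
    ∑ k ∈ Finset.range n, φ (T^[k] x) ≤ Mx T φ n x := by
  induction n generalizing x with
  | zero => simp [Mx]
  | succ n ih =>
    rw [Finset.sum_range_succ']
    have h1 := ih (T x)
    simp only [Function.iterate_succ_apply, Function.iterate_zero, id_eq]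
    show _ ≤ max 0 (φ x + Mx T φ n (T x))
    refine le_max_of_le_right ?_
    linarith

lemma aux {m : Measure B} [IsProbabilityMeasure m]
    {T : B → B} (hT : Ergodic T m) (φ : B → ℝ) (hφ : Measurable φ) (hi : Integrable φ m)
    (hneg : ∫ x, φ x ∂m < 0) :
    ∀ᵐ x ∂m, ∃ K : ℕ, ∀ n, Mx T φ n x ≤ K := by
  have hTm := hT.toMeasurePreserving
  set A : Set B := {x | ∀ K : ℕ, ∃ n, (K : ℝ) < Mx T φ n x} with hA
  have hAm : MeasurableSet A := by
    have : A = ⋂ K : ℕ, ⋃ n : ℕ, {x | (K : ℝ) < Mx T φ n x} := by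
      ext x; simp [hA]
    rw [this]
    refine MeasurableSet.iInter fun K => MeasurableSet.iUnion fun n => ?_
    exact measurableSet_lt measurable_const (Mx_meas hTm.measurable hφ n)
  have hinv : T ⁻¹' A = A := by
    ext x
    obtain ⟨c, hc⟩ := exists_nat_ge |φ x|
    have h1 := abs_le.mp hc
    have hc0 : (0 : ℝ) ≤ c := Nat.cast_nonneg c
    constructor
    · intro hx K
      obtain ⟨n, hn⟩ := hx (K + c)
      refine ⟨n + 1, ?_⟩
      show _ < max 0 (φ x + Mx T φ n (T x))
      refine lt_max_of_lt_right ?_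
      push_cast at hn
      linarith
    · intro hx K
      obtain ⟨n, hn⟩ := hx (K + c)
      push_cast at hn
      cases n with
      | zero =>
        exfalso
        simp only [Mx] at hn
        have : (0 : ℝ) ≤ K := Nat.cast_nonneg K
        linarith
      | succ n =>
        refine ⟨n, ?_⟩
        have h2 : (K : ℝ) + c < max 0 (φ x + Mx T φ n (T x)) := hn
        rcases lt_max_iff.mp h2 with h3 | h3
        · exfalso
          have : (0 : ℝ) ≤ K := Nat.cast_nonneg K
          linarith
        · linarith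
  rcases hT.toPreErgodic.ae_mem_or_ae_notMem hAm hinv with hmem | h2
  swap
  · filter_upwards [h2] with x hx
    simp only [hA, mem_setOf_eq, not_forall, not_exists, not_lt] at hx
    exact hx
  · exfalso
    have hMint : ∀ n, Integrable (Mx T φ n) m := Mx_int hTm hi
    set F : ℕ → B → ℝ := fun n x => max (- Mx T φ n (T x)) (φ x) with hF
    have hFeq : ∀ n x, F n x = Mx T φ (n + 1) x - Mx T φ n (T x) := by
      intro n x
      simp only [hF, Mx]
      rw [← max_sub_sub_right]
      congr 1 <;> ring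
    have hFint : ∀ n, 0 ≤ ∫ x, F n x ∂m := by
      intro n
      have h2 : ∫ x, Mx T φ n (T x) ∂m = ∫ x, Mx T φ n x ∂m := by
        have h3 := integral_map (μ := m) hTm.measurable.aemeasurable
          (f := Mx T φ n) (Mx_meas hTm.measurable hφ n).aestronglyMeasurable
        rw [hTm.map_eq] at h3
        exact h3.symm
      have h3 : Integrable (fun x => Mx T φ n (T x)) m :=
        hTm.integrable_comp_of_integrable (hMint n)
      simp only [hFeq]
      rw [integral_sub (hMint (n + 1)) h3, h2, ← integral_sub (hMint (n + 1)) (hMint n)]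
      refine integral_nonneg fun x => ?_
      have := Mx_mono T φ n x
      simp only [Pi.zero_apply]
      linarith
    have hlim : Tendsto (fun n => ∫ x, F n x ∂m) atTop (𝓝 (∫ x, φ x ∂m)) := by
      refine tendsto_integral_of_dominated_convergence (fun x => |φ x|) ?_ hi.abs ?_ ?_
      · intro n
        exact (((Mx_meas hTm.measurable hφ n).comp hTm.measurable).neg.max hφ).aestronglyMeasurable
      · intro n
        filter_upwards with x
        have h2 := Mx_nonneg T φ n (T x)
        rw [Real.norm_eq_abs, abs_le]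
        constructor
        · exact (neg_abs_le _).trans (le_max_right _ _)
        · exact max_le (by linarith [abs_nonneg (φ x)]) (le_abs_self _)
      · filter_upwards [hmem] with x hx
        rw [← hinv] at hx
        obtain ⟨c, hc⟩ := exists_nat_ge |φ x|
        obtain ⟨N, hN⟩ := hx c
        have hmono : Monotone fun n => Mx T φ n (T x) :=
          monotone_nat_of_le_succ fun n => Mx_mono T φ n (T x)
        refine tendsto_const_nhds.congr' ?_
        filter_upwards [eventually_ge_atTop N] with n hn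
        have h4 := hmono hn
        simp only at h4
        have h3 := abs_le.mp hc
        simp only [hF]
        rw [max_eq_right]
        linarith
    have := ge_of_tendsto' hlim hFint
    linarith

lemma upper {m : Measure B} [IsProbabilityMeasure m]
    {T : B → B} (hT : Ergodic T m) (φ : B → ℝ) (hφ : Measurable φ) (hint : Integrable φ m)
    (ε : ℝ) (hε : 0 < ε) :
    ∀ᵐ x ∂m, ∀ᶠ n : ℕ in atTop,
      (n : ℝ)⁻¹ * ∑ k ∈ Finset.range n, φ (T^[k] x) ≤ (∫ x, φ x ∂m) + ε := by
  set I := ∫ x, φ x ∂m with hI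
  have h1 : ∫ x, (φ x - (I + ε / 2)) ∂m < 0 := by
    rw [integral_sub hint (integrable_const _)]
    simp only [integral_const, probReal_univ, smul_eq_mul, one_mul]
    rw [← hI]
    linarith
  have h2 := aux hT (fun x => φ x - (I + ε / 2)) (hφ.sub measurable_const)
    (hint.sub (integrable_const _)) h1
  filter_upwards [h2] with x hx
  obtain ⟨K, hK⟩ := hx
  obtain ⟨N, hN⟩ := exists_nat_gt ((K : ℝ) / (ε / 2))
  filter_upwards [eventually_ge_atTop (N + 1)] with n hn
  have h3 := (Mx_sum T (fun x => φ x - (I + ε / 2)) n x).trans (hK n)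
  rw [Finset.sum_sub_distrib] at h3
  simp only [Finset.sum_const, Finset.card_range, nsmul_eq_mul] at h3
  have hn0 : (0 : ℝ) < n := by
    have : 0 < n := by omega
    exact_mod_cast this
  have h4 : (K : ℝ) ≤ n * (ε / 2) := by
    rw [div_lt_iff₀ (by positivity)] at hN
    have : (N : ℝ) ≤ n := by
      have : N ≤ n := by omega
      exact_mod_cast this
    nlinarith
  rw [inv_mul_le_iff₀ hn0]
  nlinarith

end Birk

open Birk in
/-- The pointwise ergodic theorem for integrable functions and ergodic maps. -/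
theorem birkhoff {B : Type*} [MeasurableSpace B] {m : Measure B} [IsProbabilityMeasure m]
    {T : B → B} (hT : Ergodic T m) (φ : B → ℝ) (hφ : Measurable φ) (hi : Integrable φ m) :
    ∀ᵐ x ∂m, Tendsto (fun n : ℕ => (n : ℝ)⁻¹ * ∑ k ∈ Finset.range n, φ (T^[k] x)) atTop
      (𝓝 (∫ x, φ x ∂m)) := by
  have h1 : ∀ j : ℕ, ∀ᵐ x ∂m, ∀ᶠ n : ℕ in atTop,
      (n : ℝ)⁻¹ * ∑ k ∈ Finset.range n, φ (T^[k] x) ≤ (∫ x, φ x ∂m) + 1 / ((j : ℝ) + 1) :=
    fun j => upper hT φ hφ hi _ (by positivity)
  have h2 : ∀ j : ℕ, ∀ᵐ x ∂m, ∀ᶠ n : ℕ in atTop,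
      (n : ℝ)⁻¹ * ∑ k ∈ Finset.range n, (- φ (T^[k] x)) ≤ (∫ x, - φ x ∂m) + 1 / ((j : ℝ) + 1) :=
    fun j => upper hT (fun x => - φ x) hφ.neg hi.neg _ (by positivity)
  rw [← ae_all_iff] at h1 h2
  filter_upwards [h1, h2] with x hx1 hx2
  rw [Metric.tendsto_atTop']
  intro ε hε
  obtain ⟨j, hj⟩ := exists_nat_one_div_lt hε
  obtain ⟨N1, hN1⟩ := eventually_atTop.mp (hx1 j)
  obtain ⟨N2, hN2⟩ := eventually_atTop.mp (hx2 j)
  refine ⟨max N1 N2, fun n hn => ?_⟩
  have h3 := hN1 n (le_trans (le_max_left _ _) hn.le)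
  have h4 := hN2 n (le_trans (le_max_right _ _) hn.le)
  rw [integral_neg, Finset.sum_neg_distrib, mul_neg] at h4
  rw [Real.dist_eq, abs_lt]
  constructor <;> linarith

/-- The one-sided shift. -/
def sh (w : ℕ → ℝ) : ℕ → ℝ := fun i => w (i + 1)

lemma sh_meas : Measurable sh := by
  unfold sh; fun_prop

lemma sh_iter (n : ℕ) (w : ℕ → ℝ) (i : ℕ) : (sh^[n] w) i = w (i + n) := by
  induction n generalizing w i with
  | zero => simp
  | succ n ih => rw [Function.iterate_succ_apply, ih]; rfl

/-- The product measure on sequences. -/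
noncomputable def Pm (η : Measure ℝ) : Measure (ℕ → ℝ) := Measure.infinitePi (fun _ : ℕ => η)

instance (η : Measure ℝ) [IsProbabilityMeasure η] : IsProbabilityMeasure (Pm η) := by
  unfold Pm; infer_instance

variable (η : Measure ℝ) [IsProbabilityMeasure η]

lemma sh_mp : MeasurePreserving sh (Pm η) (Pm η) :=
  ⟨sh_meas, Measure.map_infinitePi_infinitePi_of_inj (P := fun _ : ℕ => η)
    (f := fun i : ℕ => i + 1) (fun _ _ h => Nat.succ_injective h)⟩

lemma ev_mp (i : ℕ) : MeasurePreserving (fun w : ℕ → ℝ => w i) (Pm η) η :=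
  measurePreserving_eval_infinitePi (fun _ : ℕ => η) i

lemma coord_indep : iIndepFun (fun (i : ℕ) (w : ℕ → ℝ) => w i) (Pm η) :=
  iIndepFun_infinitePi (P := fun _ : ℕ => η) (X := fun _ x => x) (fun _ => measurable_id)

/-- the sigma-algebra of the coordinate `i` -/
@[reducible] def sg (i : ℕ) : MeasurableSpace (ℕ → ℝ) :=
  MeasurableSpace.comap (fun w : ℕ → ℝ => w i) inferInstance

lemma sg_le (i : ℕ) : sg i ≤ (inferInstance : MeasurableSpace (ℕ → ℝ)) :=
  (measurable_pi_apply i).comap_le

lemma sh_iter_meas (n : ℕ) :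
    @Measurable _ _ (⨆ i ∈ {i | n ≤ i}, sg i) _ (sh^[n]) := by
  refine @measurable_pi_lambda _ _ _ (⨆ i ∈ {i | n ≤ i}, sg i) _ _ fun i => ?_
  have h1 : (fun w => (sh^[n] w) i) = fun w : ℕ → ℝ => w (i + n) := by
    ext w; exact sh_iter n w i
  rw [h1]
  have h2 : sg (i + n) ≤ ⨆ i ∈ {i | n ≤ i}, sg i :=
    le_iSup₂_of_le (f := fun (i : ℕ) (_ : i ∈ {i | n ≤ i}) => sg i) (i + n)
      (by simp) le_rfl
  exact Measurable.mono (comap_measurable _) h2 le_rfl

lemma split_mp : MeasurePreserving (fun w : ℕ → ℝ => (w 0, sh w)) (Pm η) (η.prod (Pm η)) := by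
  refine ⟨(measurable_pi_apply 0).prodMk sh_meas, ?_⟩
  have hind : IndepFun (fun w : ℕ → ℝ => w 0) sh (Pm η) := by
    have h0 : iIndep sg (Pm η) := (iIndepFun_iff_iIndep _ _ _).1 (coord_indep η)
    have h1 := indep_iSup_of_disjoint sg_le h0 (S := {0}) (T := {i | 1 ≤ i}) (by simp)
    rw [IndepFun_iff_Indep]
    refine indep_of_indep_of_le_right (indep_of_indep_of_le_left h1 ?_) ?_
    · simp
    · exact (sh_iter_meas 1).comap_le
  rw [(indepFun_iff_map_prod_eq_prod_map_map (measurable_pi_apply 0).aemeasurable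
    sh_meas.aemeasurable).1 hind, (ev_mp η 0).map_eq, (sh_mp η).map_eq]

lemma sh_ergodic : Ergodic sh (Pm η) := by
  refine ⟨sh_mp η, ⟨fun s hs hinv => ?_⟩⟩
  have h0 : iIndep sg (Pm η) := (iIndepFun_iff_iIndep _ _ _).1 (coord_indep η)
  have htail : MeasurableSet[limsup sg atTop] s := by
    rw [limsup_eq_iInf_iSup_of_nat, MeasurableSpace.measurableSet_iInf]
    intro n
    have h1 : (sh^[n]) ⁻¹' s = s := Function.IsFixedPt.preimage_iterate hinv n
    rw [← h1]
    exact sh_iter_meas n hs
  rcases measure_zero_or_one_of_measurableSet_limsup_atTop sg_le h0 htail with h | h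
  · exact eventuallyConst_set.2 (Or.inr (measure_eq_zero_iff_ae_notMem.1 h))
  · exact eventuallyConst_set.2 (Or.inl ((mem_ae_iff_prob_eq_one hs).2 h))

end Pool.Agent.H653Z.DH
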