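import Mathlib

/-!
# Exponential moments of the law of `log Z`
-/

open Set Filter Topology MeasureTheory ProbabilityTheory Real

namespace Pool.Agent.H653Z.DH

/-- Standing assumptions on the law `η` of `log Z`. -/
structure Hyp (η : Measure ℝ) (α : ℝ) : Prop where
  one_le : 1 ≤ α
  int : Integrable (fun ξ => exp (α * ξ)) η
  mean : ∫ ξ, exp (α * ξ) ∂η = 1
  nondeg : ¬ (∀ᵐ ξ ∂η, ξ = 0)

variable {η : Measure ℝ} [IsProbabilityMeasure η] {α : ℝ}

omit [IsProbabilityMeasure η] in
lemma Hyp.pos (h : Hyp η α) : 0 < α := lt_of_lt_of_le one_pos h.one_le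

lemma exp_le_one_add {γ : ℝ} (h0 : 0 ≤ γ) (h1 : γ ≤ α) (ξ : ℝ) :
    exp (γ * ξ) ≤ 1 + exp (α * ξ) := by
  rcases le_total ξ 0 with h | h
  · have : exp (γ * ξ) ≤ 1 := exp_le_one_iff.2 (mul_nonpos_of_nonneg_of_nonpos h0 h)
    linarith [exp_pos (α * ξ)]
  · have : exp (γ * ξ) ≤ exp (α * ξ) := exp_le_exp.2 (mul_le_mul_of_nonneg_right h1 h)
    linarith

lemma Hyp.int_exp (h : Hyp η α) {γ : ℝ} (h0 : 0 ≤ γ) (h1 : γ ≤ α) :
    Integrable (fun ξ => exp (γ * ξ)) η := by
  refine Integrable.mono' ((integrable_const (1 : ℝ)).add h.int) (by fun_prop) ?_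
  filter_upwards with ξ
  rw [Real.norm_eq_abs, abs_of_pos (exp_pos _)]
  exact exp_le_one_add h0 h1 ξ

/-- the moment `E Z^γ` -/
noncomputable def mom (η : Measure ℝ) (γ : ℝ) : ℝ := ∫ ξ, exp (γ * ξ) ∂η

lemma Hyp.mom_pos (h : Hyp η α) {γ : ℝ} (h0 : 0 ≤ γ) (h1 : γ ≤ α) : 0 < mom η γ := by
  unfold mom
  exact integral_exp_pos (h.int_exp h0 h1)

omit [IsProbabilityMeasure η] in
/-- a nonnegative integrable function that vanishes only at `0` has positive integral -/
lemma Hyp.integral_pos (h : Hyp η α) {k : ℝ → ℝ} (hi : Integrable k η) (h0 : ∀ ξ, 0 ≤ k ξ)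
    (h1 : ∀ ξ, k ξ = 0 → ξ = 0) : 0 < ∫ ξ, k ξ ∂η := by
  refine lt_of_le_of_ne (integral_nonneg h0) fun he => h.nondeg ?_
  have := (integral_eq_zero_iff_of_nonneg h0 hi).1 he.symm
  filter_upwards [this] with ξ hξ
  exact h1 ξ hξ

lemma exp_conc {θ t : ℝ} (h0 : 0 < θ) (h1 : θ < 1) (ht : t ≠ 0) :
    exp (θ * t) < 1 + θ * (exp t - 1) := by
  have := strictConvexOn_exp.2 (mem_univ t) (mem_univ 0) ht h0 (by linarith : 0 < 1 - θ)
    (by ring)
  simp only [smul_eq_mul, mul_zero, add_zero, exp_zero, mul_one] at this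
  linarith

lemma Hyp.mom_lt_one (h : Hyp η α) {γ : ℝ} (h0 : 0 < γ) (h1 : γ < α) : mom η γ < 1 := by
  have hα := h.pos
  have hθ0 : 0 < γ / α := div_pos h0 hα
  have hθ1 : γ / α < 1 := (div_lt_one hα).2 h1
  have key : ∀ ξ, ξ ≠ 0 → exp (γ * ξ) < 1 + γ / α * (exp (α * ξ) - 1) := by
    intro ξ hξ
    have := exp_conc hθ0 hθ1 (mul_ne_zero hα.ne' hξ)
    rwa [show γ / α * (α * ξ) = γ * ξ by field_simp] at this
  have hi1 : Integrable (fun ξ => 1 + γ / α * (exp (α * ξ) - 1)) η :=
    (integrable_const _).add ((h.int.sub (integrable_const _)).const_mul _)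
  have hpos := h.integral_pos (k := fun ξ => 1 + γ / α * (exp (α * ξ) - 1) - exp (γ * ξ))
    (hi1.sub (h.int_exp h0.le h1.le)) (fun ξ => by
      by_cases hξ : ξ = 0
      · simp [hξ]
      · linarith [key ξ hξ]) (fun ξ hk => by
      by_contra hξ
      linarith [key ξ hξ])
  have hi2 : Integrable (fun ξ => γ / α * (exp (α * ξ) - 1)) η :=
    (h.int.sub (integrable_const _)).const_mul _
  rw [integral_sub hi1 (h.int_exp h0.le h1.le), integral_add (integrable_const _) hi2,
    integral_const_mul, integral_sub h.int (integrable_const _), h.mean] at hpos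
  simp only [integral_const, probReal_univ, smul_eq_mul, mul_one, sub_self, mul_zero,
    add_zero] at hpos
  unfold mom
  linarith

/-- the truncated tilted mean `μ(t) = E[Z^α min(log Z, t)]` -/
noncomputable def mu (η : Measure ℝ) (α t : ℝ) : ℝ := ∫ ξ, exp (α * ξ) * min ξ t ∂η

lemma exp_mul_neg_le (hα : 0 < α) (ξ : ℝ) : - (1 / α) ≤ exp (α * ξ) * ξ := by
  have h1 := add_one_le_exp (-(α * ξ))
  have h2 : exp (α * ξ) * exp (-(α * ξ)) = 1 := by rw [← exp_add]; simp
  have h3 := exp_pos (α * ξ)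
  have h4 : exp (α * ξ) * (-(α * ξ) + 1) ≤ 1 := by
    exact (mul_le_mul_of_nonneg_left h1 h3.le).trans h2.le
  have h5 : -1 ≤ α * (exp (α * ξ) * ξ) := by nlinarith
  have : -(1 / α) = (-1) / α := by ring
  rw [this, div_le_iff₀ hα]
  linarith

lemma Hyp.int_min (h : Hyp η α) {t : ℝ} (ht : 0 ≤ t) :
    Integrable (fun ξ => exp (α * ξ) * min ξ t) η := by
  refine Integrable.mono' ((integrable_const (1 / α)).add (h.int.mul_const t)) (by fun_prop) ?_
  filter_upwards with ξ
  have h1 := exp_mul_neg_le h.pos ξ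
  have h2 := exp_pos (α * ξ)
  have h3 : 0 < 1 / α := by have := h.pos; positivity
  rw [Real.norm_eq_abs, abs_le]
  simp only [Pi.add_apply]
  rcases le_total ξ t with h4 | h4
  · rw [min_eq_left h4]
    constructor <;> nlinarith
  · rw [min_eq_right h4]
    constructor <;> nlinarith

lemma Hyp.mu_mono (h : Hyp η α) {s t : ℝ} (hs : 0 ≤ s) (hst : s ≤ t) : mu η α s ≤ mu η α t := by
  refine integral_mono (h.int_min hs) (h.int_min (hs.trans hst)) fun ξ => ?_
  exact mul_le_mul_of_nonneg_left (min_le_min le_rfl hst) (exp_pos _).le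

lemma Hyp.mu_lower (h : Hyp η α) {t : ℝ} (ht : 0 ≤ t) : - (1 / α) ≤ mu η α t := by
  have : ∫ _ξ, - (1 / α) ∂η ≤ mu η α t := by
    refine integral_mono (integrable_const _) (h.int_min ht) fun ξ => ?_
    have h1 := exp_mul_neg_le h.pos ξ
    have h2 := exp_pos (α * ξ)
    have h3 : 0 < 1 / α := by have := h.pos; positivity
    rcases le_total ξ t with h4 | h4
    · simpa only [min_eq_left h4] using h1
    · simp only [min_eq_right h4]
      nlinarith
  simpa using this

omit [IsProbabilityMeasure η] in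
lemma mu_tendsto (hi : Integrable (fun ξ => exp (α * ξ) * ξ) η) :
    Tendsto (fun n : ℕ => mu η α n) atTop (𝓝 (∫ ξ, exp (α * ξ) * ξ ∂η)) := by
  refine tendsto_integral_of_dominated_convergence (fun ξ => |exp (α * ξ) * ξ|)
    (fun n => by fun_prop) hi.abs (fun n => ?_) ?_
  · filter_upwards with ξ
    rw [Real.norm_eq_abs, abs_mul, abs_mul]
    refine mul_le_mul_of_nonneg_left ?_ (abs_nonneg _)
    have hn : (0 : ℝ) ≤ n := Nat.cast_nonneg n
    rcases le_total ξ n with h4 | h4
    · rw [min_eq_left h4]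
    · rw [min_eq_right h4, abs_of_nonneg hn, abs_of_nonneg (hn.trans h4)]; exact h4
  · filter_upwards with ξ
    refine tendsto_const_nhds.congr' ?_
    obtain ⟨N, hN⟩ := exists_nat_ge ξ
    filter_upwards [eventually_ge_atTop N] with n hn
    rw [min_eq_left (hN.trans (by exact_mod_cast hn))]

lemma Hyp.mu_le (h : Hyp η α) (hi : Integrable (fun ξ => exp (α * ξ) * ξ) η) {t : ℝ}
    (ht : 0 ≤ t) : mu η α t ≤ ∫ ξ, exp (α * ξ) * ξ ∂η :=
  integral_mono (h.int_min ht) hi fun ξ =>
    mul_le_mul_of_nonneg_left (min_le_left _ _) (exp_pos _).le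

lemma Hyp.mu1_pos (h : Hyp η α) (hi : Integrable (fun ξ => exp (α * ξ) * ξ) η) :
    0 < ∫ ξ, exp (α * ξ) * ξ ∂η := by
  have hα := h.pos
  have key : ∀ ξ, ξ ≠ 0 → exp (α * ξ) - 1 < α * (exp (α * ξ) * ξ) := by
    intro ξ hξ
    have h1 := add_one_lt_exp (x := -(α * ξ)) (neg_ne_zero.2 (mul_ne_zero hα.ne' hξ))
    have h2 : exp (α * ξ) * exp (-(α * ξ)) = 1 := by rw [← exp_add]; simp
    have h3 := exp_pos (α * ξ)
    have h4 : exp (α * ξ) * (-(α * ξ) + 1) < 1 := by
      exact (mul_lt_mul_of_pos_left h1 h3).trans_le h2.le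
    nlinarith
  have hpos := h.integral_pos (k := fun ξ => α * (exp (α * ξ) * ξ) - (exp (α * ξ) - 1))
    ((hi.const_mul α).sub (h.int.sub (integrable_const _))) (fun ξ => by
      by_cases hξ : ξ = 0
      · simp [hξ]
      · linarith [key ξ hξ]) (fun ξ hk => by
      by_contra hξ
      linarith [key ξ hξ])
  have hi2 : Integrable (fun ξ => exp (α * ξ) - 1) η := h.int.sub (integrable_const _)
  rw [integral_sub (hi.const_mul α) hi2, integral_const_mul,
    integral_sub h.int (integrable_const _), h.mean] at hpos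
  simp only [integral_const, probReal_univ, smul_eq_mul, mul_one, sub_self, sub_zero] at hpos
  exact (mul_pos_iff_of_pos_left hα).1 hpos

lemma Hyp.mu_tendsto_top (h : Hyp η α) (hi : ¬ Integrable (fun ξ => exp (α * ξ) * ξ) η) :
    Tendsto (fun n : ℕ => mu η α n) atTop atTop := by
  have hmono : Monotone (fun n : ℕ => mu η α n) := fun a b hab =>
    h.mu_mono (Nat.cast_nonneg a) (by exact_mod_cast hab)
  rcases tendsto_atTop_of_monotone hmono with h1 | ⟨l, hl⟩
  · exact h1
  · exfalso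
    apply hi
    have hα := h.pos
    have h3 : 0 < 1 / α := by positivity
    have hlow : ∀ (n : ℕ) ξ, 0 ≤ exp (α * ξ) * min ξ n + 1 / α := by
      intro n ξ
      have h1 := exp_mul_neg_le h.pos ξ
      have h2 := exp_pos (α * ξ)
      have hn : (0 : ℝ) ≤ n := Nat.cast_nonneg n
      rcases le_total ξ n with h4 | h4
      · rw [min_eq_left h4]; linarith
      · rw [min_eq_right h4]; positivity
    have hint : ∀ n : ℕ, Integrable (fun ξ => exp (α * ξ) * min ξ n + 1 / α) η := fun n =>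
      (h.int_min (Nat.cast_nonneg n)).add (integrable_const _)
    have hlim : ∀ᵐ ξ ∂η, Tendsto (fun n : ℕ => exp (α * ξ) * min ξ n + 1 / α) atTop
        (𝓝 (exp (α * ξ) * ξ + 1 / α)) := by
      filter_upwards with ξ
      refine tendsto_const_nhds.congr' ?_
      obtain ⟨N, hN⟩ := exists_nat_ge ξ
      filter_upwards [eventually_ge_atTop N] with n hn
      rw [min_eq_left (hN.trans (by exact_mod_cast hn))]
    have hbd : ∀ n : ℕ, ∫ ξ, (exp (α * ξ) * min ξ n + 1 / α) ∂η ≤ l + 1 / α := by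
      intro n
      rw [integral_add (h.int_min (Nat.cast_nonneg n)) (integrable_const _)]
      have := hmono.ge_of_tendsto hl n
      simp only [integral_const, probReal_univ, smul_eq_mul, one_mul]
      unfold mu at this
      linarith
    have hfin : Integrable (fun ξ => exp (α * ξ) * ξ + 1 / α) η := by
      refine ⟨by fun_prop, ?_⟩
      have h5 := lintegral_enorm_le_liminf_of_tendsto hlim (fun n => by fun_prop)
      refine lt_of_le_of_lt (h5.trans ?_) (ENNReal.ofReal_lt_top (r := l + 1 / α))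
      refine liminf_le_of_frequently_le' (Frequently.of_forall fun n => ?_)
      rw [← ofReal_integral_norm_eq_lintegral_enorm (hint n)]
      refine ENNReal.ofReal_le_ofReal ?_
      simpa only [Real.norm_eq_abs, abs_of_nonneg (hlow n _)] using hbd n
    refine (hfin.sub (integrable_const (1 / α))).congr (ae_of_all _ fun ξ => ?_)
    simp

end Pool.Agent.H653Z.DH
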