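import Pool.Agent.H653Z.DH.Birk
import Pool.Agent.H653Z.DH.Mom

/-!
# The stationary solution, built by backward iteration
-/

open Set Filter Topology MeasureTheory ProbabilityTheory Real

namespace Pool.Agent.H653Z.DH

/-- the projective action without the random factor -/
noncomputable def V (δ x : ℝ) : ℝ := (1 + x) / (1 + δ * x)

/-- backward iteration started from `0` -/
noncomputable def Bk (δ : ℝ) : ℕ → (ℕ → ℝ) → ℝ
  | 0, _ => 0
  | n + 1, w => exp (w 0) * V δ (Bk δ n (sh w))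

/-- the limit of the backward iteration -/
noncomputable def X (δ : ℝ) (w : ℕ → ℝ) : ℝ := ⨆ n, Bk δ n w

lemma V_mono {δ x y : ℝ} (h0 : 0 ≤ δ) (h1 : δ ≤ 1) (hx : 0 ≤ x) (hxy : x ≤ y) :
    V δ x ≤ V δ y := by
  have hy : 0 ≤ y := hx.trans hxy
  unfold V
  rw [div_le_div_iff₀ (by positivity) (by positivity)]
  nlinarith [mul_nonneg (sub_nonneg.2 hxy) (sub_nonneg.2 h1)]

lemma one_le_V {δ x : ℝ} (h0 : 0 ≤ δ) (h1 : δ ≤ 1) (hx : 0 ≤ x) : 1 ≤ V δ x := by
  unfold V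
  rw [le_div_iff₀ (by positivity)]
  nlinarith [mul_nonneg hx (sub_nonneg.2 h1)]

lemma V_le {δ x : ℝ} (h0 : 0 ≤ δ) (hx : 0 ≤ x) : V δ x ≤ 1 + x := by
  unfold V
  exact div_le_self (by positivity) (by nlinarith [mul_nonneg h0 hx])

lemma mul_V_le {δ x : ℝ} (h0 : 0 ≤ δ) (h1 : δ ≤ 1) (hx : 0 ≤ x) : δ * V δ x ≤ 1 := by
  unfold V
  rw [← mul_div_assoc, div_le_one (by positivity)]
  nlinarith

lemma V_zero (x : ℝ) : V 0 x = 1 + x := by simp [V]

lemma V_meas (δ : ℝ) : Measurable (V δ) := by unfold V; fun_prop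

lemma Bk_nonneg {δ : ℝ} (h0 : 0 ≤ δ) (n : ℕ) (w : ℕ → ℝ) : 0 ≤ Bk δ n w := by
  induction n generalizing w with
  | zero => simp [Bk]
  | succ n ih =>
    have := ih (sh w)
    simp only [Bk, V]
    positivity

lemma Bk_succ_mono {δ : ℝ} (h0 : 0 ≤ δ) (h1 : δ ≤ 1) (n : ℕ) (w : ℕ → ℝ) :
    Bk δ n w ≤ Bk δ (n + 1) w := by
  induction n generalizing w with
  | zero => exact Bk_nonneg h0 1 w
  | succ n ih =>
    exact mul_le_mul_of_nonneg_left (V_mono h0 h1 (Bk_nonneg h0 _ _) (ih (sh w))) (exp_pos _).le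

lemma Bk_mono {δ : ℝ} (h0 : 0 ≤ δ) (h1 : δ ≤ 1) (w : ℕ → ℝ) : Monotone fun n => Bk δ n w :=
  monotone_nat_of_le_succ fun n => Bk_succ_mono h0 h1 n w

lemma Bk_le_zero {δ : ℝ} (h0 : 0 ≤ δ) (n : ℕ) (w : ℕ → ℝ) : Bk δ n w ≤ Bk 0 n w := by
  induction n generalizing w with
  | zero => simp [Bk]
  | succ n ih =>
    refine mul_le_mul_of_nonneg_left ?_ (exp_pos _).le
    rw [V_zero]
    exact (V_le h0 (Bk_nonneg h0 _ _)).trans (by linarith [ih (sh w)])

lemma Bk_meas (δ : ℝ) (n : ℕ) : Measurable (Bk δ n) := by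
  induction n with
  | zero => exact measurable_const
  | succ n ih =>
    exact (measurable_exp.comp (measurable_pi_apply 0)).mul ((V_meas δ).comp (ih.comp sh_meas))

lemma X_meas (δ : ℝ) : Measurable (X δ) := Measurable.iSup fun n => Bk_meas δ n

lemma Bk_cont (n : ℕ) (w : ℕ → ℝ) : ContinuousAt (fun δ => Bk δ n w) 0 := by
  induction n generalizing w with
  | zero => exact continuousAt_const
  | succ n ih =>
    have h := ih (sh w)
    simp only [Bk, V]
    refine continuousAt_const.mul ((continuousAt_const.add h).div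
      (continuousAt_const.add (continuousAt_id.mul h)) ?_)
    simp

lemma Bk_le {δ : ℝ} (h0 : 0 < δ) (h1 : δ ≤ 1) (n : ℕ) (w : ℕ → ℝ) :
    Bk δ n w ≤ exp (w 0) / δ := by
  cases n with
  | zero => simp only [Bk]; positivity
  | succ n =>
    have := mul_V_le h0.le h1 (Bk_nonneg h0.le n (sh w))
    simp only [Bk]
    rw [le_div_iff₀ h0]
    nlinarith [exp_pos (w 0)]

lemma Bk_bdd {δ : ℝ} (h0 : 0 < δ) (h1 : δ ≤ 1) (w : ℕ → ℝ) :
    BddAbove (range fun n => Bk δ n w) :=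
  ⟨exp (w 0) / δ, by rintro _ ⟨n, rfl⟩; exact Bk_le h0 h1 n w⟩

lemma X_nonneg {δ : ℝ} (h0 : 0 ≤ δ) (w : ℕ → ℝ) : 0 ≤ X δ w :=
  Real.iSup_nonneg fun n => Bk_nonneg h0 n w

lemma Bk_tendsto {δ : ℝ} (h0 : 0 ≤ δ) (h1 : δ ≤ 1) {w : ℕ → ℝ}
    (hb : BddAbove (range fun n => Bk δ n w)) :
    Tendsto (fun n => Bk δ n w) atTop (𝓝 (X δ w)) :=
  tendsto_atTop_ciSup (Bk_mono h0 h1 w) hb

lemma X_fix {δ : ℝ} (h0 : 0 < δ) (h1 : δ ≤ 1) (w : ℕ → ℝ) :
    X δ w = exp (w 0) * V δ (X δ (sh w)) := by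
  have t1 := (Bk_tendsto h0.le h1 (Bk_bdd h0 h1 w)).comp (tendsto_add_atTop_nat 1)
  have t2 := Bk_tendsto h0.le h1 (Bk_bdd h0 h1 (sh w))
  have hc : ContinuousAt (V δ) (X δ (sh w)) := by
    have := X_nonneg h0.le (sh w)
    unfold V
    refine (continuousAt_const.add continuousAt_id).div
      (continuousAt_const.add (continuousAt_const.mul continuousAt_id)) ?_
    positivity
  exact tendsto_nhds_unique t1 ((hc.tendsto.comp t2).const_mul (exp (w 0)))

lemma X_pos {δ : ℝ} (h0 : 0 < δ) (h1 : δ ≤ 1) (w : ℕ → ℝ) : 0 < X δ w := by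
  rw [X_fix h0 h1]
  have := one_le_V h0.le h1 (X_nonneg h0.le (sh w))
  positivity

/-- sequences for which the perpetuity converges -/
def Good (w : ℕ → ℝ) : Prop := BddAbove (range fun n => Bk 0 n w)

lemma X_le_zero {δ : ℝ} (h0 : 0 ≤ δ) {w : ℕ → ℝ} (hw : Good w) : X δ w ≤ X 0 w :=
  ciSup_le fun n => (Bk_le_zero h0 n w).trans (le_ciSup hw n)

lemma X_zero_pos {w : ℕ → ℝ} (hw : Good w) : 0 < X 0 w :=
  (X_pos one_pos le_rfl w).trans_le (X_le_zero zero_le_one hw)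

lemma X_tendsto {w : ℕ → ℝ} (hw : Good w) :
    Tendsto (fun δ => X δ w) (𝓝[>] 0) (𝓝 (X 0 w)) := by
  rw [tendsto_order]
  constructor
  · intro a ha
    obtain ⟨n, hn⟩ := exists_lt_of_lt_ciSup ha
    have h1 : ∀ᶠ δ in 𝓝[>] (0 : ℝ), a < Bk δ n w :=
      ((Bk_cont n w).tendsto.eventually (lt_mem_nhds hn)).filter_mono nhdsWithin_le_nhds
    filter_upwards [h1, Ioc_mem_nhdsGT (zero_lt_one' ℝ)] with δ h2 h3
    exact h2.trans_le (le_ciSup (Bk_bdd h3.1 h3.2 w) n)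
  · intro a ha
    filter_upwards [self_mem_nhdsWithin] with δ h2
    exact (X_le_zero (le_of_lt h2) hw).trans_lt ha

lemma one_add_rpow_le {γ θ : ℝ} (hγ : 0 ≤ γ) (hθ : 0 < θ) :
    ∃ C : ℝ, 0 ≤ C ∧ ∀ t : ℝ, 0 ≤ t → (1 + t) ^ γ ≤ (1 + θ) * t ^ γ + C := by
  have hc : ContinuousAt (fun u : ℝ => (1 + u) ^ γ) 0 :=
    (continuousAt_const.add continuousAt_id).rpow_const (Or.inr hγ)
  have h1 : ∀ᶠ u in 𝓝 (0 : ℝ), (1 + u) ^ γ < 1 + θ :=
    hc.tendsto.eventually (gt_mem_nhds (by simpa using hθ))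
  obtain ⟨r, hr, h2⟩ := Metric.eventually_nhds_iff.1 h1
  refine ⟨(1 + 2 / r) ^ γ, by positivity, fun t ht => ?_⟩
  rcases le_total t (2 / r) with h | h
  · have h3 : (1 + t) ^ γ ≤ (1 + 2 / r) ^ γ := rpow_le_rpow (by positivity) (by linarith) hγ
    have h4 : 0 ≤ (1 + θ) * t ^ γ := by positivity
    linarith
  · have ht0 : 0 < t := lt_of_lt_of_le (by positivity) h
    have h3 : dist (1 / t) 0 < r := by
      rw [Real.dist_eq, sub_zero, abs_of_pos (by positivity), div_lt_iff₀ ht0]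
      rw [div_le_iff₀ hr] at h
      linarith
    have h4 := h2 h3
    have h5 : (1 + t) = (1 + 1 / t) * t := by field_simp; ring
    rw [h5, mul_rpow (by positivity) ht]
    have h6 : 0 ≤ (1 + 2 / r) ^ γ := by positivity
    have h7 : 0 ≤ t ^ γ := by positivity
    nlinarith

variable {η : Measure ℝ} [IsProbabilityMeasure η] {α : ℝ}

lemma split_integrable {g : ℝ × (ℕ → ℝ) → ℝ} (hg : Integrable g (η.prod (Pm η))) :
    Integrable (fun w => g (w 0, sh w)) (Pm η) :=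
  (split_mp η).integrable_comp_of_integrable hg

lemma split_integral {g : ℝ × (ℕ → ℝ) → ℝ} (hg : Integrable g (η.prod (Pm η))) :
    ∫ w, g (w 0, sh w) ∂(Pm η) = ∫ w, ∫ ξ, g (ξ, w) ∂η ∂(Pm η) := by
  rw [← integral_prod_symm g hg]
  have h3 := integral_map (μ := Pm η) (split_mp η).measurable.aemeasurable (f := g)
    (by rw [(split_mp η).map_eq]; exact hg.aestronglyMeasurable)
  rw [(split_mp η).map_eq] at h3
  exact h3.symm

lemma Bk_moment (h : Hyp η α) {γ : ℝ} (h0 : 0 < γ) (h1 : γ < α) :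
    ∃ C : ℝ, ∀ n, Integrable (fun w => (1 + Bk 0 n w) ^ γ) (Pm η) ∧
      ∫ w, (1 + Bk 0 n w) ^ γ ∂(Pm η) ≤ C := by
  have hm0 := h.mom_pos h0.le h1.le
  have hm1 := h.mom_lt_one h0 h1
  set m := mom η γ with hm
  have hθ : 0 < (1 - m) / (2 * m) := by
    have : 0 < 1 - m := by linarith
    positivity
  obtain ⟨C, hC0, hC⟩ := one_add_rpow_le h0.le hθ
  have hl : (1 + (1 - m) / (2 * m)) * m = (1 + m) / 2 := by field_simp; ring
  refine ⟨1 + 2 * C / (1 - m), fun n => ?_⟩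
  have h1m : 0 < 1 - m := by linarith
  induction n with
  | zero =>
    simp only [Bk, add_zero, one_rpow, integrable_const, integral_const, probReal_univ,
      smul_eq_mul, mul_one, true_and]
    have : 0 ≤ 2 * C / (1 - m) := by positivity
    linarith
  | succ n ih =>
    obtain ⟨ih1, ih2⟩ := ih
    have hg : Integrable (fun p : ℝ × (ℕ → ℝ) => exp (γ * p.1) * (1 + Bk 0 n p.2) ^ γ)
        (η.prod (Pm η)) := Integrable.mul_prod (h.int_exp h0.le h1.le) ih1
    have hi : Integrable (fun w => exp (γ * w 0) * (1 + Bk 0 n (sh w)) ^ γ) (Pm η) :=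
      split_integrable hg
    have he : ∫ w, exp (γ * w 0) * (1 + Bk 0 n (sh w)) ^ γ ∂(Pm η)
        = m * ∫ w, (1 + Bk 0 n w) ^ γ ∂(Pm η) := by
      rw [split_integral hg]
      simp only [integral_mul_const]
      rw [integral_const_mul]
      rfl
    have hpt : ∀ w, (1 + Bk 0 (n + 1) w) ^ γ ≤
        (1 + (1 - m) / (2 * m)) * (exp (γ * w 0) * (1 + Bk 0 n (sh w)) ^ γ) + C := by
      intro w
      have h2 := hC _ (Bk_nonneg le_rfl (n + 1) w)
      have h3 : Bk 0 (n + 1) w ^ γ = exp (γ * w 0) * (1 + Bk 0 n (sh w)) ^ γ := by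
        have := Bk_nonneg le_rfl n (sh w)
        simp only [Bk, V_zero]
        rw [mul_rpow (exp_pos _).le (by positivity), ← exp_mul, mul_comm (w 0)]
      rwa [h3] at h2
    have hi2 : Integrable (fun w =>
        (1 + (1 - m) / (2 * m)) * (exp (γ * w 0) * (1 + Bk 0 n (sh w)) ^ γ) + C) (Pm η) :=
      (hi.const_mul _).add (integrable_const _)
    have hi3 : Integrable (fun w => (1 + Bk 0 (n + 1) w) ^ γ) (Pm η) := by
      refine Integrable.mono' hi2
        ((measurable_const.add (Bk_meas 0 (n + 1))).pow_const γ).aestronglyMeasurable ?_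
      filter_upwards with w
      have := Bk_nonneg le_rfl (n + 1) w
      rw [Real.norm_eq_abs, abs_of_nonneg (by positivity)]
      exact hpt w
    refine ⟨hi3, (integral_mono hi3 hi2 hpt).trans ?_⟩
    rw [integral_add (hi.const_mul _) (integrable_const _), integral_const_mul, he, ← mul_assoc,
      hl]
    simp only [integral_const, probReal_univ, smul_eq_mul, one_mul]
    have h4 : (1 + m) / 2 * ∫ w, (1 + Bk 0 n w) ^ γ ∂(Pm η)
        ≤ (1 + m) / 2 * (1 + 2 * C / (1 - m)) := by gcongr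
    have h5 : (1 + m) / 2 * (1 + 2 * C / (1 - m)) + C = (1 + m) / 2 + 2 * C / (1 - m) := by
      field_simp; ring
    linarith

lemma good_and_moment (h : Hyp η α) {γ : ℝ} (h0 : 0 < γ) (h1 : γ < α) :
    (∀ᵐ w ∂(Pm η), Good w) ∧ Integrable (fun w => (1 + X 0 w) ^ γ) (Pm η) := by
  obtain ⟨C, hC⟩ := Bk_moment h h0 h1
  have hmeas : ∀ n, Measurable fun w => ENNReal.ofReal ((1 + Bk 0 n w) ^ γ) := fun n =>
    ((measurable_const.add (Bk_meas 0 n)).pow_const γ).ennreal_ofReal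
  have hmono : Monotone fun n => fun w => ENNReal.ofReal ((1 + Bk 0 n w) ^ γ) := by
    intro a b hab w
    refine ENNReal.ofReal_le_ofReal (rpow_le_rpow ?_ ?_ h0.le)
    · have := Bk_nonneg le_rfl a w
      positivity
    · have := Bk_mono le_rfl zero_le_one w hab
      simp only at this
      linarith
  have hfin : ∫⁻ w, ⨆ n, ENNReal.ofReal ((1 + Bk 0 n w) ^ γ) ∂(Pm η) < ⊤ := by
    rw [lintegral_iSup hmeas hmono]
    refine lt_of_le_of_lt (iSup_le fun n => ?_) (ENNReal.ofReal_lt_top (r := C))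
    rw [← ofReal_integral_eq_lintegral_ofReal (hC n).1]
    · exact ENNReal.ofReal_le_ofReal (hC n).2
    · filter_upwards with w
      have := Bk_nonneg le_rfl n w
      simp only [Pi.zero_apply]
      positivity
  have hgood : ∀ᵐ w ∂(Pm η), Good w := by
    filter_upwards [ae_lt_top (Measurable.iSup hmeas) hfin.ne] with w hw
    set T := (⨆ n, ENNReal.ofReal ((1 + Bk 0 n w) ^ γ)).toReal with hT
    refine ⟨T ^ (1 / γ), ?_⟩
    rintro _ ⟨n, rfl⟩
    have h2 := Bk_nonneg le_rfl n w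
    have h3 : (1 + Bk 0 n w) ^ γ ≤ T := by
      rw [hT, ← ENNReal.ofReal_le_iff_le_toReal hw.ne]
      exact le_iSup (fun n => ENNReal.ofReal ((1 + Bk 0 n w) ^ γ)) n
    have h4 := rpow_le_rpow (by positivity) h3 (by positivity : 0 ≤ 1 / γ)
    rw [← rpow_mul (by positivity), mul_one_div_cancel h0.ne', rpow_one] at h4
    simp only
    linarith
  refine ⟨hgood, ⟨((measurable_const.add (X_meas 0)).pow_const γ).aestronglyMeasurable, ?_⟩⟩
  refine lt_of_le_of_lt (lintegral_mono_ae ?_) hfin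
  filter_upwards [hgood] with w hw
  have h2 := X_nonneg le_rfl w
  rw [Real.enorm_eq_ofReal (by positivity)]
  have t1 : Tendsto (fun n => ENNReal.ofReal ((1 + Bk 0 n w) ^ γ)) atTop
      (𝓝 (ENNReal.ofReal ((1 + X 0 w) ^ γ))) := by
    refine (ENNReal.continuous_ofReal.tendsto _).comp ?_
    exact ((Bk_tendsto le_rfl zero_le_one hw).const_add 1).rpow_const (Or.inr h0.le)
  exact le_of_tendsto' t1 fun n => le_iSup (fun n => ENNReal.ofReal ((1 + Bk 0 n w) ^ γ)) n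

/-- `log (δ X)` -/
noncomputable def S (δ : ℝ) (w : ℕ → ℝ) : ℝ := log (δ * X δ w)

/-- `log (δ V(X))` -/
noncomputable def Sh (δ : ℝ) (w : ℕ → ℝ) : ℝ := log (δ * V δ (X δ w))

lemma S_meas (δ : ℝ) : Measurable (S δ) := (measurable_const.mul (X_meas δ)).log

lemma Sh_meas (δ : ℝ) : Measurable (Sh δ) :=
  (measurable_const.mul ((V_meas δ).comp (X_meas δ))).log

lemma Sh_nonpos {δ : ℝ} (h0 : 0 < δ) (h1 : δ ≤ 1) (w : ℕ → ℝ) : Sh δ w ≤ 0 := by
  have h2 := one_le_V h0.le h1 (X_nonneg h0.le w)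
  exact log_nonpos (by positivity) (mul_V_le h0.le h1 (X_nonneg h0.le w))

lemma S_fix {δ : ℝ} (h0 : 0 < δ) (h1 : δ ≤ 1) (w : ℕ → ℝ) : S δ w = Sh δ (sh w) + w 0 := by
  have h2 := one_le_V h0.le h1 (X_nonneg h0.le (sh w))
  unfold S Sh
  rw [X_fix h0 h1 w, ← mul_assoc, mul_comm δ, mul_assoc, log_mul (exp_pos _).ne' (by positivity),
    log_exp, add_comm]

lemma stat (h : Hyp η α) {δ : ℝ} (h0 : 0 < δ) (h1 : δ ≤ 1) {φ : ℝ → ℝ} (hm : Measurable φ)
    {C : ℝ} (hb : ∀ s, |φ s| ≤ C * (1 + exp (α * s))) :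
    Integrable (fun w => φ (S δ w)) (Pm η) ∧
    Integrable (fun w => ∫ ξ, φ (Sh δ w + ξ) ∂η) (Pm η) ∧
    ∫ w, φ (S δ w) ∂(Pm η) = ∫ w, ∫ ξ, φ (Sh δ w + ξ) ∂η ∂(Pm η) := by
  have hC : 0 ≤ C := by
    have := (abs_nonneg _).trans (hb 0)
    simp only [mul_zero, exp_zero] at this
    linarith
  have hg : Integrable (fun p : ℝ × (ℕ → ℝ) => φ (Sh δ p.2 + p.1)) (η.prod (Pm η)) := by
    have h2 : Integrable (fun ξ => C * (1 + exp (α * ξ))) η :=
      ((integrable_const _).add h.int).const_mul C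
    refine Integrable.mono' (h2.comp_fst (Pm η))
      (hm.comp (((Sh_meas δ).comp measurable_snd).add measurable_fst)).aestronglyMeasurable ?_
    filter_upwards with p
    refine (hb _).trans ?_
    have h3 := Sh_nonpos h0 h1 p.2
    have h4 : exp (α * (Sh δ p.2 + p.1)) ≤ exp (α * p.1) :=
      exp_le_exp.2 (mul_le_mul_of_nonneg_left (by linarith) h.pos.le)
    gcongr
  simp only [S_fix h0 h1]
  exact ⟨split_integrable hg, hg.integral_prod_right, split_integral hg⟩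

end Pool.Agent.H653Z.DH
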