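import Mathlib

/-!
# Alternating expansions: the algebraic induction
-/

open Set Filter Topology Asymptotics

namespace Pool.Agent.H653Z.DH

/-- closure properties of a class of germs at `0+` -/
structure IsCone (P : (ℝ → ℝ) → Prop) : Prop where
  add : ∀ {f g}, P f → P g → P fun δ => f δ + g δ
  smul : ∀ {f} (c : ℝ), 0 ≤ c → P f → P fun δ => c * f δ
  congr : ∀ {f g}, P f → f =ᶠ[𝓝[>] 0] g → P g
  mono : ∀ d : ℕ, P fun δ => (-δ) ^ d

lemma IsCone.zero {P : (ℝ → ℝ) → Prop} (h : IsCone P) : P fun _ => 0 := by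
  simpa using h.smul 0 le_rfl (h.mono 0)

lemma IsCone.sum {P : (ℝ → ℝ) → Prop} (h : IsCone P) (s : Finset ℕ) (f : ℕ → ℝ → ℝ)
    (hf : ∀ i ∈ s, P (f i)) : P fun δ => ∑ i ∈ s, f i δ := by
  classical
  induction s using Finset.induction_on with
  | empty => simpa using h.zero
  | insert a s ha ih =>
    simp only [Finset.sum_insert ha]
    exact h.add (hf a (Finset.mem_insert_self _ _))
      (ih fun i hi => hf i (Finset.mem_insert_of_mem hi))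

/-- the system of identities between signed mixed moments -/
structure Sys (m : ℕ) (Wt : ℕ → ℕ → ℝ → ℝ) (μ : ℕ → ℝ) : Prop where
  rec1 : ∀ d ≤ m, ∀ b, Wt d (b + 1) =ᶠ[𝓝[>] 0] fun δ => Wt d b δ + Wt (d + 1) (b + 1) δ
  rec2 : ∀ d, 1 ≤ d → d ≤ m → Wt d 0 =ᶠ[𝓝[>] 0] fun δ =>
    μ d * ∑ j ∈ Finset.range (d + 1), (d.choose j : ℝ) * ((-δ) ^ (d - j) * Wt j d δ)
  one : Wt 0 0 =ᶠ[𝓝[>] 0] fun _ => 1
  pos : ∀ d, 1 ≤ d → d ≤ m → 0 < μ d
  lt : ∀ d, 1 ≤ d → d ≤ m → μ d < 1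

lemma Sys.tele {m : ℕ} {Wt : ℕ → ℕ → ℝ → ℝ} {μ : ℕ → ℝ} (hS : Sys m Wt μ) {d : ℕ} (hd : d ≤ m)
    (b : ℕ) : Wt d b =ᶠ[𝓝[>] 0] fun δ =>
      Wt d 0 δ + ∑ i ∈ Finset.range b, Wt (d + 1) (i + 1) δ := by
  induction b with
  | zero => simp
  | succ b ih =>
    filter_upwards [ih, hS.rec1 d hd b] with δ h1 h2
    rw [h2, h1, Finset.sum_range_succ]; ring

/-- invariant of the induction -/
def Inv (m : ℕ) (Wt : ℕ → ℕ → ℝ → ℝ) (P : (ℝ → ℝ) → Prop) : Prop :=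
  (∀ d ≤ m, ∀ b ≤ m, P (Wt d b)) ∧ ∀ b ≤ m, P fun δ => Wt 0 b δ - 1

theorem Sys.step {m : ℕ} {Wt : ℕ → ℕ → ℝ → ℝ} {μ : ℕ → ℝ} (hS : Sys m Wt μ)
    {P P' : (ℝ → ℝ) → Prop} (hP : IsCone P)
    (hPP : ∀ (k : ℕ) f, P' f → P fun δ => (-δ) ^ (k + 1) * f δ)
    (hI : Inv m Wt P') (htop : ∀ b, 1 ≤ b → b ≤ m → P (Wt (m + 1) b)) :
    Inv m Wt P ∧ ∀ d, 1 ≤ d → d ≤ m →
      P fun δ => Wt d 0 δ - μ d / (1 - μ d) * (-δ) ^ d := by
  have hsum : ∀ d, (∀ b, 1 ≤ b → b ≤ m → P (Wt (d + 1) b)) → ∀ b ≤ m,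
      P fun δ => ∑ i ∈ Finset.range b, Wt (d + 1) (i + 1) δ := by
    intro d hd b hb
    refine hP.sum _ _ fun i hi => hd _ (by omega) ?_
    have := Finset.mem_range.1 hi
    omega
  have hmain : ∀ d, 1 ≤ d → d ≤ m → (∀ b, 1 ≤ b → b ≤ m → P (Wt (d + 1) b)) →
      P fun δ => Wt d 0 δ - μ d / (1 - μ d) * (-δ) ^ d := by
    intro d h1 h2 hd
    have hμ0 := hS.pos d h1 h2
    have hμ1 : 0 < 1 - μ d := sub_pos.2 (hS.lt d h1 h2)
    obtain ⟨e, rfl⟩ : ∃ e, d = e + 1 := ⟨d - 1, by omega⟩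
    have a1 : P fun δ => (-δ) ^ (e + 1) * (Wt 0 (e + 1) δ - 1) := hPP e _ (hI.2 _ h2)
    have a2 : P fun δ => ∑ j ∈ Finset.range e,
        (((e + 1).choose (j + 1) : ℕ) : ℝ) * ((-δ) ^ (e + 1 - (j + 1)) * Wt (j + 1) (e + 1) δ) := by
      refine hP.sum _ _ fun j hj => hP.smul _ (Nat.cast_nonneg _) ?_
      have hj' := Finset.mem_range.1 hj
      have : e + 1 - (j + 1) = (e - j - 1) + 1 := by omega
      rw [this]
      exact hPP _ _ (hI.1 _ (by omega) _ h2)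
    have a3 := hsum (e + 1) hd (e + 1) h2
    refine hP.congr (hP.smul (μ (e + 1) / (1 - μ (e + 1))) (by positivity)
      (hP.add (hP.add a1 a2) a3)) ?_
    filter_upwards [hS.rec2 (e + 1) h1 h2, hS.tele h2 (e + 1)] with δ b1 b2
    rw [Finset.sum_range_succ, Finset.sum_range_succ', b2] at b1
    simp only [Nat.choose_zero_right, Nat.cast_one, Nat.sub_zero, one_mul, Nat.choose_self,
      Nat.sub_self, pow_zero] at b1
    generalize (∑ k ∈ Finset.range e, (((e + 1).choose (k + 1) : ℕ) : ℝ) *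
      ((-δ) ^ (e + 1 - (k + 1)) * Wt (k + 1) (e + 1) δ)) = s1 at b1 ⊢
    generalize (∑ i ∈ Finset.range (e + 1), Wt (e + 1 + 1) (i + 1) δ) = s2 at b1 ⊢
    field_simp
    linear_combination (-1 : ℝ) * b1
  have hdown : ∀ k d, d + k = m + 1 → ∀ b, 1 ≤ b → b ≤ m → P (Wt d b) := by
    intro k
    induction k with
    | zero => intro d hd; rw [show d = m + 1 by omega]; exact htop
    | succ k ih =>
      intro d hd b _ hb
      have hd' := ih (d + 1) (by omega)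
      have h0 : P (Wt d 0) := by
        rcases Nat.eq_zero_or_pos d with rfl | hpos
        · exact hP.congr (by simpa using hP.mono 0) hS.one.symm
        · have hμ0 := hS.pos d hpos (by omega)
          have hμ1 : 0 < 1 - μ d := sub_pos.2 (hS.lt d hpos (by omega))
          have := hP.add (hmain d hpos (by omega) hd')
            (hP.smul (μ d / (1 - μ d)) (by positivity) (hP.mono d))
          simpa using this
      exact hP.congr (hP.add h0 (hsum d hd' b hb)) (hS.tele (by omega) b).symm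
  have hdown' : ∀ d ≤ m + 1, ∀ b, 1 ≤ b → b ≤ m → P (Wt d b) := fun d hd =>
    hdown (m + 1 - d) d (by omega)
  refine ⟨⟨fun d hd b hb => ?_, fun b hb => ?_⟩, fun d h1 h2 => hmain d h1 h2 (hdown' _ (by omega))⟩
  · rcases Nat.eq_zero_or_pos b with rfl | hpos
    · rcases Nat.eq_zero_or_pos d with rfl | hpos
      · exact hP.congr (by simpa using hP.mono 0) hS.one.symm
      · have hμ0 := hS.pos d hpos hd
        have hμ1 : 0 < 1 - μ d := sub_pos.2 (hS.lt d hpos hd)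
        have := hP.add (hmain d hpos hd (hdown' _ (by omega)))
          (hP.smul (μ d / (1 - μ d)) (by positivity) (hP.mono d))
        simpa using this
    · exact hdown' d (by omega) b hpos hb
  · refine hP.congr (hsum 0 (hdown' _ (by omega)) b hb) ?_
    filter_upwards [hS.tele (Nat.zero_le m) b, hS.one] with δ h1 h2
    rw [h1, h2]; ring

open Polynomial

/-- alternating polynomial expansion up to `O(δ ^ n)` -/
def KO (n : ℕ) (F : ℝ → ℝ) : Prop :=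
  ∃ p : ℝ[X], (∀ i, 0 ≤ p.coeff i) ∧ (fun δ => F δ - p.eval (-δ)) =O[𝓝[>] 0] fun δ => δ ^ n

/-- alternating polynomial expansion with a singular term -/
def KE (m : ℕ) (σ : ℝ → ℝ) (z : ℝ) (F : ℝ → ℝ) : Prop :=
  ∃ p : ℝ[X], (∀ i, 0 ≤ p.coeff i) ∧ ∃ c : ℝ, 0 ≤ c ∧
    (fun δ => F δ - p.eval (-δ) - (-1) ^ (m + 1) * (z * c) * σ δ) =o[𝓝[>] 0] σ

lemma coeff_X_pow_nonneg (d i : ℕ) : 0 ≤ ((X : ℝ[X]) ^ d).coeff i := by
  rw [coeff_X_pow]; split_ifs <;> norm_num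

lemma KO_cone (n : ℕ) : IsCone (KO n) where
  add := by
    rintro f g ⟨p, hp, h1⟩ ⟨q, hq, h2⟩
    refine ⟨p + q, fun i => by rw [coeff_add]; exact add_nonneg (hp i) (hq i), ?_⟩
    refine (h1.add h2).congr_left fun δ => ?_
    rw [eval_add]; ring
  smul := by
    rintro f c hc ⟨p, hp, h1⟩
    refine ⟨C c * p, fun i => by rw [coeff_C_mul]; exact mul_nonneg hc (hp i), ?_⟩
    refine (h1.const_mul_left c).congr_left fun δ => ?_
    rw [eval_mul, eval_C]; ring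
  congr := by
    rintro f g ⟨p, hp, h1⟩ hfg
    refine ⟨p, hp, h1.congr' ?_ EventuallyEq.rfl⟩
    filter_upwards [hfg] with δ h
    rw [h]
  mono := fun d => ⟨X ^ d, coeff_X_pow_nonneg d, by simp [isBigO_zero]⟩

lemma KE_cone (m : ℕ) (σ : ℝ → ℝ) (z : ℝ) : IsCone (KE m σ z) where
  add := by
    rintro f g ⟨p, hp, c, hc, h1⟩ ⟨q, hq, c', hc', h2⟩
    refine ⟨p + q, fun i => by rw [coeff_add]; exact add_nonneg (hp i) (hq i), c + c',
      add_nonneg hc hc', ?_⟩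
    refine (h1.add h2).congr_left fun δ => ?_
    rw [eval_add]; ring
  smul := by
    rintro f a ha ⟨p, hp, c, hc, h1⟩
    refine ⟨C a * p, fun i => by rw [coeff_C_mul]; exact mul_nonneg ha (hp i), a * c,
      mul_nonneg ha hc, ?_⟩
    refine (h1.const_mul_left a).congr_left fun δ => ?_
    rw [eval_mul, eval_C]; ring
  congr := by
    rintro f g ⟨p, hp, c, hc, h1⟩ hfg
    refine ⟨p, hp, c, hc, h1.congr' ?_ EventuallyEq.rfl⟩
    filter_upwards [hfg] with δ h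
    rw [h]
  mono := fun d => ⟨X ^ d, coeff_X_pow_nonneg d, 0, le_rfl, by simp⟩

lemma pow_isBigO {a b : ℕ} (hab : a ≤ b) :
    (fun δ : ℝ => δ ^ b) =O[𝓝[>] 0] fun δ => δ ^ a := by
  refine IsBigO.of_bound 1 ?_
  filter_upwards [Ioc_mem_nhdsGT (zero_lt_one' ℝ)] with δ hδ
  rw [one_mul, Real.norm_eq_abs, Real.norm_eq_abs, abs_of_pos (pow_pos hδ.1 _),
    abs_of_pos (pow_pos hδ.1 _)]
  exact pow_le_pow_of_le_one hδ.1.le hδ.2 hab

lemma KO_mul {n : ℕ} (k : ℕ) {f : ℝ → ℝ} (h : KO n f) :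
    KO (n + 1) fun δ => (-δ) ^ (k + 1) * f δ := by
  obtain ⟨p, hp, h1⟩ := h
  refine ⟨X ^ (k + 1) * p, fun i => ?_, ?_⟩
  · rw [coeff_X_pow_mul']; split_ifs
    · exact hp _
    · exact le_rfl
  · have h2 : (fun δ : ℝ => (-δ) ^ (k + 1)) =O[𝓝[>] 0] fun δ => δ ^ 1 := by
      refine IsBigO.trans ?_ (pow_isBigO (show 1 ≤ k + 1 by omega))
      refine IsBigO.of_bound 1 (Eventually.of_forall fun δ => ?_)
      simp
    refine (h2.mul h1).congr (fun δ => ?_) (fun δ => by ring)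
    rw [eval_mul, eval_pow, eval_X]; ring

lemma KE_of_KO {m : ℕ} {σ : ℝ → ℝ} (z : ℝ)
    (hσ : (fun δ : ℝ => δ ^ (m + 1)) =o[𝓝[>] 0] σ) {f : ℝ → ℝ} (h : KO (m + 1) f) :
    KE m σ z f := by
  obtain ⟨p, hp, h1⟩ := h
  exact ⟨p, hp, 0, le_rfl, by simpa using h1.trans_isLittleO hσ⟩

lemma KO_of_KE {m n : ℕ} {σ : ℝ → ℝ} {z : ℝ} (hn : n ≤ m)
    (hσ : σ =O[𝓝[>] 0] fun δ : ℝ => δ ^ m) {f : ℝ → ℝ} (h : KE m σ z f) : KO n f := by
  obtain ⟨p, hp, c, _, h1⟩ := h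
  refine ⟨p, hp, IsBigO.trans ?_ (hσ.trans (pow_isBigO hn))⟩
  refine (h1.isBigO.add ((isBigO_refl σ _).const_mul_left ((-1) ^ (m + 1) * (z * c)))).congr_left
    fun δ => ?_
  ring

theorem Sys.final {m : ℕ} {Wt : ℕ → ℕ → ℝ → ℝ} {μ : ℕ → ℝ} (hS : Sys m Wt μ)
    {σ : ℝ → ℝ} {z : ℝ} (hσ1 : (fun δ : ℝ => δ ^ (m + 1)) =o[𝓝[>] 0] σ)
    (hσ2 : σ =O[𝓝[>] 0] fun δ : ℝ => δ ^ m)
    (hbd : ∀ d ≤ m, ∀ b, Wt d b =O[𝓝[>] 0] fun _ => (1 : ℝ))
    (htop : ∀ b, 1 ≤ b → b ≤ m → KE m σ z (Wt (m + 1) b)) :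
    ∀ d, 1 ≤ d → d ≤ m → KE m σ z fun δ => Wt d 0 δ - μ d / (1 - μ d) * (-δ) ^ d := by
  have hI : ∀ n ≤ m, Inv m Wt (KO n) := by
    intro n
    induction n with
    | zero =>
      intro _
      refine ⟨fun d hd b _ => ⟨0, by simp, by simpa using hbd d hd b⟩,
        fun b _ => ⟨0, by simp, ?_⟩⟩
      simpa using (hbd 0 (Nat.zero_le m) b).sub (isBigO_refl _ _)
    | succ n ih =>
      intro hn
      exact (hS.step (KO_cone (n + 1)) (fun k f hf => KO_mul k hf) (ih (by omega))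
        fun b h1 h2 => KO_of_KE hn hσ2 (htop b h1 h2)).1
  exact (hS.step (KE_cone m σ z) (fun k f hf => KE_of_KO z hσ1 (KO_mul k hf)) (hI m le_rfl)
    htop).2

lemma eval_trunc (p : ℝ[X]) (m : ℕ) :
    (fun δ : ℝ => p.eval (-δ) - ∑ k ∈ Finset.range (m + 1), p.coeff k * (-δ) ^ k) =O[𝓝[>] 0]
      fun δ => δ ^ (m + 1) := by
  have h1 : ∀ δ : ℝ, p.eval (-δ) - ∑ k ∈ Finset.range (m + 1), p.coeff k * (-δ) ^ k =
      ∑ k ∈ Finset.Ico (m + 1) (p.natDegree + 1 + (m + 1)), p.coeff k * (-δ) ^ k := by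
    intro δ
    rw [eval_eq_sum_range' (n := p.natDegree + 1 + (m + 1)) (by omega),
      Finset.sum_Ico_eq_sub _ (by omega)]
  simp only [h1]
  refine IsBigO.fun_sum (A := fun k δ => p.coeff k * (-δ) ^ k) fun k hk => ?_
  refine IsBigO.const_mul_left ?_ _
  refine IsBigO.trans ?_ (pow_isBigO (Finset.mem_Ico.1 hk).1)
  refine IsBigO.of_bound 1 (Eventually.of_forall fun δ => ?_)
  simp

theorem Sys.expansion {m : ℕ} {Wt : ℕ → ℕ → ℝ → ℝ} {μ : ℕ → ℝ} (hS : Sys m Wt μ)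
    {σ : ℝ → ℝ} {z : ℝ} (hσ1 : (fun δ : ℝ => δ ^ (m + 1)) =o[𝓝[>] 0] σ)
    (hσ2 : σ =O[𝓝[>] 0] fun δ : ℝ => δ ^ m) (hσ0 : Tendsto σ (𝓝[>] 0) (𝓝 0))
    (hbd : ∀ d ≤ m, ∀ b, Wt d b =O[𝓝[>] 0] fun _ => (1 : ℝ))
    (htop : ∀ b, 1 ≤ b → b ≤ m → KE m σ z (Wt (m + 1) b))
    {L R : ℝ → ℝ} {c0 : ℝ} (hL0 : Tendsto L (𝓝[>] 0) (𝓝 0))
    (hL : L =ᶠ[𝓝[>] 0] fun δ =>
      - ∑ k ∈ Finset.Icc 1 m, (1 / (k : ℝ)) * Wt k 0 δ + (-1) ^ m * R δ)
    (hR : (fun δ => R δ - c0 * σ δ) =o[𝓝[>] 0] σ) :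
    ∃ ℓ : ℕ → ℝ, (∀ k, 1 ≤ k → k ≤ m → 0 < ℓ k) ∧ ∃ c : ℝ, 0 ≤ c ∧
      (fun δ => L δ - ∑ k ∈ Finset.Icc 1 m, (-1) ^ (k + 1) * ℓ k * δ ^ k -
        (-1) ^ m * (z * c + c0) * σ δ) =o[𝓝[>] 0] σ := by
  have h1 := hS.final hσ1 hσ2 hbd htop
  have h2 := (KE_cone m σ z).sum (Finset.Icc 1 m)
    (fun k δ => (1 / (k : ℝ)) * (Wt k 0 δ - μ k / (1 - μ k) * (-δ) ^ k)) fun k hk =>
      (KE_cone m σ z).smul _ (by positivity)
        (h1 k (Finset.mem_Icc.1 hk).1 (Finset.mem_Icc.1 hk).2)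
  obtain ⟨p, hp, c, hc, h3⟩ := h2
  have h4 := (eval_trunc p m).trans_isLittleO hσ1
  have h5 : (fun δ => L δ + p.coeff 0 - ∑ k ∈ Finset.Icc 1 m,
      (-1) ^ (k + 1) * (p.coeff k + 1 / (k : ℝ) * (μ k / (1 - μ k))) * δ ^ k -
        (-1) ^ m * (z * c + c0) * σ δ) =o[𝓝[>] 0] σ := by
    refine (((hR.const_mul_left ((-1) ^ m)).sub h3).sub h4).congr' ?_ EventuallyEq.rfl
    filter_upwards [hL] with δ hδ
    have e1 : ∑ k ∈ Finset.range (m + 1), p.coeff k * (-δ) ^ k =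
        p.coeff 0 + ∑ k ∈ Finset.Icc 1 m, p.coeff k * (-δ) ^ k := by
      rw [Finset.range_eq_Ico, Finset.sum_eq_sum_Ico_succ_bot (by omega)]
      simp [Finset.Ico_add_one_right_eq_Icc]
    have e2 : ∑ k ∈ Finset.Icc 1 m,
        (-1) ^ (k + 1) * (p.coeff k + 1 / (k : ℝ) * (μ k / (1 - μ k))) * δ ^ k =
        - ∑ k ∈ Finset.Icc 1 m, p.coeff k * (-δ) ^ k
        + (∑ k ∈ Finset.Icc 1 m, (1 / (k : ℝ)) * (Wt k 0 δ - μ k / (1 - μ k) * (-δ) ^ k)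
          - ∑ k ∈ Finset.Icc 1 m, (1 / (k : ℝ)) * Wt k 0 δ) := by
      rw [← Finset.sum_sub_distrib, ← Finset.sum_neg_distrib, ← Finset.sum_add_distrib]
      refine Finset.sum_congr rfl fun k _ => ?_
      rw [neg_pow δ k]; ring
    rw [hδ, e1, e2]; ring
  have h6 : p.coeff 0 = 0 := by
    have t0 : Tendsto (fun δ : ℝ => δ) (𝓝[>] 0) (𝓝 0) := tendsto_id.mono_left nhdsWithin_le_nhds
    have t1 := h5.isBigO.trans_tendsto hσ0
    have t2 : Tendsto (fun δ : ℝ => ∑ k ∈ Finset.Icc 1 m,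
        (-1) ^ (k + 1) * (p.coeff k + 1 / (k : ℝ) * (μ k / (1 - μ k))) * δ ^ k) (𝓝[>] 0)
        (𝓝 (∑ k ∈ Finset.Icc 1 m, 0)) := by
      refine tendsto_finsetSum _ fun k hk => ?_
      have := (t0.pow k).const_mul ((-1) ^ (k + 1) * (p.coeff k + 1 / (k : ℝ) * (μ k / (1 - μ k))))
      rwa [zero_pow (by have := (Finset.mem_Icc.1 hk).1; omega), mul_zero] at this
    have t3 := ((hL0.add_const (p.coeff 0)).sub t2).sub
      (hσ0.const_mul ((-1) ^ m * (z * c + c0)))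
    have := tendsto_nhds_unique t1 t3
    simpa using this.symm
  refine ⟨fun k => p.coeff k + 1 / (k : ℝ) * (μ k / (1 - μ k)), fun k h1 h2 => ?_, c, hc, ?_⟩
  · have hμ0 := hS.pos k h1 h2
    have hμ1 : 0 < 1 - μ k := sub_pos.2 (hS.lt k h1 h2)
    have : (0 : ℝ) < k := by exact_mod_cast h1
    have := hp k
    positivity
  · simpa only [h6, add_zero] using h5

end Pool.Agent.H653Z.DH
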