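import Mathlib

/-!
# Definitions used in the statements on the Derrida-Hilhorst expansion
-/

open MeasureTheory ProbabilityTheory Filter Topology Asymptotics

namespace Pool.Agent.H653Z.DH

/-- The matrix with rows `(1, ε)` and `(ε z, z)`. -/
def Mat (ε z : ℝ) : Matrix (Fin 2) (Fin 2) ℝ := !![1, ε; ε * z, z]

/-- The product `Mat ε (z (n-1)) * ... * Mat ε (z 0)` of `n` matrices. -/
def prodM (ε : ℝ) (z : ℕ → ℝ) : ℕ → Matrix (Fin 2) (Fin 2) ℝ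
  | 0 => 1
  | n + 1 => Mat ε (z n) * prodM ε z n

/-- The matrix norm: sum of the absolute values of the entries. -/
def mnorm (A : Matrix (Fin 2) (Fin 2) ℝ) : ℝ := ∑ i, ∑ j, |A i j|

/-- `Z 0, Z 1, ...` are independent copies of a positive, not almost surely constant random
variable `Z` with `E[Z ^ α] = 1`. -/
structure Setting {Ω : Type} [MeasurableSpace Ω] (P : Measure Ω) (Z : ℕ → Ω → ℝ) (α : ℝ) :
    Prop where
  prob : IsProbabilityMeasure P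
  meas : ∀ n, Measurable (Z n)
  indep : iIndepFun Z P
  ident : ∀ n, IdentDistrib (Z n) (Z 0) P P
  pos : ∀ᵐ ω ∂P, 0 < Z 0 ω
  nonconst : ¬ ∃ c : ℝ, ∀ᵐ ω ∂P, Z 0 ω = c
  integrable : Integrable (fun ω => Z 0 ω ^ α) P
  mean : ∫ ω, Z 0 ω ^ α ∂P = 1

/-- A real random variable `ξ` is arithmetic if `c ξ` is almost surely an integer for some
`c > 0`. -/
def Arithmetic {Ω : Type} [MeasurableSpace Ω] (P : Measure Ω) (ξ : Ω → ℝ) : Prop :=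
  ∃ c : ℝ, 0 < c ∧ ∀ᵐ ω ∂P, ∃ k : ℤ, c * ξ ω = k

/-- For `0 < ε ≤ 1`, the number `L ε` is the almost sure limit of
`n⁻¹ log ‖M_n ⋯ M_1‖`, that is the top Lyapunov exponent. -/
def IsLyapunov {Ω : Type} [MeasurableSpace Ω] (P : Measure Ω) (Z : ℕ → Ω → ℝ) (L : ℝ → ℝ) :
    Prop :=
  ∀ ε : ℝ, 0 < ε → ε ≤ 1 → ∀ᵐ ω ∂P,
    Tendsto (fun n : ℕ => Real.log (mnorm (prodM ε (fun i => Z i ω) n)) / n) atTop (𝓝 (L ε))

/-- `L ε = ∑_{k=1}^m (-1)^(k+1) ℓ k ε^(2k) + (-1)^m C σ ε + o(σ ε)` as `ε → 0+`. -/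
def Expansion (L : ℝ → ℝ) (m : ℕ) (ℓ : ℕ → ℝ) (C : ℝ) (σ : ℝ → ℝ) : Prop :=
  (fun ε : ℝ => L ε - ∑ k ∈ Finset.Icc 1 m, (-1) ^ (k + 1) * ℓ k * ε ^ (2 * k) -
    (-1) ^ m * C * σ ε) =o[𝓝[>] 0] σ

end Pool.Agent.H653Z.DH
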