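import Pool.Agent.H653Z.DH.Birk
import Pool.Agent.H653Z.DH.Defs

/-!
# A non-arithmetic law with `E Z^α = 1` and `E Z^α log Z = ∞`
-/

open Set Filter Topology MeasureTheory ProbabilityTheory Real

namespace Pool.Agent.H653Z.DH

lemma exists_law {α : ℝ} (hα : 0 < α) : ∃ η : Measure ℝ, IsProbabilityMeasure η ∧
    Integrable (fun ξ => exp (α * ξ)) η ∧ ∫ ξ, exp (α * ξ) ∂η = 1 ∧
    (∀ s : Set ℝ, s.Countable → ¬ ∀ᵐ ξ ∂η, ξ ∈ s) ∧
    ¬ Integrable (fun ξ => exp (α * ξ) * ξ) η := by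
  set μ0 : Measure ℝ := volume.restrict (Ioi 1) with hμ0
  set g : ℝ → ℝ := fun ξ => 1 / 2 * (ξ ^ 2)⁻¹ * exp (-(α * ξ)) with hg
  have hgm : Measurable g := by rw [hg]; fun_prop
  have hg0 : ∀ ξ, 0 ≤ g ξ := fun ξ => by rw [hg]; positivity
  have hmem : ∀ᵐ ξ ∂μ0, ξ ∈ Ioi (1 : ℝ) := ae_restrict_mem measurableSet_Ioi
  have hsq : ∀ᵐ ξ ∂μ0, ξ ^ (-2 : ℝ) = (ξ ^ 2)⁻¹ := by
    filter_upwards [hmem] with ξ hξ
    rw [rpow_neg (by linarith [mem_Ioi.1 hξ]), rpow_two]
  have hi2 : Integrable (fun ξ : ℝ => (ξ ^ 2)⁻¹) μ0 :=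
    (integrableOn_Ioi_rpow_of_lt (by norm_num : (-2 : ℝ) < -1) one_pos).congr hsq
  have he2 : ∫ ξ : ℝ, (ξ ^ 2)⁻¹ ∂μ0 = 1 := by
    rw [← integral_congr_ae hsq, hμ0, integral_Ioi_rpow_of_lt (by norm_num) one_pos]
    norm_num
  have hgle : ∀ᵐ ξ ∂μ0, g ξ ≤ 1 / 2 * (ξ ^ 2)⁻¹ := by
    filter_upwards [hmem] with ξ hξ
    refine mul_le_of_le_one_right (by positivity) (exp_le_one_iff.2 ?_)
    nlinarith [mem_Ioi.1 hξ]
  have hgi : Integrable g μ0 := by
    refine Integrable.mono' (hi2.const_mul (1 / 2)) hgm.aestronglyMeasurable ?_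
    filter_upwards [hgle] with ξ hξ
    rwa [Real.norm_eq_abs, abs_of_nonneg (hg0 ξ)]
  have hM : ∫ ξ, g ξ ∂μ0 ≤ 1 / 2 := by
    have := integral_mono_ae hgi (hi2.const_mul (1 / 2)) hgle
    rwa [integral_const_mul, he2, mul_one] at this
  set b := 1 - ∫ ξ, g ξ ∂μ0 with hb
  have hb0 : 0 < b := by linarith
  set x0 := log (1 / (2 * b)) / α with hx0
  have hx : exp (α * x0) = 1 / (2 * b) := by
    rw [hx0, mul_div_cancel₀ _ hα.ne', exp_log (by positivity)]
  set μ1 : Measure ℝ := μ0.withDensity fun ξ => ENNReal.ofReal (g ξ) with hμ1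
  have hI : ∀ f : ℝ → ℝ, Integrable f μ1 ↔ Integrable (fun ξ => g ξ * f ξ) μ0 := fun f => by
    rw [hμ1, integrable_withDensity_iff_integrable_smul' hgm.ennreal_ofReal
      (ae_of_all _ fun _ => ENNReal.ofReal_lt_top)]
    simp only [ENNReal.toReal_ofReal (hg0 _), smul_eq_mul]
  have hE : ∀ f : ℝ → ℝ, ∫ ξ, f ξ ∂μ1 = ∫ ξ, g ξ * f ξ ∂μ0 := fun f => by
    rw [hμ1, integral_withDensity_eq_integral_toReal_smul hgm.ennreal_ofReal
      (ae_of_all _ fun _ => ENNReal.ofReal_lt_top)]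
    simp only [ENNReal.toReal_ofReal (hg0 _), smul_eq_mul]
  have hge : ∀ ξ, g ξ * exp (α * ξ) = 1 / 2 * (ξ ^ 2)⁻¹ := fun ξ => by
    rw [hg]; simp only; rw [mul_assoc, ← exp_add]; simp
  have hD : ∀ f : ℝ → ℝ, Integrable f (ENNReal.ofReal b • Measure.dirac x0) := fun f =>
    (integrable_dirac (by simp)).smul_measure ENNReal.ofReal_ne_top
  have hi3 : Integrable (fun ξ => exp (α * ξ)) μ1 := by
    rw [hI]; simp only [hge]; exact hi2.const_mul _
  refine ⟨μ1 + ENNReal.ofReal b • Measure.dirac x0, ⟨?_⟩, hi3.add_measure (hD _), ?_, ?_, ?_⟩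
  · rw [Measure.add_apply, hμ1, withDensity_apply _ MeasurableSet.univ, Measure.restrict_univ,
      ← ofReal_integral_eq_lintegral_ofReal hgi (ae_of_all _ hg0)]
    simp only [Measure.smul_apply, measure_univ, smul_eq_mul, mul_one]
    rw [← ENNReal.ofReal_add (integral_nonneg hg0) hb0.le, hb]
    simp
  · rw [integral_add_measure hi3 (hD _), hE, integral_smul_measure, integral_dirac,
      ENNReal.toReal_ofReal hb0.le, hx]
    simp only [hge]
    rw [integral_const_mul, he2, smul_eq_mul]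
    field_simp
    ring
  · intro s hs hae
    have h1 : ∀ᵐ ξ ∂μ1, ξ ∈ s := (ae_add_measure_iff.1 hae).1
    rw [hμ1, ae_withDensity_iff hgm.ennreal_ofReal] at h1
    have h2 : ∀ᵐ ξ ∂μ0, ξ ∉ s := ae_restrict_of_ae (hs.ae_notMem volume)
    have h3 : ∀ᵐ _ξ ∂μ0, False := by
      filter_upwards [h1, h2, hmem] with ξ a1 a2 a3
      refine a2 (a1 ?_)
      have : 0 < ξ := lt_trans one_pos a3
      have : 0 < g ξ := by rw [hg]; positivity
      simpa using this
    rw [eventually_false_iff_eq_bot, ae_eq_bot, hμ0, Measure.restrict_eq_zero] at h3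
    simp at h3
  · intro hi
    have h1 := (hI _).1 (integrable_add_measure.1 hi).1
    have h2 : IntegrableOn (fun ξ : ℝ => ξ ^ (-1 : ℝ)) (Ioi 1) := by
      refine (h1.const_mul 2).congr ?_
      filter_upwards [hmem] with ξ hξ
      have : 0 < ξ := lt_trans one_pos hξ
      rw [← mul_assoc (g ξ), hge, rpow_neg_one]
      field_simp
    have := (integrableOn_Ioi_rpow_iff one_pos).1 h2
    linarith

theorem exists_example {α : ℝ} (hα : 0 < α) :
    ∃ (Ω : Type) (_ : MeasurableSpace Ω) (P : Measure Ω) (Z : ℕ → Ω → ℝ), Setting P Z α ∧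
      ¬ Arithmetic P (fun ω => log (Z 0 ω)) ∧
      ¬ Integrable (fun ω => Z 0 ω ^ α * log (Z 0 ω)) P := by
  obtain ⟨η, hp, h1, h2, h3, h4⟩ := exists_law hα
  have hev := ev_mp η 0
  have hpow : ∀ x : ℝ, exp x ^ α = exp (α * x) := fun x => by rw [← exp_mul, mul_comm]
  have hae : ∀ s : Set ℝ, s.Countable → ¬ ∀ᵐ w ∂(Pm η), w 0 ∈ s := fun s hs h => by
    apply h3 s hs
    rw [← hev.map_eq]
    exact (ae_map_iff (p := fun ξ => ξ ∈ s) hev.measurable.aemeasurable hs.measurableSet).2 h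
  refine ⟨ℕ → ℝ, inferInstance, Pm η, fun i w => exp (w i), ⟨inferInstance, fun n => by fun_prop,
    (coord_indep η).comp (fun _ => exp) (fun _ => measurable_exp), fun n => ?_,
    ae_of_all _ fun w => exp_pos _, ?_, ?_, ?_⟩, ?_, ?_⟩
  · have : IdentDistrib (fun w : ℕ → ℝ => w n) (fun w : ℕ → ℝ => w 0) (Pm η) (Pm η) :=
      ⟨(measurable_pi_apply n).aemeasurable, (measurable_pi_apply 0).aemeasurable, by
        rw [(ev_mp η n).map_eq, hev.map_eq]⟩
    exact this.comp measurable_exp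
  · rintro ⟨c, hc⟩
    refine hae {log c} (countable_singleton _) ?_
    filter_upwards [hc] with w hw
    rw [mem_singleton_iff, ← hw, log_exp]
  · simp only [hpow]
    exact hev.integrable_comp_of_integrable h1
  · simp only [hpow]
    have h5 := integral_map (μ := Pm η) hev.measurable.aemeasurable
      (f := fun ξ => exp (α * ξ)) (by fun_prop)
    rw [hev.map_eq] at h5
    rw [← h5, h2]
  · rintro ⟨c, hc, h⟩
    refine hae (range fun k : ℤ => (k : ℝ) / c) (countable_range _) ?_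
    filter_upwards [h] with w ⟨k, hk⟩
    rw [log_exp] at hk
    exact ⟨k, by simp only; rw [← hk]; field_simp⟩
  · simp only [hpow, log_exp]
    intro h
    apply h4
    rw [← hev.map_eq, integrable_map_measure (by fun_prop) hev.measurable.aemeasurable]
    exact h

end Pool.Agent.H653Z.DH
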