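import Pool.Agent.H653Z.DH.Chain
import Pool.Agent.H653Z.DH.Defs

/-!
# The Lyapunov exponent is the mean of `log (1 + δ X)`
-/

open Set Filter Topology MeasureTheory ProbabilityTheory Real

namespace Pool.Agent.H653Z.DH

lemma prodM_succ (ε : ℝ) (z : ℕ → ℝ) (n : ℕ) (j : Fin 2) :
    prodM ε z (n + 1) 0 j = prodM ε z n 0 j + ε * prodM ε z n 1 j ∧
    prodM ε z (n + 1) 1 j = ε * z n * prodM ε z n 0 j + z n * prodM ε z n 1 j := by
  simp [prodM, Mat, Matrix.mul_apply, Fin.sum_univ_two]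

lemma prodM_nonneg {ε : ℝ} (hε : 0 ≤ ε) {z : ℕ → ℝ} (hz : ∀ i, 0 ≤ z i) (n : ℕ) (j : Fin 2) :
    0 ≤ prodM ε z n 0 j ∧ 0 ≤ prodM ε z n 1 j := by
  induction n with
  | zero =>
    simp only [prodM, Matrix.one_apply]
    constructor <;> split_ifs <;> norm_num
  | succ n ih =>
    obtain ⟨h1, h2⟩ := prodM_succ ε z n j
    obtain ⟨h3, h4⟩ := ih
    have := hz n
    rw [h1, h2]
    constructor <;> positivity

lemma prod_identity {ε : ℝ} (h0 : 0 < ε) (h1 : ε ≤ 1) (w : ℕ → ℝ) (n : ℕ) :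
    (prodM ε (fun i => exp (w i)) n 0 0 + prodM ε (fun i => exp (w i)) n 0 1) +
      ε * V (ε ^ 2) (X (ε ^ 2) (sh^[n] w)) *
      (prodM ε (fun i => exp (w i)) n 1 0 + prodM ε (fun i => exp (w i)) n 1 1) =
    exp (∑ k ∈ Finset.range n, log (1 + ε ^ 2 * X (ε ^ 2) (sh^[k] w))) *
      (1 + ε * V (ε ^ 2) (X (ε ^ 2) w)) := by
  have hδ0 : 0 < ε ^ 2 := by positivity
  have hδ1 : ε ^ 2 ≤ 1 := pow_le_one₀ h0.le h1
  induction n with
  | zero => simp [prodM]
  | succ n ih =>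
    obtain ⟨a1, a2⟩ := prodM_succ ε (fun i => exp (w i)) n 0
    obtain ⟨a3, a4⟩ := prodM_succ ε (fun i => exp (w i)) n 1
    have hx := X_nonneg hδ0.le (sh^[n] w)
    have hfix := X_fix hδ0 hδ1 (sh^[n] w)
    rw [sh_iter, zero_add, ← Function.iterate_succ_apply' sh n w] at hfix
    rw [Finset.sum_range_succ, exp_add, exp_log (by positivity),
      mul_right_comm (exp _) _ (1 + ε * V (ε ^ 2) (X (ε ^ 2) w)), ← ih, a1, a2, a3, a4]
    set x := X (ε ^ 2) (sh^[n] w)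
    have hV : V (ε ^ 2) x * (1 + ε ^ 2 * x) = 1 + x := by
      unfold V; field_simp
    simp only [Nat.succ_eq_add_one] at hfix
    set u := V (ε ^ 2) (X (ε ^ 2) (sh^[n + 1] w))
    set p00 := prodM ε (fun i => exp (w i)) n 0 0
    set p01 := prodM ε (fun i => exp (w i)) n 0 1
    set p10 := prodM ε (fun i => exp (w i)) n 1 0
    set p11 := prodM ε (fun i => exp (w i)) n 1 1
    linear_combination (-(ε ^ 2 * (p00 + p01)) - ε * (p10 + p11)) * hfix
      - ε * (p10 + p11) * hV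

lemma log_mnorm_bound {ε : ℝ} (h0 : 0 < ε) (h1 : ε ≤ 1) (w : ℕ → ℝ) (n : ℕ) :
    |log (mnorm (prodM ε (fun i => exp (w i)) n)) -
      ∑ k ∈ Finset.range n, log (1 + ε ^ 2 * X (ε ^ 2) (sh^[k] w))| ≤ log (2 / ε ^ 2) := by
  have hδ0 : 0 < ε ^ 2 := by positivity
  have hδ1 : ε ^ 2 ≤ 1 := pow_le_one₀ h0.le h1
  have hid := prod_identity h0 h1 w n
  obtain ⟨b1, b2⟩ := prodM_nonneg h0.le (z := fun i => exp (w i)) (fun i => (exp_pos _).le) n 0
  obtain ⟨b3, b4⟩ := prodM_nonneg h0.le (z := fun i => exp (w i)) (fun i => (exp_pos _).le) n 1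
  have hN : mnorm (prodM ε (fun i => exp (w i)) n) =
      (prodM ε (fun i => exp (w i)) n 0 0 + prodM ε (fun i => exp (w i)) n 0 1) +
      (prodM ε (fun i => exp (w i)) n 1 0 + prodM ε (fun i => exp (w i)) n 1 1) := by
    simp only [mnorm, Fin.sum_univ_two, abs_of_nonneg b1, abs_of_nonneg b2, abs_of_nonneg b3,
      abs_of_nonneg b4]
  rw [hN]
  set r0 := prodM ε (fun i => exp (w i)) n 0 0 + prodM ε (fun i => exp (w i)) n 0 1
  set r1 := prodM ε (fun i => exp (w i)) n 1 0 + prodM ε (fun i => exp (w i)) n 1 1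
  have hr0 : 0 ≤ r0 := add_nonneg b1 b3
  have hr1 : 0 ≤ r1 := add_nonneg b2 b4
  set s := ∑ k ∈ Finset.range n, log (1 + ε ^ 2 * X (ε ^ 2) (sh^[k] w))
  have c1 := one_le_V hδ0.le hδ1 (X_nonneg hδ0.le (sh^[n] w))
  have c2 := mul_V_le hδ0.le hδ1 (X_nonneg hδ0.le (sh^[n] w))
  have c3 := one_le_V hδ0.le hδ1 (X_nonneg hδ0.le w)
  have c4 := mul_V_le hδ0.le hδ1 (X_nonneg hδ0.le w)
  set a := V (ε ^ 2) (X (ε ^ 2) (sh^[n] w))
  set b := V (ε ^ 2) (X (ε ^ 2) w)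
  have he := exp_pos s
  -- lower bound
  have l1 : ε * exp s ≤ r0 + r1 := by
    have e1 : exp s ≤ exp s * (1 + ε * b) := le_mul_of_one_le_right he.le (by nlinarith)
    have e2 : ε * (r0 + ε * a * r1) ≤ r0 + r1 := by
      have : ε * (ε * a * r1) = (ε ^ 2 * a) * r1 := by ring
      nlinarith [mul_le_mul_of_nonneg_right c2 hr1, mul_le_mul_of_nonneg_right h1 hr0]
    nlinarith
  have l2 : ε ^ 2 * (r0 + r1) ≤ 2 * exp s := by
    have e1 : ε * (r0 + r1) ≤ r0 + ε * a * r1 := by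
      nlinarith [mul_le_mul_of_nonneg_right h1 hr0, mul_nonneg h0.le hr1,
        mul_le_mul_of_nonneg_right c1 (mul_nonneg h0.le hr1)]
    have e2 : ε * (1 + ε * b) ≤ 2 := by nlinarith
    have e3 : ε * (ε * (r0 + r1)) ≤ ε * (exp s * (1 + ε * b)) := by
      rw [← hid]; exact mul_le_mul_of_nonneg_left e1 h0.le
    nlinarith
  have hpos : 0 < r0 + r1 := lt_of_lt_of_le (by positivity) l1
  rw [abs_le]
  constructor
  · have e1 : exp s ≤ 2 / ε ^ 2 * (r0 + r1) := by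
      rw [div_mul_eq_mul_div, le_div_iff₀ hδ0]
      nlinarith [mul_le_mul_of_nonneg_left h1 (mul_pos h0 he).le]
    have e2 := log_le_log he e1
    rw [log_exp, log_mul (by positivity) hpos.ne'] at e2
    linarith
  · have e1 : r0 + r1 ≤ 2 / ε ^ 2 * exp s := by
      rw [div_mul_eq_mul_div, le_div_iff₀ hδ0]
      linarith
    have e2 := log_le_log hpos e1
    rw [log_mul (by positivity) he.ne', log_exp] at e2
    linarith

variable {η : Measure ℝ} [IsProbabilityMeasure η] {α : ℝ}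

/-- the Lyapunov exponent as a function of `δ = ε ^ 2` -/
noncomputable def Lam (η : Measure ℝ) (δ : ℝ) : ℝ := ∫ w, log (1 + exp (S δ w)) ∂(Pm η)

lemma exp_S {δ : ℝ} (h0 : 0 < δ) (h1 : δ ≤ 1) (w : ℕ → ℝ) : exp (S δ w) = δ * X δ w :=
  exp_log (mul_pos h0 (X_pos h0 h1 w))

lemma log_one_add_exp_bound (hα : 1 ≤ α) (s : ℝ) :
    |log (1 + exp s)| ≤ 1 * (1 + exp (α * s)) := by
  have h1 := exp_pos s
  rw [abs_of_nonneg (log_nonneg (by linarith)), one_mul]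
  have h2 := log_le_sub_one_of_pos (by positivity : 0 < 1 + exp s)
  have h3 := exp_le_one_add zero_le_one hα s
  rw [one_mul] at h3
  linarith

theorem lyap (h : Hyp η α) {ε : ℝ} (h0 : 0 < ε) (h1 : ε ≤ 1) :
    ∀ᵐ w ∂(Pm η), Tendsto (fun n : ℕ => log (mnorm (prodM ε (fun i => exp (w i)) n)) / n) atTop
      (𝓝 (Lam η (ε ^ 2))) := by
  have hδ0 : 0 < ε ^ 2 := by positivity
  have hδ1 : ε ^ 2 ≤ 1 := pow_le_one₀ h0.le h1
  have hm : Measurable fun s : ℝ => log (1 + exp s) := by fun_prop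
  have hi := (stat h hδ0 hδ1 hm (log_one_add_exp_bound h.one_le)).1
  filter_upwards [birkhoff (sh_ergodic η) _ (hm.comp (S_meas (ε ^ 2))) hi] with w hw
  have t0 : Tendsto (fun n : ℕ => log (2 / ε ^ 2) / (n : ℝ)) atTop (𝓝 0) :=
    tendsto_const_div_atTop_nhds_zero_nat _
  have t1 : Tendsto (fun n : ℕ => (log (mnorm (prodM ε (fun i => exp (w i)) n)) -
      ∑ k ∈ Finset.range n, log (1 + ε ^ 2 * X (ε ^ 2) (sh^[k] w))) / n) atTop (𝓝 0) := by
    refine squeeze_zero_norm (fun n => ?_) t0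
    rw [Real.norm_eq_abs, abs_div, Nat.abs_cast]
    exact div_le_div_of_nonneg_right (log_mnorm_bound h0 h1 w n) (Nat.cast_nonneg n)
  have t2 := t1.add hw
  rw [zero_add] at t2
  refine t2.congr fun n => ?_
  simp only [Function.comp, exp_S hδ0 hδ1]
  ring

end Pool.Agent.H653Z.DH
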