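import Pool.Agent.H653Z.DH.Poisson

/-!
# From the Poisson equation to the stationary chain
-/

open Set Filter Topology MeasureTheory ProbabilityTheory Real

namespace Pool.Agent.H653Z.DH

/-- `x / (1 + δ x)` -/
noncomputable def Vm (δ x : ℝ) : ℝ := x / (1 + δ * x)

lemma exp_S' {δ : ℝ} (h0 : 0 < δ) (h1 : δ ≤ 1) (w : ℕ → ℝ) : exp (S δ w) = δ * X δ w :=
  exp_log (mul_pos h0 (X_pos h0 h1 w))

lemma exp_Sh {δ : ℝ} (h0 : 0 < δ) (h1 : δ ≤ 1) (w : ℕ → ℝ) :
    exp (Sh δ w) = δ * V δ (X δ w) := by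
  have := one_le_V h0.le h1 (X_nonneg h0.le w)
  exact exp_log (by positivity)

lemma exp_tau_S {δ : ℝ} (h0 : 0 < δ) (h1 : δ ≤ 1) (w : ℕ → ℝ) :
    exp (tau (S δ w)) = δ * Vm δ (X δ w) := by
  rw [exp_tau, exp_S' h0 h1, Vm, mul_div_assoc]

lemma Vm_pos {δ x : ℝ} (h0 : 0 ≤ δ) (hx : 0 < x) : 0 < Vm δ x := by
  unfold Vm; positivity

lemma Vm_le_V {δ x : ℝ} (h0 : 0 ≤ δ) (hx : 0 ≤ x) : Vm δ x ≤ V δ x := by
  unfold Vm V; gcongr; linarith

lemma tau_S_le {δ : ℝ} (h0 : 0 < δ) (h1 : δ ≤ 1) (w : ℕ → ℝ) : tau (S δ w) ≤ Sh δ w := by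
  rw [← exp_le_exp, exp_tau_S h0 h1, exp_Sh h0 h1]
  exact mul_le_mul_of_nonneg_left (Vm_le_V h0.le (X_nonneg h0.le w)) h0.le

lemma exp_mul_of_eq {α s δ v : ℝ} (h0 : 0 ≤ δ) (hv : 0 ≤ v) (h : exp s = δ * v) :
    exp (α * s) = δ ^ α * v ^ α := by
  rw [mul_comm α, exp_mul, h, mul_rpow h0 hv]

lemma incr_le {α x : ℝ} (hα : 1 ≤ α) (hx : 0 ≤ x) :
    (1 + x) ^ α - x ^ α ≤ α * (1 + x) ^ (α - 1) := by
  have h1 : 0 < 1 + x := by positivity
  have h2 := one_add_mul_self_le_rpow_one_add (s := -(1 / (1 + x)))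
    (by rw [neg_le_neg_iff, div_le_one h1]; linarith) hα
  have h3 : 1 + -(1 / (1 + x)) = x / (1 + x) := by field_simp; ring
  rw [h3, div_rpow hx h1.le, le_div_iff₀ (by positivity)] at h2
  have h4 : (1 + x) ^ (α - 1) = (1 + x) ^ α / (1 + x) := rpow_sub_one h1.ne' α
  rw [h4]
  have h5 : (1 + α * -(1 / (1 + x))) * (1 + x) ^ α = (1 + x) ^ α - α * ((1 + x) ^ α / (1 + x)) := by
    ring
  linarith

lemma one_le_incr {α x : ℝ} (hα : 1 ≤ α) (hx : 0 ≤ x) : 1 ≤ (1 + x) ^ α - x ^ α := by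
  have := Real.add_rpow_le_rpow_add (a := 1) (b := x) zero_le_one hx hα
  rw [one_rpow] at this
  linarith

lemma V_incr_le {α δ x y : ℝ} (hα : 1 ≤ α) (h0 : 0 ≤ δ) (hx : 0 ≤ x) (hxy : x ≤ y) :
    V δ x ^ α - Vm δ x ^ α ≤ α * (1 + y) ^ (α - 1) := by
  have h1 : 1 ≤ (1 + δ * x) ^ α := one_le_rpow (by nlinarith) (by linarith)
  unfold V Vm
  rw [div_rpow (by positivity) (by positivity), div_rpow hx (by positivity), ← sub_div]
  have h2 := one_le_incr hα hx
  refine (div_le_self (by linarith) h1).trans ((incr_le hα hx).trans ?_)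
  gcongr

variable {η : Measure ℝ} [IsProbabilityMeasure η] {α : ℝ}

/-- the source constant -/
noncomputable def K (η : Measure ℝ) (α : ℝ) : ℝ := ∫ w, ((1 + X 0 w) ^ α - X 0 w ^ α) ∂(Pm η)

lemma Hyp.good (h : Hyp η α) : ∀ᵐ w ∂(Pm η), Good w :=
  (good_and_moment h (γ := α - 1 / 2) (by linarith [h.one_le]) (by linarith)).1

lemma Hyp.int_half (h : Hyp η α) : Integrable (fun w => (1 + X 0 w) ^ (α - 1 / 2)) (Pm η) :=
  (good_and_moment h (γ := α - 1 / 2) (by linarith [h.one_le]) (by linarith)).2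

lemma Hyp.int_one (h : Hyp η α) : Integrable (fun w => (1 + X 0 w) ^ (α - 1)) (Pm η) := by
  refine Integrable.mono' h.int_half
    ((measurable_const.add (X_meas 0)).pow_const _).aestronglyMeasurable (ae_of_all _ fun w => ?_)
  have := X_nonneg le_rfl w
  rw [Real.norm_eq_abs, abs_of_nonneg (by positivity)]
  exact rpow_le_rpow_of_exponent_le (by linarith) (by linarith)

lemma Hyp.K_pos (h : Hyp η α) : 0 < K η α := by
  have hi : Integrable (fun w => (1 + X 0 w) ^ α - X 0 w ^ α) (Pm η) := by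
    refine Integrable.mono' (h.int_one.const_mul α)
      (((measurable_const.add (X_meas 0)).pow_const _).sub
        ((X_meas 0).pow_const _)).aestronglyMeasurable (ae_of_all _ fun w => ?_)
    have := X_nonneg le_rfl w
    rw [Real.norm_eq_abs, abs_of_nonneg (by linarith [one_le_incr h.one_le this])]
    exact incr_le h.one_le this
  have := integral_mono (integrable_const (1 : ℝ)) hi fun w =>
    one_le_incr h.one_le (X_nonneg le_rfl w)
  simp only [integral_const, probReal_univ, smul_eq_mul, mul_one] at this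
  exact lt_of_lt_of_le one_pos this

lemma V_tendsto {w : ℕ → ℝ} (hw : Good w) :
    Tendsto (fun δ => V δ (X δ w)) (𝓝[>] 0) (𝓝 (1 + X 0 w)) := by
  have t0 : Tendsto (fun δ : ℝ => δ) (𝓝[>] 0) (𝓝 0) := tendsto_id.mono_left nhdsWithin_le_nhds
  have := ((X_tendsto hw).const_add 1).div ((t0.mul (X_tendsto hw)).const_add 1) (by simp)
  simpa [V, Pi.div_def] using this

lemma Vm_tendsto {w : ℕ → ℝ} (hw : Good w) :
    Tendsto (fun δ => Vm δ (X δ w)) (𝓝[>] 0) (𝓝 (X 0 w)) := by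
  have t0 : Tendsto (fun δ : ℝ => δ) (𝓝[>] 0) (𝓝 0) := tendsto_id.mono_left nhdsWithin_le_nhds
  have := (X_tendsto hw).div ((t0.mul (X_tendsto hw)).const_add 1) (by simp)
  simpa [Vm, Pi.div_def] using this

lemma Sh_tendsto {w : ℕ → ℝ} (hw : Good w) : Tendsto (fun δ => Sh δ w) (𝓝[>] 0) atBot := by
  have t0 : Tendsto (fun δ : ℝ => δ) (𝓝[>] 0) (𝓝 0) := tendsto_id.mono_left nhdsWithin_le_nhds
  have t1 := t0.mul (V_tendsto hw)
  rw [zero_mul] at t1
  refine tendsto_log_nhdsGT_zero.comp (tendsto_nhdsWithin_iff.2 ⟨t1, ?_⟩)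
  filter_upwards [Ioc_mem_nhdsGT (zero_lt_one' ℝ)] with δ hδ
  have := one_le_V hδ.1.le hδ.2 (X_nonneg hδ.1.le w)
  exact mul_pos hδ.1 (by linarith)

namespace Sol

variable {r φ : ℝ → ℝ} {B : ℝ}

lemma chain (h : Hyp η α) (hs : Sol η α r φ B) {δ : ℝ} (h0 : 0 < δ) (h1 : δ ≤ 1) :
    Integrable (fun w => r (S δ w)) (Pm η) ∧
    ∫ w, r (S δ w) ∂(Pm η) = ∫ w, (A η φ (Sh δ w) - A η φ (tau (S δ w))) ∂(Pm η) := by
  have hB := hs.B_nonneg
  obtain ⟨a1, a2, a3⟩ := stat h h0 h1 hs.mono.measurable (C := B) (fun s => by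
    rw [abs_of_nonneg (hs.nonneg s)]
    nlinarith [hs.le s])
  have a4 : Integrable (fun w => A η φ (tau (S δ w))) (Pm η) := by
    refine Integrable.mono' (integrable_const B) ((hs.A_monotone h).measurable.comp
      (tau_meas.comp (S_meas δ))).aestronglyMeasurable (ae_of_all _ fun w => ?_)
    rw [Real.norm_eq_abs, abs_of_nonneg (A_nonneg hs.nonneg _)]
    refine (hs.A_le h _).trans (mul_le_of_le_one_right hB (exp_le_one_iff.2 ?_))
    exact mul_nonpos_of_nonneg_of_nonpos h.pos.le (tau_nonpos _)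
  have e : ∀ w, r (S δ w) = φ (S δ w) - A η φ (tau (S δ w)) := fun w => by
    rw [hs.eq (S δ w)]; ring
  simp only [e]
  refine ⟨a1.sub a4, ?_⟩
  rw [integral_sub a1 a4, a3]
  exact (integral_sub a2 a4).symm

theorem transfer (h : Hyp η α) (hs : Sol η α r φ B) {c : ℝ}
    (hG : Tendsto (fun s => exp (-(α * s)) * A η φ s) atBot (𝓝 c)) :
    Tendsto (fun δ => (∫ w, r (S δ w) ∂(Pm η)) / δ ^ α) (𝓝[>] 0) (𝓝 (c * K η α)) := by
  have hB := hs.B_nonneg
  have hmA := (hs.A_monotone h).measurable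
  have := tendsto_integral_filter_of_dominated_convergence (μ := Pm η) (l := 𝓝[>] (0 : ℝ))
    (F := fun δ w => (A η φ (Sh δ w) - A η φ (tau (S δ w))) / δ ^ α)
    (f := fun w => c * ((1 + X 0 w) ^ α - X 0 w ^ α))
    (fun w => B * (α * (1 + X 0 w) ^ (α - 1))) (Eventually.of_forall fun δ =>
      (((hmA.comp (Sh_meas δ)).sub (hmA.comp (tau_meas.comp (S_meas δ)))).div_const
        _).aestronglyMeasurable) ?_ ((h.int_one.const_mul α).const_mul B) ?_
  · rw [integral_const_mul] at this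
    refine this.congr' ?_
    filter_upwards [Ioc_mem_nhdsGT (zero_lt_one' ℝ)] with δ hδ
    rw [(hs.chain h hδ.1 hδ.2).2, integral_div]
  · filter_upwards [Ioc_mem_nhdsGT (zero_lt_one' ℝ)] with δ hδ
    filter_upwards [h.good] with w hw
    have hx := X_pos hδ.1 hδ.2 w
    have hδα : 0 < δ ^ α := rpow_pos_of_pos hδ.1 α
    have b1 := hs.A_monotone h (tau_S_le hδ.1 hδ.2 w)
    have b2 := hs.A_incr h (tau_S_le hδ.1 hδ.2 w)
    rw [exp_mul_of_eq hδ.1.le (by linarith [one_le_V hδ.1.le hδ.2 hx.le]) (exp_Sh hδ.1 hδ.2 w),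
      exp_mul_of_eq hδ.1.le (Vm_pos hδ.1.le hx).le (exp_tau_S hδ.1 hδ.2 w)] at b2
    have b3 := V_incr_le h.one_le hδ.1.le hx.le (X_le_zero hδ.1.le hw)
    rw [Real.norm_eq_abs, abs_of_nonneg (div_nonneg (sub_nonneg.2 b1) hδα.le), div_le_iff₀ hδα]
    have b4 := mul_le_mul_of_nonneg_left b3 (mul_nonneg hB hδα.le)
    nlinarith
  · filter_upwards [h.good] with w hw
    have t1 := hG.comp (Sh_tendsto hw)
    have t2 : Tendsto (fun δ => tau (S δ w)) (𝓝[>] 0) atBot := by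
      refine tendsto_atBot_mono' _ ?_ (Sh_tendsto hw)
      filter_upwards [Ioc_mem_nhdsGT (zero_lt_one' ℝ)] with δ hδ
      exact tau_S_le hδ.1 hδ.2 w
    have t3 := hG.comp t2
    have t4 := (V_tendsto hw).rpow_const (p := α) (Or.inr h.pos.le)
    have t5 := (Vm_tendsto hw).rpow_const (p := α) (Or.inr h.pos.le)
    have t6 := (t4.mul t1).sub (t5.mul t3)
    rw [show (1 + X 0 w) ^ α * c - X 0 w ^ α * c = c * ((1 + X 0 w) ^ α - X 0 w ^ α) by ring] at t6
    refine t6.congr' ?_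
    filter_upwards [Ioc_mem_nhdsGT (zero_lt_one' ℝ)] with δ hδ
    have hx := X_pos hδ.1 hδ.2 w
    have hδα : 0 < δ ^ α := rpow_pos_of_pos hδ.1 α
    have hV : 0 < V δ (X δ w) := by linarith [one_le_V hδ.1.le hδ.2 hx.le]
    have hVm := Vm_pos hδ.1.le hx
    have c1 := rpow_pos_of_pos hV α
    have c2 := rpow_pos_of_pos hVm α
    simp only [Function.comp]
    rw [exp_neg, exp_neg, exp_mul_of_eq hδ.1.le hV.le (exp_Sh hδ.1 hδ.2 w),
      exp_mul_of_eq hδ.1.le hVm.le (exp_tau_S hδ.1 hδ.2 w)]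
    field_simp

end Sol

/-- `y ^ α - (y / (1 + y)) ^ α` in logarithmic coordinates -/
noncomputable def psi (α s : ℝ) : ℝ := exp (α * s) - exp (α * tau s)

omit [IsProbabilityMeasure η] in
lemma Hyp.sol_psi (h : Hyp η α) : Sol η α (psi α) (fun s => exp (α * s)) 1 := by
  refine ⟨fun a b hab => exp_le_exp.2 (mul_le_mul_of_nonneg_left hab h.pos.le),
    fun s => (exp_pos _).le, by simpa using monotone_const, fun s => by simp, fun s => ?_⟩
  rw [h.A_exp, psi]; ring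

lemma Hyp.psi_tendsto (h : Hyp η α) :
    Tendsto (fun δ => (∫ w, psi α (S δ w) ∂(Pm η)) / δ ^ α) (𝓝[>] 0) (𝓝 (K η α)) := by
  have := h.sol_psi.transfer h (c := 1) (by
    simp only [h.A_exp, ← exp_add]
    simp)
  simpa using this

end Pool.Agent.H653Z.DH
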