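import Pool.Agent.H653Z.DH.Cone
import Pool.Agent.H653Z.DH.Lyap
import Pool.Agent.H653Z.DH.Transfer

/-!
# The expansion of the Lyapunov exponent from the asymptotics of the remainders
-/

open Set Filter Topology MeasureTheory ProbabilityTheory Real Asymptotics

namespace Pool.Agent.H653Z.DH

/-- `y ^ d / (1 + y) ^ b` in logarithmic coordinates -/
noncomputable def wf (d b : ℕ) (s : ℝ) : ℝ := exp s ^ d / (1 + exp s) ^ b

/-- remainder of the Taylor expansion of `log (1 + y)`, with the sign that makes it positive -/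
noncomputable def Rm : ℕ → ℝ → ℝ
  | 0, s => log (1 + exp s)
  | m + 1, s => exp s ^ (m + 1) / (m + 1) - Rm m s

lemma wf_meas (d b : ℕ) : Measurable (wf d b) := by unfold wf; fun_prop

lemma wf_pos (d b : ℕ) (s : ℝ) : 0 < wf d b s := by unfold wf; positivity

lemma wf_le (d b : ℕ) (s : ℝ) : wf d b s ≤ exp s ^ d :=
  div_le_self (by positivity) (one_le_pow₀ (by linarith [exp_pos s]))

lemma wf_succ_le (d b : ℕ) (s : ℝ) : wf (d + 1) (b + 1) s ≤ exp s ^ d := by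
  refine le_trans ?_ (wf_le d b s)
  unfold wf
  have := exp_pos s
  rw [div_le_div_iff₀ (by positivity) (by positivity), pow_succ, pow_succ]
  have h1 : 0 ≤ exp s ^ d * (1 + exp s) ^ b := by positivity
  nlinarith

lemma wf_rec (d b : ℕ) (s : ℝ) : wf d (b + 1) s = wf d b s - wf (d + 1) (b + 1) s := by
  unfold wf
  have := exp_pos s
  field_simp
  ring

lemma Rm_meas (m : ℕ) : Measurable (Rm m) := by
  induction m with
  | zero => show Measurable fun s => log (1 + exp s); fun_prop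
  | succ m ih =>
    show Measurable fun s => exp s ^ (m + 1) / (m + 1) - Rm m s
    exact (by fun_prop : Measurable fun s => exp s ^ (m + 1) / ((m : ℝ) + 1)).sub ih

lemma log_eq (m : ℕ) (s : ℝ) : log (1 + exp s) =
    - ∑ k ∈ Finset.Icc 1 m, (1 / (k : ℝ)) * ((-1) ^ k * wf k 0 s) + (-1) ^ m * Rm m s := by
  induction m with
  | zero => simp [Rm]
  | succ m ih =>
    rw [Finset.sum_Icc_succ_top (by omega), ih]
    simp only [Rm, wf]
    push_cast
    ring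

lemma pow_le_one_add {α : ℝ} {d : ℕ} (hd : (d : ℝ) ≤ α) (s : ℝ) :
    exp s ^ d ≤ 1 * (1 + exp (α * s)) := by
  rw [← exp_nat_mul, one_mul]
  exact exp_le_one_add (Nat.cast_nonneg d) hd s

variable {η : Measure ℝ} [IsProbabilityMeasure η] {α : ℝ}

/-- mixed moments -/
noncomputable def W (η : Measure ℝ) (d b : ℕ) (δ : ℝ) : ℝ := ∫ w, wf d b (S δ w) ∂(Pm η)

lemma Hyp.int_wf (h : Hyp η α) {δ : ℝ} (h0 : 0 < δ) (h1 : δ ≤ 1) {d : ℕ} (hd : (d : ℝ) ≤ α)
    (b : ℕ) : Integrable (fun w => wf d b (S δ w)) (Pm η) :=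
  (stat h h0 h1 (wf_meas d b) (C := 1) fun s => by
    rw [abs_of_pos (wf_pos d b s)]; exact (wf_le d b s).trans (pow_le_one_add hd s)).1

lemma Hyp.int_wf' (h : Hyp η α) {δ : ℝ} (h0 : 0 < δ) (h1 : δ ≤ 1) {d : ℕ} (hd : (d : ℝ) ≤ α)
    (b : ℕ) : Integrable (fun w => wf (d + 1) (b + 1) (S δ w)) (Pm η) :=
  (stat h h0 h1 (wf_meas _ _) (C := 1) fun s => by
    rw [abs_of_pos (wf_pos _ _ s)]; exact (wf_succ_le d b s).trans (pow_le_one_add hd s)).1

lemma Hyp.int_Rm (h : Hyp η α) {δ : ℝ} (h0 : 0 < δ) (h1 : δ ≤ 1) {m : ℕ} (hm : (m : ℝ) ≤ α) :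
    Integrable (fun w => Rm m (S δ w)) (Pm η) := by
  induction m with
  | zero => exact (stat h h0 h1 (Rm_meas 0) (log_one_add_exp_bound h.one_le)).1
  | succ m ih =>
    have a1 := (h.int_wf h0 h1 hm 0).div_const ((m : ℝ) + 1)
    have a2 := ih (by push_cast at hm; linarith)
    refine (a1.sub a2).congr (ae_of_all _ fun w => ?_)
    simp [Rm, wf]

lemma Hyp.int_exp_S (h : Hyp η α) {δ : ℝ} (h0 : 0 < δ) (h1 : δ ≤ 1) :
    Integrable (fun w => exp (α * S δ w)) (Pm η) ∧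
    Integrable (fun w => exp (α * Sh δ w)) (Pm η) ∧
    ∫ w, exp (α * S δ w) ∂(Pm η) = ∫ w, exp (α * Sh δ w) ∂(Pm η) := by
  have := stat h h0 h1 (φ := fun s => exp (α * s)) (by fun_prop) (C := 1) fun s => by
    rw [abs_of_pos (exp_pos _)]; linarith
  have e : ∀ s, ∫ ξ, exp (α * (s + ξ)) ∂η = exp (α * s) := h.A_exp
  simpa only [e] using this

lemma Hyp.W_bd (h : Hyp η α) {δ : ℝ} (h0 : 0 < δ) (h1 : δ ≤ 1) {d : ℕ} (hd : (d : ℝ) ≤ α)
    (b : ℕ) : |W η d b δ| ≤ 2 := by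
  obtain ⟨a1, a2, a3⟩ := h.int_exp_S h0 h1
  have a0 : 0 ≤ W η d b δ := integral_nonneg fun w => (wf_pos d b _).le
  rw [abs_of_nonneg a0]
  have a4 : ∫ w, exp (α * Sh δ w) ∂(Pm η) ≤ ∫ _w, (1 : ℝ) ∂(Pm η) :=
    integral_mono a2 (integrable_const _) fun w => exp_le_one_iff.2
      (mul_nonpos_of_nonneg_of_nonpos h.pos.le (Sh_nonpos h0 h1 w))
  have a5 : W η d b δ ≤ ∫ w, (1 + exp (α * S δ w)) ∂(Pm η) :=
    integral_mono (h.int_wf h0 h1 hd b) ((integrable_const _).add a1) fun w => by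
      simpa using (wf_le d b _).trans (pow_le_one_add hd (S δ w))
  rw [integral_add (integrable_const _) a1, a3] at a5
  simp only [integral_const, probReal_univ, smul_eq_mul, mul_one] at a4 a5
  linarith

lemma exp_Sh' {δ : ℝ} (h0 : 0 < δ) (h1 : δ ≤ 1) (w : ℕ → ℝ) :
    exp (Sh δ w) = (exp (S δ w) + δ) / (1 + exp (S δ w)) := by
  rw [exp_Sh h0 h1, exp_S h0 h1, V]
  ring

lemma Hyp.sys (h : Hyp η α) {m : ℕ} (hm : (m : ℝ) < α) :
    Sys m (fun d b δ => (-1) ^ d * W η d b δ) (fun d => mom η d) := by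
  have hle : ∀ d ≤ m, (d : ℝ) ≤ α := fun d hd => le_trans (by exact_mod_cast hd) hm.le
  refine ⟨fun d hd b => ?_, fun d _ hd => ?_, ?_, fun d _ hd => h.mom_pos (Nat.cast_nonneg d)
    (hle d hd), fun d h1 hd => h.mom_lt_one (by exact_mod_cast h1)
      (lt_of_le_of_lt (by exact_mod_cast hd) hm)⟩
  · filter_upwards [Ioc_mem_nhdsGT (zero_lt_one' ℝ)] with δ hδ
    simp only [W, wf_rec d b]
    rw [integral_sub (h.int_wf hδ.1 hδ.2 (hle d hd) b) (h.int_wf' hδ.1 hδ.2 (hle d hd) b)]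
    ring
  · filter_upwards [Ioc_mem_nhdsGT (zero_lt_one' ℝ)] with δ hδ
    obtain ⟨_, _, a3⟩ := stat h hδ.1 hδ.2 (wf_meas d 0) (C := 1) fun s => by
      rw [abs_of_pos (wf_pos d 0 s)]; exact (wf_le d 0 s).trans (pow_le_one_add (hle d hd) s)
    have e : ∀ w, ∫ ξ, wf d 0 (Sh δ w + ξ) ∂η = mom η d *
        ∑ j ∈ Finset.range (d + 1), (d.choose j : ℝ) * δ ^ (d - j) * wf j d (S δ w) := by
      intro w
      have e1 : ∀ ξ, wf d 0 (Sh δ w + ξ) = exp (Sh δ w) ^ d * exp (d * ξ) := fun ξ => by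
        simp only [wf, pow_zero, div_one, exp_add, mul_pow, exp_nat_mul]
      simp only [e1]
      rw [integral_const_mul, mul_comm, exp_Sh' hδ.1 hδ.2, div_pow, add_pow, Finset.sum_div]
      unfold mom
      congr 1
      refine Finset.sum_congr rfl fun j _ => ?_
      unfold wf
      ring
    simp only [e] at a3
    rw [integral_const_mul, integral_finsetSum _ fun j hj => (h.int_wf hδ.1 hδ.2
      (hle j (by have := Finset.mem_range.1 hj; omega)) d).const_mul _] at a3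
    simp only [integral_const_mul] at a3
    unfold W
    rw [a3, mul_left_comm, Finset.mul_sum]
    congr 1
    refine Finset.sum_congr rfl fun j hj => ?_
    have hj' : j ≤ d := by have := Finset.mem_range.1 hj; omega
    obtain ⟨i, rfl⟩ := Nat.exists_eq_add_of_le hj'
    rw [Nat.add_sub_cancel_left, neg_pow δ i, pow_add]
    ring
  · refine Eventually.of_forall fun δ => ?_
    simp [W, wf]

lemma Hyp.Lam_tendsto (h : Hyp η α) : Tendsto (Lam η) (𝓝[>] 0) (𝓝 0) := by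
  have hm : Measurable fun s : ℝ => log (1 + exp s) := by fun_prop
  have := tendsto_integral_filter_of_dominated_convergence (μ := Pm η) (l := 𝓝[>] (0 : ℝ))
    (F := fun δ w => log (1 + exp (S δ w))) (f := fun _ => (0 : ℝ))
    (fun w => 2 * (1 + X 0 w) ^ (α - 1 / 2)) (Eventually.of_forall fun δ =>
      (hm.comp (S_meas δ)).aestronglyMeasurable) ?_ (h.int_half.const_mul 2) ?_
  · rw [integral_zero] at this
    exact this
  · filter_upwards [Ioc_mem_nhdsGT (zero_lt_one' ℝ)] with δ hδ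
    filter_upwards [h.good] with w hw
    have hx := X_pos hδ.1 hδ.2 w
    have hx0 := X_le_zero hδ.1.le hw
    rw [Real.norm_eq_abs, abs_of_nonneg (log_nonneg (by linarith [exp_pos (S δ w)])),
      exp_S hδ.1 hδ.2]
    have a1 : log (1 + δ * X δ w) ≤ log (1 + X 0 w) :=
      log_le_log (by have := hδ.1; positivity) (by nlinarith [hδ.2])
    have a2 := log_le_rpow_div (x := 1 + X 0 w) (ε := 1 / 2) (by linarith) (by norm_num)
    have a3 : (1 + X 0 w) ^ (1 / 2 : ℝ) ≤ (1 + X 0 w) ^ (α - 1 / 2) :=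
      rpow_le_rpow_of_exponent_le (by linarith) (by linarith [h.one_le])
    linarith
  · filter_upwards [h.good] with w hw
    have t0 : Tendsto (fun δ : ℝ => δ) (𝓝[>] 0) (𝓝 0) := tendsto_id.mono_left nhdsWithin_le_nhds
    have t1 := ((t0.mul (X_tendsto hw)).const_add 1).log (by simp)
    simp only [zero_mul, add_zero, log_one] at t1
    refine t1.congr' ?_
    filter_upwards [Ioc_mem_nhdsGT (zero_lt_one' ℝ)] with δ hδ
    rw [exp_S hδ.1 hδ.2]

theorem Hyp.expansion (h : Hyp η α) {m : ℕ} (hm : (m : ℝ) < α) {σ : ℝ → ℝ} {z c0 : ℝ}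
    (hσ1 : (fun δ : ℝ => δ ^ (m + 1)) =o[𝓝[>] 0] σ)
    (hσ2 : σ =O[𝓝[>] 0] fun δ : ℝ => δ ^ m) (hσ0 : Tendsto σ (𝓝[>] 0) (𝓝 0))
    (htop : ∀ b, 1 ≤ b → b ≤ m → ∃ c : ℝ, 0 ≤ c ∧
      (fun δ => W η (m + 1) b δ - z * c * σ δ) =o[𝓝[>] 0] σ)
    (hR : (fun δ => ∫ w, Rm m (S δ w) ∂(Pm η) - c0 * σ δ) =o[𝓝[>] 0] σ) :
    ∃ ℓ : ℕ → ℝ, (∀ k, 1 ≤ k → k ≤ m → 0 < ℓ k) ∧ ∃ c : ℝ, 0 ≤ c ∧
      (fun δ => Lam η δ - ∑ k ∈ Finset.Icc 1 m, (-1) ^ (k + 1) * ℓ k * δ ^ k -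
        (-1) ^ m * (z * c + c0) * σ δ) =o[𝓝[>] 0] σ := by
  have hle : ∀ d ≤ m, (d : ℝ) ≤ α := fun d hd => le_trans (by exact_mod_cast hd) hm.le
  refine (h.sys hm).expansion hσ1 hσ2 hσ0 (fun d hd b => ?_) (fun b h1 h2 => ?_) h.Lam_tendsto
    ?_ hR
  · refine IsBigO.of_bound 2 ?_
    filter_upwards [Ioc_mem_nhdsGT (zero_lt_one' ℝ)] with δ hδ
    simpa using h.W_bd hδ.1 hδ.2 (hle d hd) b
  · obtain ⟨c, hc, h3⟩ := htop b h1 h2
    refine ⟨0, by simp, c, hc, (h3.const_mul_left ((-1) ^ (m + 1))).congr_left fun δ => ?_⟩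
    simp only [Polynomial.eval_zero]
    ring
  · filter_upwards [Ioc_mem_nhdsGT (zero_lt_one' ℝ)] with δ hδ
    have i1 : ∀ k ∈ Finset.Icc 1 m, Integrable
        (fun w => (1 / (k : ℝ)) * ((-1) ^ k * wf k 0 (S δ w))) (Pm η) := fun k hk =>
      ((h.int_wf hδ.1 hδ.2 (hle k (Finset.mem_Icc.1 hk).2) 0).const_mul _).const_mul _
    have i2 : Integrable (fun w => - ∑ k ∈ Finset.Icc 1 m,
        (1 / (k : ℝ)) * ((-1) ^ k * wf k 0 (S δ w))) (Pm η) := (integrable_finsetSum _ i1).neg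
    unfold Lam
    simp only [log_eq m]
    rw [integral_add i2 ((h.int_Rm hδ.1 hδ.2 hm.le).const_mul _), integral_neg,
      integral_finsetSum _ i1]
    simp only [integral_const_mul, W]

end Pool.Agent.H653Z.DH
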