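import Pool.Agent.H653Z.DH.Int

/-!
# The integer case
-/

open Set Filter Topology MeasureTheory ProbabilityTheory Real Asymptotics

namespace Pool.Agent.H653Z.DH

variable {η : Measure ℝ} [IsProbabilityMeasure η] {α : ℝ}

lemma Hyp.rem_int (h : Hyp η α) {κ : ℝ} (hκ : Tendsto (Dn η α) (𝓝[>] 0) (𝓝 κ)) {g : ℝ → ℝ}
    (hg : Measurable g) {a : ℝ} (h1 : ∀ s, 0 ≤ a * exp (α * s) - g s)
    (h2 : ∀ s, a * exp (α * s) - g s ≤ psi α s) :
    (fun δ => ∫ w, g (S δ w) ∂(Pm η) - a * κ * (δ ^ α * log (1 / δ))) =o[𝓝[>] 0]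
      fun δ => δ ^ α * log (1 / δ) := by
  have hl := log_one_div_tendsto.eventually (eventually_gt_atTop 0)
  have t1 : Tendsto (fun δ => (∫ w, (a * exp (α * S δ w) - g (S δ w)) ∂(Pm η)) / δ ^ α /
      log (1 / δ)) (𝓝[>] 0) (𝓝 0) := by
    refine squeeze_zero' ?_ ?_ (h.psi_tendsto.div_atTop log_one_div_tendsto)
    · filter_upwards [hl, Ioc_mem_nhdsGT (zero_lt_one' ℝ)] with δ h3 hδ
      exact div_nonneg (div_nonneg (integral_nonneg fun w => h1 _) (rpow_nonneg hδ.1.le _)) h3.le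
    · filter_upwards [hl, Ioc_mem_nhdsGT (zero_lt_one' ℝ)] with δ h3 hδ
      have := integral_mono_of_nonneg (ae_of_all _ fun w => h1 (S δ w))
        (h.sol_psi.chain h hδ.1 hδ.2).1 (ae_of_all _ fun w => h2 (S δ w))
      have hδα : 0 < δ ^ α := rpow_pos_of_pos hδ.1 α
      gcongr
  refine (isLittleO_iff_tendsto' ?_).2 ?_
  · filter_upwards [hl, Ioc_mem_nhdsGT (zero_lt_one' ℝ)] with δ h3 hδ h4
    exact absurd h4 (mul_pos (rpow_pos_of_pos hδ.1 α) h3).ne'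
  · have t2 := ((hκ.const_mul a).sub t1).sub_const (a * κ)
    simp only [sub_zero, sub_self] at t2
    refine t2.congr' ?_
    filter_upwards [hl, Ioc_mem_nhdsGT (zero_lt_one' ℝ)] with δ h3 hδ
    have hδα : 0 < δ ^ α := rpow_pos_of_pos hδ.1 α
    have i1 := (h.int_exp_S hδ.1 hδ.2).1
    have i2 : Integrable (fun w => a * exp (α * S δ w) - g (S δ w)) (Pm η) := by
      refine Integrable.mono' (h.sol_psi.chain h hδ.1 hδ.2).1
        (((measurable_const.mul (measurable_const.mul (S_meas δ)).exp).sub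
          (hg.comp (S_meas δ))).aestronglyMeasurable) (ae_of_all _ fun w => ?_)
      rw [Real.norm_eq_abs, abs_of_nonneg (h1 _)]
      exact h2 _
    have i3 : Integrable (fun w => g (S δ w)) (Pm η) :=
      ((i1.const_mul a).sub i2).congr (ae_of_all _ fun w => by simp)
    rw [integral_sub (i1.const_mul a) i3, integral_const_mul, Dn]
    field_simp
    ring

theorem Hyp.q2 {m : ℕ} (h : Hyp η ((m : ℝ) + 1)) :
    ∃ ℓ : ℕ → ℝ, (∀ k, 1 ≤ k → k ≤ m → 0 < ℓ k) ∧ ∃ C : ℝ, 0 ≤ C ∧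
      (0 < C ↔ Integrable (fun ξ => exp (((m : ℝ) + 1) * ξ) * ξ) η) ∧
      (fun δ => Lam η δ - ∑ k ∈ Finset.Icc 1 m, (-1) ^ (k + 1) * ℓ k * δ ^ k -
        (-1) ^ m * C * (δ ^ (m + 1) * log (1 / δ))) =o[𝓝[>] 0]
        fun δ => δ ^ (m + 1) * log (1 / δ) := by
  obtain ⟨κ, hκ0, hκ1, hκ⟩ : ∃ κ : ℝ, 0 ≤ κ ∧
      (0 < κ ↔ Integrable (fun ξ => exp (((m : ℝ) + 1) * ξ) * ξ) η) ∧
      Tendsto (Dn η ((m : ℝ) + 1)) (𝓝[>] 0) (𝓝 κ) := by
    by_cases hi : Integrable (fun ξ => exp (((m : ℝ) + 1) * ξ) * ξ) η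
    · have := div_pos h.K_pos (h.mu1_pos hi)
      exact ⟨_, this.le, ⟨fun _ => hi, fun _ => this⟩, h.Dn_fin hi⟩
    · exact ⟨0, le_rfl, ⟨fun h0 => absurd h0 (lt_irrefl _), fun h0 => absurd h0 hi⟩, h.Dn_inf hi⟩
  have hpow : ∀ δ : ℝ, δ ^ ((m : ℝ) + 1) = δ ^ (m + 1) := fun δ => by
    rw [← rpow_natCast]; push_cast; rfl
  have hexp : ∀ s : ℝ, exp (((m : ℝ) + 1) * s) = exp s ^ (m + 1) := fun s => by
    rw [← exp_nat_mul]; push_cast; rfl
  have hpsi : ∀ s, psi ((m : ℝ) + 1) s = exp s ^ (m + 1) - wf (m + 1) (m + 1) s := fun s => by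
    rw [psi, hexp, hexp, exp_tau, div_pow, wf]
  have hσ1 : (fun δ : ℝ => δ ^ (m + 1)) =o[𝓝[>] 0] fun δ => δ ^ (m + 1) * log (1 / δ) := by
    have h1 : (fun _ : ℝ => (1 : ℝ)) =o[𝓝[>] 0] fun δ => log (1 / δ) :=
      (isLittleO_one_left_iff ℝ).2 (tendsto_norm_atTop_atTop.comp log_one_div_tendsto)
    simpa using (isBigO_refl (fun δ : ℝ => δ ^ (m + 1)) _).mul_isLittleO h1
  have t0 : Tendsto (fun δ : ℝ => δ * log (1 / δ)) (𝓝[>] 0) (𝓝 0) := by
    have := (continuous_mul_log.tendsto 0).neg.mono_left (nhdsWithin_le_nhds (s := Ioi 0))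
    simpa using this
  have hσ2 : (fun δ : ℝ => δ ^ (m + 1) * log (1 / δ)) =O[𝓝[>] 0] fun δ => δ ^ m := by
    have := (isBigO_refl (fun δ : ℝ => δ ^ m) _).mul (t0.isBigO_one ℝ)
    refine this.congr (fun δ => by ring) (fun δ => by ring)
  have hσ0 : Tendsto (fun δ : ℝ => δ ^ (m + 1) * log (1 / δ)) (𝓝[>] 0) (𝓝 0) := by
    have t1 : Tendsto (fun δ : ℝ => δ) (𝓝[>] 0) (𝓝 0) := tendsto_id.mono_left nhdsWithin_le_nhds
    have := (t1.pow m).mul t0
    rw [mul_zero] at this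
    exact this.congr fun δ => by ring
  have hm1 : (0 : ℝ) < m + 1 := by positivity
  obtain ⟨ℓ, hℓ, c, hc, hfin⟩ := h.expansion (m := m) (by linarith) (z := κ)
    (c0 := 1 / ((m : ℝ) + 1) * κ) hσ1 hσ2 hσ0 (fun b _ hb => ⟨1, zero_le_one, by
      have := h.rem_int hκ (wf_meas (m + 1) b) (a := 1) (fun s => by
        rw [hexp]; linarith [wf_le (m + 1) b s]) (fun s => by
        rw [hexp, hpsi]
        have : wf (m + 1) (m + 1) s ≤ wf (m + 1) b s := by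
          unfold wf
          gcongr
          · linarith [exp_pos s]
          · omega
        linarith)
      simpa only [hpow, one_mul, mul_one, W] using this⟩) (by
      have e : ∀ s, 1 / ((m : ℝ) + 1) * exp (((m : ℝ) + 1) * s) - Rm m s = Rm (m + 1) s := by
        intro s
        rw [hexp]; simp only [Rm]; ring
      have := h.rem_int hκ (Rm_meas m) (a := 1 / ((m : ℝ) + 1)) (fun s => by
        rw [e]; exact Rm_nonneg _ s) (fun s => by
        rw [e]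
        refine (Rm_le_wf (by omega) s).trans (le_trans (le_of_eq ?_) (psi_ge h.one_le s))
        rw [hexp, exp_tau, wf]; ring)
      simpa only [hpow] using this)
  refine ⟨ℓ, hℓ, κ * c + 1 / ((m : ℝ) + 1) * κ, by positivity, ?_, hfin⟩
  rw [← hκ1]
  have : 0 < c + 1 / ((m : ℝ) + 1) := by positivity
  rw [show κ * c + 1 / ((m : ℝ) + 1) * κ = κ * (c + 1 / ((m : ℝ) + 1)) by ring]
  exact mul_pos_iff_of_pos_right this

end Pool.Agent.H653Z.DH
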