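import Pool.Agent.H653Z.DH.Q1
import Pool.Agent.H653Z.DH.Q2
import Pool.Agent.H653Z.DH.Example

/-!
# Transfer to an arbitrary probability space, and uniqueness of the singular coefficient
-/

open Set Filter Topology MeasureTheory ProbabilityTheory Real Asymptotics

namespace Pool.Agent.H653Z.DH

lemma sq_tendsto : Tendsto (fun ε : ℝ => ε ^ 2) (𝓝[>] 0) (𝓝[>] 0) := by
  refine tendsto_nhdsWithin_iff.2 ⟨?_, ?_⟩
  · have t1 : Tendsto (fun δ : ℝ => δ) (𝓝[>] 0) (𝓝 0) := tendsto_id.mono_left nhdsWithin_le_nhds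
    simpa using t1.pow 2
  · filter_upwards [self_mem_nhdsWithin] with ε hε
    exact pow_pos (mem_Ioi.1 hε) 2

lemma poly_zero (m : ℕ) (a : ℕ → ℝ)
    (h : (fun ε : ℝ => ∑ k ∈ Finset.range (m + 1), a k * ε ^ (2 * k)) =o[𝓝[>] 0]
      fun ε => ε ^ (2 * m)) : ∀ k ≤ m, a k = 0 := by
  have t0 : Tendsto (fun δ : ℝ => δ) (𝓝[>] 0) (𝓝 0) := tendsto_id.mono_left nhdsWithin_le_nhds
  induction m generalizing a with
  | zero =>
    intro k hk
    simp only [zero_add, Finset.range_one, Finset.sum_singleton, mul_zero, pow_zero, mul_one,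
      isLittleO_one_iff] at h
    rw [Nat.le_zero.1 hk]
    exact tendsto_nhds_unique tendsto_const_nhds h
  | succ m ih =>
    have h0 : a 0 = 0 := by
      have t1 := h.isBigO.trans_tendsto (by simpa using t0.pow (2 * (m + 1)))
      have t2 : Tendsto (fun ε : ℝ => ∑ k ∈ Finset.range (m + 1 + 1), a k * ε ^ (2 * k))
          (𝓝[>] 0) (𝓝 (∑ k ∈ Finset.range (m + 1 + 1), a k * 0 ^ (2 * k))) :=
        tendsto_finsetSum _ fun k _ => (t0.pow _).const_mul _
      rw [Finset.sum_range_succ'] at t2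
      have := tendsto_nhds_unique t2 t1
      simpa using this
    have h1 := ih (fun k => a (k + 1)) (by
      have h2 := h.mul_isBigO (isBigO_refl (fun ε : ℝ => (ε ^ 2)⁻¹) _)
      refine h2.congr' ?_ ?_
      · filter_upwards [self_mem_nhdsWithin] with ε hε
        have : (0 : ℝ) < ε := hε
        rw [Finset.sum_range_succ', h0, zero_mul, add_zero, Finset.sum_mul]
        refine Finset.sum_congr rfl fun k _ => ?_
        field_simp
        ring
      · filter_upwards [self_mem_nhdsWithin] with ε hε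
        have : (0 : ℝ) < ε := hε
        field_simp
        ring)
    intro k hk
    cases k with
    | zero => exact h0
    | succ k => exact h1 k (by omega)

lemma Expansion.unique {L : ℝ → ℝ} {m : ℕ} {ℓ ℓ' : ℕ → ℝ} {C C' : ℝ} {σ : ℝ → ℝ}
    (hσ : σ =o[𝓝[>] 0] fun ε => ε ^ (2 * m)) (hσ0 : ∀ᶠ ε in 𝓝[>] (0 : ℝ), σ ε ≠ 0)
    (h : Expansion L m ℓ C σ) (h' : Expansion L m ℓ' C' σ) :
    (∀ k, 1 ≤ k → k ≤ m → ℓ' k = ℓ k) ∧ C' = C := by
  have h1 := IsLittleO.sub h h'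
  set a : ℕ → ℝ := fun k => if k = 0 then 0 else (-1) ^ (k + 1) * (ℓ' k - ℓ k) with ha
  have e : ∀ ε : ℝ, ∑ k ∈ Finset.range (m + 1), a k * ε ^ (2 * k) =
      ∑ k ∈ Finset.Icc 1 m, (-1) ^ (k + 1) * ℓ' k * ε ^ (2 * k) -
      ∑ k ∈ Finset.Icc 1 m, (-1) ^ (k + 1) * ℓ k * ε ^ (2 * k) := by
    intro ε
    rw [Finset.range_eq_Ico, Finset.sum_eq_sum_Ico_succ_bot (by omega), ← Finset.sum_sub_distrib,
      zero_add, Finset.Ico_add_one_right_eq_Icc]
    simp only [ha, if_true, zero_mul, zero_add]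
    refine Finset.sum_congr rfl fun k hk => ?_
    rw [if_neg (by have := (Finset.mem_Icc.1 hk).1; omega)]
    ring
  have h2 := poly_zero m a (by
    refine ((h1.trans hσ).sub (hσ.const_mul_left ((-1) ^ m * (C' - C)))).congr_left fun ε => ?_
    rw [e]; ring)
  have h3 : ∀ k, 1 ≤ k → k ≤ m → ℓ' k = ℓ k := by
    intro k h1 hk
    have := h2 k hk
    simp only [ha, if_neg (show k ≠ 0 by omega)] at this
    rcases mul_eq_zero.1 this with h4 | h4
    · exact absurd h4 (pow_ne_zero _ (by norm_num))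
    · linarith
  refine ⟨h3, ?_⟩
  have h4 : (fun ε => (-1) ^ m * (C' - C) * σ ε) =o[𝓝[>] 0] σ := by
    refine h1.congr_left fun ε => ?_
    have := e ε
    rw [Finset.sum_eq_zero (fun k hk => by
      rw [h2 k (by have := Finset.mem_range.1 hk; omega), zero_mul])] at this
    linarith
  have h5 := h4.tendsto_div_nhds_zero
  have h6 : Tendsto (fun _ : ℝ => (-1) ^ m * (C' - C)) (𝓝[>] 0) (𝓝 0) := by
    refine h5.congr' ?_
    filter_upwards [hσ0] with ε hε
    field_simp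
  have h7 := tendsto_nhds_unique tendsto_const_nhds h6
  rcases mul_eq_zero.1 h7 with h8 | h8
  · exact absurd h8 (pow_ne_zero _ (by norm_num))
  · linarith

variable {Ω : Type} [MeasurableSpace Ω] {P : Measure Ω} {Z : ℕ → Ω → ℝ} {α : ℝ}

lemma Setting.rpow_eq (h : Setting P Z α) :
    ∀ᵐ ω ∂P, exp (α * log (Z 0 ω)) = Z 0 ω ^ α := by
  filter_upwards [h.pos] with ω hω
  rw [rpow_def_of_pos hω, mul_comm]

lemma Setting.hyp (h : Setting P Z α) (hα : 1 ≤ α) : Hyp (P.map fun ω => log (Z 0 ω)) α := by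
  have hm : Measurable fun ω => log (Z 0 ω) := (h.meas 0).log
  refine ⟨hα, ?_, ?_, fun h0 => h.nonconst ⟨1, ?_⟩⟩
  · rw [integrable_map_measure (by fun_prop) hm.aemeasurable]
    exact h.integrable.congr (EventuallyEq.symm h.rpow_eq)
  · rw [integral_map hm.aemeasurable (by fun_prop), ← h.mean]
    exact integral_congr_ae h.rpow_eq
  · filter_upwards [ae_of_ae_map hm.aemeasurable h0, h.pos] with ω h1 h2
    rw [← exp_log h2, h1, exp_zero]

lemma Setting.int_iff (h : Setting P Z α) :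
    Integrable (fun ξ => exp (α * ξ) * ξ) (P.map fun ω => log (Z 0 ω)) ↔
      Integrable (fun ω => Z 0 ω ^ α * log (Z 0 ω)) P := by
  have hm : Measurable fun ω => log (Z 0 ω) := (h.meas 0).log
  rw [integrable_map_measure (by fun_prop) hm.aemeasurable]
  refine integrable_congr ?_
  filter_upwards [h.rpow_eq] with ω hω
  simp only [Function.comp, hω]

lemma Setting.isLyapunov (h : Setting P Z α) (hα : 1 ≤ α) :
    IsLyapunov P Z fun ε => Lam (P.map fun ω => log (Z 0 ω)) (ε ^ 2) := by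
  intro ε h0 h1
  have := h.prob
  have hm : ∀ i, Measurable fun ω => log (Z i ω) := fun i => (h.meas i).log
  have : IsProbabilityMeasure (P.map fun ω => log (Z 0 ω)) :=
    Measure.isProbabilityMeasure_map (hm 0).aemeasurable
  have hlaw : P.map (fun ω i => log (Z i ω)) = Pm (P.map fun ω => log (Z 0 ω)) := by
    rw [(h.indep.comp (fun _ => log) (fun _ => measurable_log)).map_fun_eq_infinitePi_map hm]
    unfold Pm
    congr 1
    ext1 i
    exact ((h.ident i).comp measurable_log).map_eq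
  have h2 := lyap (h.hyp hα) h0 h1
  rw [← hlaw] at h2
  have h3 : ∀ᵐ ω ∂P, ∀ i, 0 < Z i ω := ae_all_iff.2 fun i =>
    (h.ident i).symm.ae_snd (p := fun x => 0 < x) measurableSet_Ioi h.pos
  filter_upwards [ae_of_ae_map (measurable_pi_lambda _ hm).aemeasurable h2, h3] with ω h4 h5
  simpa only [exp_log (h5 _)] using h4

theorem Setting.final1 (h : Setting P Z α) (hα : 1 < α) (hαZ : ∀ k : ℤ, α ≠ k)
    (hna : ¬ Arithmetic P fun ω => log (Z 0 ω)) :
    ∃ (L : ℝ → ℝ) (ℓ : ℕ → ℝ) (C : ℝ), IsLyapunov P Z L ∧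
      (∀ k, 1 ≤ k → k ≤ ⌈α⌉₊ - 1 → 0 < ℓ k) ∧ 0 ≤ C ∧
      Expansion L (⌈α⌉₊ - 1) ℓ C (fun ε => ε ^ (2 * α)) ∧
      (∀ ℓ' C', Expansion L (⌈α⌉₊ - 1) ℓ' C' (fun ε => ε ^ (2 * α)) →
        (∀ k, 1 ≤ k → k ≤ ⌈α⌉₊ - 1 → ℓ' k = ℓ k) ∧ C' = C) ∧
      (0 < C ↔ Integrable (fun ω => Z 0 ω ^ α * log (Z 0 ω)) P) := by
  have := h.prob
  have hm0 : Measurable fun ω => log (Z 0 ω) := (h.meas 0).log
  have : IsProbabilityMeasure (P.map fun ω => log (Z 0 ω)) :=
    Measure.isProbabilityMeasure_map hm0.aemeasurable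
  have h2 : 1 < ⌈α⌉₊ := Nat.lt_ceil.2 (by simpa using hα)
  obtain ⟨m, hm⟩ : ∃ m, ⌈α⌉₊ = m + 1 := ⟨⌈α⌉₊ - 1, by omega⟩
  have hm1 : (m : ℝ) < α := Nat.lt_ceil.1 (by omega)
  have hm2 : α < m + 1 := by
    have h3 := Nat.le_ceil α
    rw [hm] at h3
    push_cast at h3
    refine lt_of_le_of_ne h3 fun h4 => hαZ (m + 1) (by push_cast; exact h4)
  rw [hm, Nat.add_sub_cancel]
  obtain ⟨ℓ, a1, C, a2, a3, a4⟩ := (h.hyp hα.le).q1 (by
    rintro ⟨c, hc, h0⟩
    exact hna ⟨c, hc, ae_of_ae_map hm0.aemeasurable h0⟩) (by omega) hm1 hm2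
  have hpow : ∀ᶠ ε in 𝓝[>] (0 : ℝ), (ε ^ 2) ^ α = ε ^ (2 * α) := by
    filter_upwards [self_mem_nhdsWithin] with ε hε
    rw [rpow_mul (le_of_lt hε), rpow_two]
  have a5 : Expansion (fun ε => Lam (P.map fun ω => log (Z 0 ω)) (ε ^ 2)) m ℓ C
      (fun ε => ε ^ (2 * α)) := by
    refine (a4.comp_tendsto sq_tendsto).congr' ?_ hpow
    filter_upwards [hpow] with ε hε
    simp only [Function.comp, hε, pow_mul]
  refine ⟨_, ℓ, C, h.isLyapunov hα.le, a1, a2, a5, fun ℓ' C' h' => a5.unique ?_ ?_ h',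
    a3.trans h.int_iff⟩
  · have b1 : (fun ε : ℝ => ε ^ (2 * α - 2 * m)) =o[𝓝[>] 0] fun _ => (1 : ℝ) :=
      (isLittleO_one_iff ℝ).2 (rpow_tendsto (by linarith))
    refine (b1.mul_isBigO (isBigO_refl (fun ε : ℝ => ε ^ (2 * m)) _)).congr' ?_
      (Eventually.of_forall fun δ => one_mul _)
    filter_upwards [self_mem_nhdsWithin] with ε hε
    rw [← rpow_natCast, ← rpow_add hε]; push_cast; ring_nf
  · filter_upwards [self_mem_nhdsWithin] with ε hε
    exact (rpow_pos_of_pos hε _).ne'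

theorem Setting.final2 {a : ℕ} (ha : 1 ≤ a) (h : Setting P Z a) :
    ∃ (L : ℝ → ℝ) (ℓ : ℕ → ℝ) (C : ℝ), IsLyapunov P Z L ∧
      (∀ k, 1 ≤ k → k ≤ a - 1 → 0 < ℓ k) ∧ 0 ≤ C ∧
      Expansion L (a - 1) ℓ C (fun ε => ε ^ (2 * a) * log (1 / ε)) ∧
      (∀ ℓ' C', Expansion L (a - 1) ℓ' C' (fun ε => ε ^ (2 * a) * log (1 / ε)) →
        (∀ k, 1 ≤ k → k ≤ a - 1 → ℓ' k = ℓ k) ∧ C' = C) ∧
      (0 < C ↔ Integrable (fun ω => Z 0 ω ^ (a : ℝ) * log (Z 0 ω)) P) := by
  have := h.prob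
  have hm0 : Measurable fun ω => log (Z 0 ω) := (h.meas 0).log
  have : IsProbabilityMeasure (P.map fun ω => log (Z 0 ω)) :=
    Measure.isProbabilityMeasure_map hm0.aemeasurable
  have hα : (1 : ℝ) ≤ a := by exact_mod_cast ha
  obtain ⟨m, rfl⟩ : ∃ m, a = m + 1 := ⟨a - 1, by omega⟩
  rw [Nat.add_sub_cancel]
  have h1 := h.hyp hα
  have h2 := h.int_iff
  push_cast at h1 h2 ⊢
  obtain ⟨ℓ, a1, C, a2, a3, a4⟩ := h1.q2
  have e : ∀ ε : ℝ, (ε ^ 2) ^ (m + 1) * log (1 / ε ^ 2) = 2 * (ε ^ (2 * (m + 1)) * log (1 / ε)) := by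
    intro ε
    rw [← one_div_pow, log_pow, pow_mul]; push_cast; ring
  have a5 : Expansion (fun ε => Lam (P.map fun ω => log (Z 0 ω)) (ε ^ 2)) m ℓ (2 * C)
      (fun ε => ε ^ (2 * (m + 1)) * log (1 / ε)) := by
    have b1 := a4.comp_tendsto sq_tendsto
    simp only [Function.comp_def, e] at b1
    refine (IsLittleO.of_const_mul_right b1).congr_left fun ε => ?_
    simp only [pow_mul]
    ring
  refine ⟨_, ℓ, 2 * C, h.isLyapunov hα, a1, by positivity, a5, fun ℓ' C' h' => a5.unique ?_ ?_ h',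
    ?_⟩
  · have t0 : Tendsto (fun δ : ℝ => δ * log (1 / δ)) (𝓝[>] 0) (𝓝 0) := by
      have := (continuous_mul_log.tendsto 0).neg.mono_left (nhdsWithin_le_nhds (s := Ioi 0))
      simpa using this
    have t1 : Tendsto (fun δ : ℝ => δ) (𝓝[>] 0) (𝓝 0) := tendsto_id.mono_left nhdsWithin_le_nhds
    have t2 := t1.mul t0
    rw [mul_zero] at t2
    refine (((isLittleO_one_iff ℝ).2 t2).mul_isBigO
      (isBigO_refl (fun ε : ℝ => ε ^ (2 * m)) _)).congr (fun ε => by ring) (fun ε => one_mul _)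
  · filter_upwards [self_mem_nhdsWithin,
      log_one_div_tendsto.eventually (eventually_gt_atTop 0)] with ε hε h3
    exact (mul_pos (pow_pos hε _) h3).ne'
  · rw [← h2, ← a3]
    exact mul_pos_iff_of_pos_left two_pos

end Pool.Agent.H653Z.DH
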