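import Pool.Agent.H653Z.DH.Slow

/-!
# The flux identity and the limit at minus infinity
-/

open Set Filter Topology MeasureTheory ProbabilityTheory Real

namespace Pool.Agent.H653Z.DH

variable {ν : Measure ℝ} [IsProbabilityMeasure ν]

/-- the flux through the level `s` -/
noncomputable def J (ν : Measure ℝ) (u : ℝ → ℝ) (s : ℝ) : ℝ :=
  ∫ ξ, (∫ r in s..(s + ξ), u r) ∂ν

/-- Assumptions under which the flux is finite. -/
structure FH (ν : Measure ℝ) (u : ℝ → ℝ) (B L T : ℝ) : Prop where
  bl : BL u B L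
  nonneg : ∀ s, 0 ≤ u s
  top : ∀ x, 0 ≤ x → ∫ r in (0 : ℝ)..x, u r ≤ T
  intmin : ∀ t, 0 ≤ t → Integrable (fun ξ => min ξ t) ν

variable {u : ℝ → ℝ} {B L T : ℝ}

lemma BL.ii (h : BL u B L) (a b : ℝ) : IntervalIntegrable u volume a b :=
  h.continuous.intervalIntegrable a b

lemma BL.abs_int_le (h : BL u B L) (a b : ℝ) : |∫ r in a..b, u r| ≤ B * |b - a| := by
  have := intervalIntegral.norm_integral_le_of_norm_le_const (a := a) (b := b) (f := u) (C := B)
    (fun x _ => h.bd x)
  exact this

lemma BL.cont_prim (h : BL u B L) (s : ℝ) : Continuous fun ξ => ∫ r in s..(s + ξ), u r :=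
  (intervalIntegral.continuous_primitive (h.ii) s).comp (continuous_const.add continuous_id)

lemma FH.int (h : FH ν u B L T) (s : ℝ) : Integrable (fun ξ => ∫ r in s..(s + ξ), u r) ν := by
  have hB := h.bl.B_nonneg
  have hT : 0 ≤ T := by simpa using h.top 0 le_rfl
  refine Integrable.mono' ((integrable_const (T + 2 * B * |s|)).sub
    ((h.intmin 0 le_rfl).const_mul B)) (h.bl.cont_prim s).aestronglyMeasurable ?_
  filter_upwards with ξ
  simp only [Pi.sub_apply, Real.norm_eq_abs]
  rcases le_total ξ 0 with hξ | hξ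
  · have h1 := h.bl.abs_int_le s (s + ξ)
    rw [show s + ξ - s = ξ by ring, abs_of_nonpos hξ] at h1
    rw [min_eq_left hξ]
    have : 0 ≤ 2 * B * |s| := by positivity
    linarith
  · rw [min_eq_right hξ, abs_of_nonneg (intervalIntegral.integral_nonneg (by linarith)
      fun r _ => h.nonneg r)]
    rw [← intervalIntegral.integral_add_adjacent_intervals (h.bl.ii s 0) (h.bl.ii 0 (s + ξ))]
    have h1 := (le_abs_self _).trans (h.bl.abs_int_le s 0)
    rw [zero_sub, abs_neg] at h1
    have h3 : 0 ≤ B * |s| := by positivity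
    rcases le_total 0 (s + ξ) with h2 | h2
    · linarith [h.top _ h2]
    · have h4 := (le_abs_self _).trans (h.bl.abs_int_le 0 (s + ξ))
      rw [sub_zero, abs_of_nonpos h2] at h4
      have h5 : -(s + ξ) ≤ |s| := by linarith [neg_abs_le s]
      nlinarith [mul_le_mul_of_nonneg_left h5 hB]

lemma BL.cont_conv (h : BL u B L) : Continuous fun s => ∫ ξ, u (s + ξ) ∂ν := by
  refine continuous_of_dominated (bound := fun _ => B) (fun s => (h.int ν s).aestronglyMeasurable)
    (fun s => ae_of_all _ fun ξ => h.bd _) (integrable_const _) (ae_of_all _ fun ξ => ?_)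
  exact h.continuous.comp (continuous_id.add continuous_const)

lemma FH.flux (h : FH ν u B L T) (s t : ℝ) :
    J ν u s - J ν u t = ∫ r in s..t, (u r - ∫ ξ, u (r + ξ) ∂ν) := by
  unfold J
  rw [← integral_sub (h.int s) (h.int t)]
  have h1 : ∀ ξ, (∫ r in s..(s + ξ), u r) - ∫ r in t..(t + ξ), u r =
      (∫ r in s..t, u r) - ∫ r in s..t, u (r + ξ) := by
    intro ξ
    rw [intervalIntegral.integral_comp_add_right (fun r => u r) ξ]
    have a1 := intervalIntegral.integral_add_adjacent_intervals (h.bl.ii s t) (h.bl.ii t (t + ξ))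
    have a2 := intervalIntegral.integral_add_adjacent_intervals (h.bl.ii s (s + ξ))
      (h.bl.ii (s + ξ) (t + ξ))
    linarith
  simp only [h1]
  have hint : Integrable (Function.uncurry fun r ξ => u (r + ξ))
      ((volume.restrict (uIoc s t)).prod ν) := by
    have : IsFiniteMeasure (volume.restrict (uIoc s t)) :=
      ⟨by simp [uIoc]⟩
    refine Integrable.mono' (integrable_const B)
      (h.bl.continuous.comp (continuous_fst.add continuous_snd)).aestronglyMeasurable ?_
    exact ae_of_all _ fun p => h.bl.bd _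
  have hi2 : Integrable (fun ξ => ∫ r in s..t, u (r + ξ)) ν := by
    have h2 : ∀ ξ, ∫ r in s..t, u (r + ξ) = (∫ r in s..t, u r) -
      ((∫ r in s..(s + ξ), u r) - ∫ r in t..(t + ξ), u r) := fun ξ => by rw [h1]; ring
    simp only [h2]
    exact (integrable_const _).sub ((h.int s).sub (h.int t))
  rw [integral_sub (integrable_const _) hi2, ← intervalIntegral_integral_swap hint,
    intervalIntegral.integral_sub (h.bl.ii s t) (h.bl.cont_conv.intervalIntegrable s t)]
  simp

lemma FH.J_tendsto (h : FH ν u B L T)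
    (he : IntegrableOn (fun r => u r - ∫ ξ, u (r + ξ) ∂ν) (Iic 0)) :
    ∃ j, Tendsto (J ν u) atBot (𝓝 j) := by
  refine ⟨_, ((intervalIntegral_tendsto_integral_Iic 0 he tendsto_id).add_const
    (J ν u 0)).congr fun s => ?_⟩
  have := h.flux s 0
  simp only [id]
  linarith

lemma BL.prim_slow (h : BL u B L)
    (hs : ∀ t, Tendsto (fun s => u (s + t) - u s) atBot (𝓝 0)) (t : ℝ) :
    Tendsto (fun s => (∫ r in s..(s + t), u r) - t * u s) atBot (𝓝 0) := by
  have := intervalIntegral.tendsto_integral_filter_of_dominated_convergence (μ := volume)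
    (a := 0) (b := t) (l := atBot) (F := fun s r => u (s + r) - u s) (f := fun _ => (0 : ℝ))
    (fun _ => 2 * B) (Eventually.of_forall fun s =>
      ((h.continuous.comp (continuous_const.add continuous_id)).sub
        continuous_const).aestronglyMeasurable)
    (Eventually.of_forall fun s => ae_of_all _ fun r _ => (h.diff r).bd s)
    intervalIntegrable_const (ae_of_all _ fun r _ => hs r)
  simp only [intervalIntegral.integral_zero] at this
  refine this.congr fun s => ?_
  have hc : Continuous fun r => u (s + r) := h.continuous.comp (continuous_const.add continuous_id)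
  rw [intervalIntegral.integral_sub (hc.intervalIntegrable _ _) intervalIntegrable_const,
    intervalIntegral.integral_comp_add_left (fun r => u r) s]
  simp

omit [IsProbabilityMeasure ν] in
lemma BL.flux_slow (h : BL u B L)
    (hs : ∀ t, Tendsto (fun s => u (s + t) - u s) atBot (𝓝 0)) {g : ℝ → ℝ} (hg : Continuous g)
    (hi : Integrable g ν) :
    Tendsto (fun s => (∫ ξ, (∫ r in s..(s + g ξ), u r) ∂ν) - (∫ ξ, g ξ ∂ν) * u s) atBot
      (𝓝 0) := by
  have hb : ∀ s ξ, |∫ r in s..(s + g ξ), u r| ≤ B * |g ξ| := fun s ξ => by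
    simpa using h.abs_int_le s (s + g ξ)
  have hii : ∀ s, Integrable (fun ξ => ∫ r in s..(s + g ξ), u r) ν := fun s =>
    Integrable.mono' (hi.abs.const_mul B) ((h.cont_prim s).comp hg).aestronglyMeasurable
      (ae_of_all _ (hb s))
  have := tendsto_integral_filter_of_dominated_convergence (μ := ν) (l := atBot)
    (F := fun s ξ => (∫ r in s..(s + g ξ), u r) - g ξ * u s) (f := fun _ => (0 : ℝ))
    (fun ξ => 2 * B * |g ξ|) (Eventually.of_forall fun s =>
      ((hii s).sub (hi.mul_const _)).aestronglyMeasurable)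
    (Eventually.of_forall fun s => ae_of_all _ fun ξ => ?_) (hi.abs.const_mul _)
    (ae_of_all _ fun ξ => h.prim_slow hs (g ξ))
  · simp only [integral_zero] at this
    refine this.congr fun s => ?_
    rw [integral_sub (hii s) (hi.mul_const _), integral_mul_const]
  · rw [Real.norm_eq_abs]
    have h1 := abs_sub (∫ r in s..(s + g ξ), u r) (g ξ * u s)
    rw [abs_mul] at h1
    have h2 := mul_le_mul_of_nonneg_left (h.bd s) (abs_nonneg (g ξ))
    linarith [hb s ξ]

theorem FH.limit_fin (h : FH ν u B L T)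
    (hs : ∀ t, Tendsto (fun s => u (s + t) - u s) atBot (𝓝 0))
    (he : IntegrableOn (fun r => u r - ∫ ξ, u (r + ξ) ∂ν) (Iic 0))
    (hi : Integrable (fun ξ => ξ) ν) (hpos : 0 < ∫ ξ, ξ ∂ν) :
    ∃ w, Tendsto u atBot (𝓝 w) ∧ Tendsto (J ν u) atBot (𝓝 ((∫ ξ, ξ ∂ν) * w)) := by
  obtain ⟨j, hj⟩ := h.J_tendsto he
  have h1 := h.bl.flux_slow hs continuous_id hi
  refine ⟨j / ∫ ξ, ξ ∂ν, ?_, by rw [mul_div_cancel₀ _ hpos.ne']; exact hj⟩
  have h2 := (hj.sub h1).div_const (∫ ξ, ξ ∂ν)
  rw [sub_zero] at h2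
  refine h2.congr fun s => ?_
  simp only [J, id]
  field_simp
  ring

lemma FH.J_ge (h : FH ν u B L T) (s : ℝ) {t : ℝ} (ht : 0 ≤ t) :
    ∫ ξ, (∫ r in s..(s + min ξ t), u r) ∂ν ≤ J ν u s := by
  have hb : ∀ ξ, |∫ r in s..(s + min ξ t), u r| ≤ B * |min ξ t| := fun ξ => by
    simpa using h.bl.abs_int_le s (s + min ξ t)
  refine integral_mono (Integrable.mono' ((h.intmin t ht).abs.const_mul B)
    ((h.bl.cont_prim s).comp (continuous_id.min continuous_const)).aestronglyMeasurable
      (ae_of_all _ hb)) (h.int s) fun ξ => ?_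
  simp only
  rw [← intervalIntegral.integral_add_adjacent_intervals (h.bl.ii s (s + min ξ t))
    (h.bl.ii (s + min ξ t) (s + ξ))]
  have : 0 ≤ ∫ r in (s + min ξ t)..(s + ξ), u r :=
    intervalIntegral.integral_nonneg (by linarith [min_le_left ξ t]) fun r _ => h.nonneg r
  linarith

theorem FH.limit_inf (h : FH ν u B L T)
    (hs : ∀ t, Tendsto (fun s => u (s + t) - u s) atBot (𝓝 0))
    (he : IntegrableOn (fun r => u r - ∫ ξ, u (r + ξ) ∂ν) (Iic 0))
    (htop : Tendsto (fun n : ℕ => ∫ ξ, min ξ n ∂ν) atTop atTop) :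
    Tendsto u atBot (𝓝 0) := by
  obtain ⟨j, hj⟩ := h.J_tendsto he
  rw [tendsto_order]
  refine ⟨fun b hb => Eventually.of_forall fun s => hb.trans_le (h.nonneg s), fun b hb => ?_⟩
  obtain ⟨n, hn⟩ := (htop.eventually (eventually_gt_atTop ((|j| + 2) / b))).exists
  have h1 := h.bl.flux_slow hs (g := fun ξ => min ξ n) (continuous_id.min continuous_const)
    (h.intmin n (Nat.cast_nonneg n))
  rw [div_lt_iff₀ hb] at hn
  have hμ : 0 < ∫ ξ, min ξ n ∂ν := by
    have : 0 < (∫ ξ, min ξ n ∂ν) * b := lt_of_lt_of_le (by positivity) hn.le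
    exact (mul_pos_iff_of_pos_right hb).1 this
  filter_upwards [h1.eventually (lt_mem_nhds (show (-1 : ℝ) < 0 by norm_num)),
    hj.eventually (gt_mem_nhds (show j < j + 1 by linarith))] with s h2 h3
  have h4 := h.J_ge s (Nat.cast_nonneg n)
  have h5 : (∫ ξ, min ξ n ∂ν) * u s < (∫ ξ, min ξ n ∂ν) * b := by
    linarith [le_abs_self j]
  exact lt_of_mul_lt_mul_left h5 hμ.le

end Pool.Agent.H653Z.DH
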