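import Pool.Agent.H653Z.DH.Expand

/-!
# Explicit inequalities for the remainder functions
-/

open Set Filter Topology Real

namespace Pool.Agent.H653Z.DH

lemma hasDerivAt_log1 (s : ℝ) : HasDerivAt (fun s => log (1 + exp s)) (exp s / (1 + exp s)) s :=
  ((hasDerivAt_exp s).const_add 1).log (by positivity)

lemma hasDerivAt_tau (s : ℝ) : HasDerivAt tau (1 / (1 + exp s)) s := by
  refine ((hasDerivAt_id s).sub (hasDerivAt_log1 s)).congr_deriv ?_
  have := exp_pos s
  field_simp
  ring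

lemma hasDerivAt_Rm (m : ℕ) (s : ℝ) : HasDerivAt (Rm m) (wf (m + 1) 1 s) s := by
  induction m with
  | zero => exact HasDerivAt.congr_deriv (hasDerivAt_log1 s) (by simp [wf])
  | succ m ih =>
    have h1 := (((hasDerivAt_exp s).pow (m + 1)).div_const ((m : ℝ) + 1)).sub ih
    refine HasDerivAt.congr_deriv h1 ?_
    have := exp_pos s
    simp only [wf, Nat.add_sub_cancel]
    push_cast
    field_simp
    ring

lemma hasDerivAt_wf (d b : ℕ) (s : ℝ) :
    HasDerivAt (wf d b) (wf d b s * (d - b * (exp s / (1 + exp s)))) s := by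
  have e : wf d b = fun s => exp (d * s - b * log (1 + exp s)) := by
    ext s
    rw [exp_sub, exp_nat_mul, exp_nat_mul, exp_log (by positivity), wf]
  rw [e]
  have := (((hasDerivAt_id s).const_mul (d : ℝ)).sub ((hasDerivAt_log1 s).const_mul (b : ℝ))).exp
  simpa using this

lemma hasDerivAt_expmul (a s : ℝ) : HasDerivAt (fun s => exp (a * s)) (a * exp (a * s)) s := by
  have := ((hasDerivAt_id s).const_mul a).exp
  simpa [mul_comm] using this

lemma hasDerivAt_psi (α s : ℝ) :
    HasDerivAt (psi α) (α * exp (α * s) - α * exp (α * tau s) / (1 + exp s)) s := by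
  have h1 := (hasDerivAt_expmul α s).sub (((hasDerivAt_tau s).const_mul α).exp)
  refine HasDerivAt.congr_deriv h1 ?_
  ring

lemma exp_pow_tendsto (d : ℕ) : Tendsto (fun s => exp s ^ (d + 1)) atBot (𝓝 0) := by
  simpa using tendsto_exp_atBot.pow (d + 1)

lemma wf_tendsto (d b : ℕ) : Tendsto (wf (d + 1) b) atBot (𝓝 0) :=
  squeeze_zero (fun s => (wf_pos _ _ s).le) (wf_le _ _) (exp_pow_tendsto d)

lemma Rm_tendsto (m : ℕ) : Tendsto (Rm m) atBot (𝓝 0) := by
  induction m with
  | zero =>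
    have := (tendsto_exp_atBot.const_add 1).log (by simp)
    rw [add_zero, log_one] at this
    exact this
  | succ m ih =>
    have := ((exp_pow_tendsto m).div_const ((m : ℝ) + 1)).sub ih
    rw [zero_div, sub_zero] at this
    exact this

lemma mono_of_deriv {f f' : ℝ → ℝ} (h : ∀ s, HasDerivAt f (f' s) s) (h0 : ∀ s, 0 ≤ f' s) :
    Monotone f :=
  monotone_of_deriv_nonneg (fun s => (h s).differentiableAt) fun s => by
    rw [(h s).deriv]; exact h0 s

lemma Rm_mono (m : ℕ) : Monotone (Rm m) :=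
  mono_of_deriv (hasDerivAt_Rm m) fun s => (wf_pos _ _ s).le

lemma Rm_nonneg (m : ℕ) (s : ℝ) : 0 ≤ Rm m s := (Rm_mono m).le_of_tendsto (Rm_tendsto m) s

lemma frac_le_one (s : ℝ) : exp s / (1 + exp s) ≤ 1 := by
  rw [div_le_one (by positivity)]; linarith

lemma wf_mono {d b : ℕ} (h : b ≤ d) : Monotone (wf d b) := by
  refine mono_of_deriv (hasDerivAt_wf d b) fun s => mul_nonneg (wf_pos _ _ s).le ?_
  have h1 : (b : ℝ) ≤ d := by exact_mod_cast h
  have h2 := mul_le_mul_of_nonneg_left (frac_le_one s) (Nat.cast_nonneg (α := ℝ) b)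
  linarith

lemma wf_sub_Rm_mono {k : ℕ} (hk : 1 ≤ k) : Monotone fun s => wf (k + 1) 1 s - Rm k s := by
  refine mono_of_deriv (fun s => (hasDerivAt_wf (k + 1) 1 s).sub (hasDerivAt_Rm k s)) fun s => ?_
  have h1 : (1 : ℝ) ≤ k := by exact_mod_cast hk
  have h2 := frac_le_one s
  have h3 := wf_pos (k + 1) 1 s
  push_cast
  nlinarith

lemma Rm_le_wf {k : ℕ} (hk : 1 ≤ k) (s : ℝ) : Rm k s ≤ wf (k + 1) 1 s := by
  have := (wf_sub_Rm_mono hk).le_of_tendsto
    (by simpa using (wf_tendsto k 1).sub (Rm_tendsto k)) s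
  linarith

lemma wf_le_Rm (m : ℕ) (s : ℝ) : wf (m + 1) 1 s ≤ (m + 1) * Rm m s := by
  have hm : Monotone fun s => (m + 1) * Rm m s - wf (m + 1) 1 s := by
    refine mono_of_deriv (fun s => ((hasDerivAt_Rm m s).const_mul ((m : ℝ) + 1)).sub
      (hasDerivAt_wf (m + 1) 1 s)) fun s => ?_
    have h3 := wf_pos (m + 1) 1 s
    have h4 : 0 ≤ exp s / (1 + exp s) := by positivity
    push_cast
    nlinarith
  have := hm.le_of_tendsto
    (by simpa using ((Rm_tendsto m).const_mul ((m : ℝ) + 1)).sub (wf_tendsto m 1)) s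
  linarith

lemma Rm_sub_wf_mono (m : ℕ) {b : ℕ} (hb : 1 ≤ b) :
    Monotone fun s => (m + 1) * Rm m s - wf (m + 1) b s := by
  refine mono_of_deriv (fun s => ((hasDerivAt_Rm m s).const_mul ((m : ℝ) + 1)).sub
    (hasDerivAt_wf (m + 1) b s)) fun s => ?_
  have h3 := wf_pos (m + 1) b s
  have h4 : 0 ≤ exp s / (1 + exp s) := by positivity
  have h5 : wf (m + 1) b s ≤ wf (m + 1) 1 s := by
    unfold wf
    gcongr
    linarith [exp_pos s]
  have h6 : 0 ≤ wf (m + 1) b s * (b * (exp s / (1 + exp s))) := by positivity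
  have h7 : (0 : ℝ) ≤ m + 1 := by positivity
  push_cast
  nlinarith [mul_le_mul_of_nonneg_left h5 h7]

lemma psi_nonneg {α : ℝ} (hα : 0 ≤ α) (s : ℝ) : 0 ≤ psi α s :=
  sub_nonneg.2 (exp_le_exp.2 (mul_le_mul_of_nonneg_left (tau_le s) hα))

lemma psi_ge {α : ℝ} (hα : 1 ≤ α) (s : ℝ) : exp (α * s) * exp (tau s) ≤ psi α s := by
  have h0 := exp_pos s
  have h1 : 0 ≤ log (1 + exp s) := log_nonneg (by linarith)
  have h2 : exp (α * tau s) ≤ exp (α * s - log (1 + exp s)) := by
    refine exp_le_exp.2 ?_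
    unfold tau
    nlinarith
  rw [exp_sub, exp_log (by positivity)] at h2
  have h3 : exp (α * s) * exp (tau s) = exp (α * s) - exp (α * s) / (1 + exp s) := by
    rw [exp_tau]; field_simp; ring
  unfold psi
  linarith

lemma psi_mono {α : ℝ} (hα : 0 ≤ α) : Monotone (psi α) := by
  refine mono_of_deriv (hasDerivAt_psi α) fun s => ?_
  have h1 : exp (α * tau s) ≤ exp (α * s) :=
    exp_le_exp.2 (mul_le_mul_of_nonneg_left (tau_le s) hα)
  have h2 : α * exp (α * tau s) / (1 + exp s) ≤ α * exp (α * tau s) :=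
    div_le_self (by positivity) (by linarith [exp_pos s])
  nlinarith

lemma psi_meas (α : ℝ) : Measurable (psi α) := by
  unfold psi
  exact (by fun_prop : Measurable fun s => exp (α * s)).sub
    (measurable_exp.comp (measurable_const.mul tau_meas))

end Pool.Agent.H653Z.DH
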