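import Pool.Agent.H653Z.DH.Fun

/-!
# The logarithmic divergence of the critical moment
-/

open Set Filter Topology MeasureTheory ProbabilityTheory Real Asymptotics

namespace Pool.Agent.H653Z.DH

/-- the test function `y ^ α * max (- log y) 0` -/
noncomputable def Hf (α s : ℝ) : ℝ := exp (α * s) * max (-s) 0

lemma Hf_meas (α : ℝ) : Measurable (Hf α) := by unfold Hf; fun_prop

lemma Hf_nonneg (α s : ℝ) : 0 ≤ Hf α s := mul_nonneg (exp_pos _).le (le_max_right _ _)

lemma Hf_le {α : ℝ} (hα : 0 < α) (s : ℝ) : Hf α s ≤ 1 / α := by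
  unfold Hf
  rcases le_total s 0 with h | h
  · rw [max_eq_left (by linarith)]
    linarith [exp_mul_neg_le hα s]
  · rw [max_eq_right (by linarith), mul_zero]; positivity

lemma Hf_tau_upper {α : ℝ} (hα : 1 ≤ α) (s : ℝ) : Hf α (tau s) - Hf α s ≤ 2 * psi α s := by
  have h0 := exp_pos s
  have h1 := psi_ge hα s
  have h2 := psi_nonneg (by linarith : 0 ≤ α) s
  have h3 : exp (α * tau s) ≤ exp (α * s) :=
    exp_le_exp.2 (mul_le_mul_of_nonneg_left (tau_le s) (by linarith))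
  have h4 : -tau s - max (-s) 0 ≤ 2 * exp (tau s) := by
    rw [exp_tau, ← mul_div_assoc, le_div_iff₀ (by positivity)]
    rcases le_total s 0 with h | h
    · rw [max_eq_left (by linarith)]
      have a1 := sub_tau_le s
      have a2 : exp s ≤ 1 := exp_le_one_iff.2 h
      nlinarith
    · rw [max_eq_right (by linarith)]
      have a2 : 1 ≤ exp s := one_le_exp h
      have a1 : -tau s ≤ 1 := by
        have b1 : exp (-1) ≤ exp (tau s) := by
          rw [exp_tau, le_div_iff₀ (by positivity)]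
          have b2 : exp (-1) * exp 1 = 1 := by rw [← exp_add]; simp
          have b3 := add_one_le_exp (1 : ℝ)
          have b4 := exp_pos (-1)
          nlinarith
        have := exp_le_exp.1 b1
        linarith
      nlinarith
  have h5 : Hf α (tau s) - Hf α s =
      exp (α * tau s) * (-tau s - max (-s) 0) - psi α s * max (-s) 0 := by
    unfold Hf psi
    rw [max_eq_left (by linarith [tau_nonpos s])]
    ring
  rw [h5]
  have h6 := mul_le_mul_of_nonneg_left h4 (exp_pos (α * tau s)).le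
  have h7 := mul_le_mul_of_nonneg_right h3 (exp_pos (tau s)).le
  have h8 := mul_nonneg h2 (le_max_right (-s) 0)
  nlinarith

lemma Hf_tau_lower {α T : ℝ} (hα : 1 ≤ α) (hT : 0 ≤ T) (s : ℝ) :
    - (T * psi α s) - 2 * α * exp (-T / 2) * exp (α * s) ≤ Hf α (tau s) - Hf α s := by
  have h0 := exp_pos s
  have h2 := psi_nonneg (by linarith : 0 ≤ α) s
  have h4 : 0 ≤ -tau s - max (-s) 0 := by
    have := tau_le s
    have := tau_nonpos s
    rw [sub_nonneg]
    exact max_le (by linarith) (by linarith)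
  have h5 : Hf α (tau s) - Hf α s =
      exp (α * tau s) * (-tau s - max (-s) 0) - psi α s * max (-s) 0 := by
    unfold Hf psi
    rw [max_eq_left (by linarith [tau_nonpos s])]
    ring
  rw [h5]
  have h6 := mul_nonneg (exp_pos (α * tau s)).le h4
  have h7 : psi α s * max (-s) 0 ≤ T * psi α s + 2 * α * exp (-T / 2) * exp (α * s) := by
    have a0 : 0 ≤ 2 * α * exp (-T / 2) * exp (α * s) := by positivity
    rcases le_total (-s) T with h | h
    · have : max (-s) 0 ≤ T := max_le h hT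
      nlinarith
    · rw [max_eq_left (by linarith)]
      have a1 : psi α s ≤ α * (exp (α * s) * exp s) := exp_sub_exp_tau_le (by linarith) s
      have a2 : -s ≤ 2 * exp (-s / 2) := by linarith [add_one_le_exp (-s / 2)]
      have a3 : exp s * exp (-s / 2) ≤ exp (-T / 2) := by
        rw [← exp_add]; exact exp_le_exp.2 (by linarith)
      have a4 : psi α s * (-s) ≤ α * (exp (α * s) * exp s) * (2 * exp (-s / 2)) :=
        mul_le_mul a1 a2 (by linarith) (by positivity)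
      have a5 : α * (exp (α * s) * exp s) * (2 * exp (-s / 2)) =
          2 * α * (exp s * exp (-s / 2)) * exp (α * s) := by ring
      have a6 : 2 * α * (exp s * exp (-s / 2)) * exp (α * s) ≤
          2 * α * exp (-T / 2) * exp (α * s) := by gcongr
      nlinarith [mul_nonneg hT h2]
  linarith

lemma Hf_source {α δ : ℝ} (hα : 1 ≤ α) (h0 : 0 < δ) (h1 : δ ≤ 1) {w : ℕ → ℝ} (hw : Good w) :
    |Hf α (Sh δ w) - Hf α (tau (S δ w)) -
      log (1 / δ) * (exp (α * Sh δ w) - exp (α * tau (S δ w)))| ≤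
      δ ^ α * ((2 * α + 1) * (1 + X 0 w) ^ (α - 1 / 2)) := by
  have hx := X_pos h0 h1 w
  have hx0 := X_le_zero h0.le hw
  have hV := one_le_V h0.le h1 hx.le
  have hVm := Vm_pos h0.le hx
  have hδα : 0 < δ ^ α := rpow_pos_of_pos h0 α
  have e1 := exp_mul_of_eq (α := α) h0.le (by linarith) (exp_Sh h0 h1 w)
  have e2 := exp_mul_of_eq (α := α) h0.le hVm.le (exp_tau_S h0 h1 w)
  have e3 : Sh δ w = log (V δ (X δ w)) - log (1 / δ) := by
    rw [Sh, log_mul h0.ne' (by linarith), one_div, log_inv]; ring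
  have e4 : Sh δ w - tau (S δ w) ≤ 1 / X δ w := by
    have a1 : exp (Sh δ w - tau (S δ w)) = 1 + 1 / X δ w := by
      rw [exp_sub, exp_Sh h0 h1, exp_tau_S h0 h1, V, Vm]
      field_simp
      ring
    have a2 := add_one_le_exp (Sh δ w - tau (S δ w))
    linarith
  have e5 := tau_S_le h0 h1 w
  have e6 : Hf α (Sh δ w) - Hf α (tau (S δ w)) -
      log (1 / δ) * (exp (α * Sh δ w) - exp (α * tau (S δ w))) =
      - (log (V δ (X δ w)) * (exp (α * Sh δ w) - exp (α * tau (S δ w))) +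
        exp (α * tau (S δ w)) * (Sh δ w - tau (S δ w))) := by
    unfold Hf
    rw [max_eq_left (by linarith [Sh_nonpos h0 h1 w]),
      max_eq_left (by linarith [tau_nonpos (S δ w)])]
    have : log (1 / δ) = log (V δ (X δ w)) - Sh δ w := by linarith
    rw [this]; ring
  have b0 : 0 ≤ exp (α * Sh δ w) - exp (α * tau (S δ w)) :=
    sub_nonneg.2 (exp_le_exp.2 (mul_le_mul_of_nonneg_left e5 (by linarith)))
  have b1 : 0 ≤ log (V δ (X δ w)) := log_nonneg hV
  have hy : 1 ≤ 1 + X 0 w := by linarith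
  have b2 : log (V δ (X δ w)) ≤ 2 * (1 + X 0 w) ^ (1 / 2 : ℝ) := by
    have a1 : log (V δ (X δ w)) ≤ log (1 + X 0 w) :=
      log_le_log (by linarith) ((V_le h0.le hx.le).trans (by linarith))
    have a2 := log_le_rpow_div (x := 1 + X 0 w) (ε := 1 / 2) (by linarith) (by norm_num)
    linarith
  have b3 : exp (α * Sh δ w) - exp (α * tau (S δ w)) ≤ δ ^ α * (α * (1 + X 0 w) ^ (α - 1)) := by
    rw [e1, e2, ← mul_sub]
    exact mul_le_mul_of_nonneg_left (V_incr_le hα h0.le hx.le hx0) hδα.le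
  have b4 : (1 + X 0 w) ^ (1 / 2 : ℝ) * (1 + X 0 w) ^ (α - 1) = (1 + X 0 w) ^ (α - 1 / 2) := by
    rw [← rpow_add (by linarith)]; ring_nf
  have b5 : log (V δ (X δ w)) * (exp (α * Sh δ w) - exp (α * tau (S δ w))) ≤
      δ ^ α * (2 * α * (1 + X 0 w) ^ (α - 1 / 2)) := by
    refine (mul_le_mul b2 b3 b0 (by positivity)).trans (le_of_eq ?_)
    rw [← b4]; ring
  have b6 : exp (α * tau (S δ w)) * (Sh δ w - tau (S δ w)) ≤
      δ ^ α * (1 + X 0 w) ^ (α - 1 / 2) := by
    have a1 : Vm δ (X δ w) ≤ X δ w := div_le_self hx.le (by nlinarith)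
    have a2 : Vm δ (X δ w) ^ α ≤ X δ w ^ α := rpow_le_rpow hVm.le a1 (by linarith)
    have a3 : X δ w ^ α * (1 / X δ w) = X δ w ^ (α - 1) := by
      rw [rpow_sub_one hx.ne']; ring
    have a4 : X δ w ^ (α - 1) ≤ (1 + X 0 w) ^ (α - 1) :=
      rpow_le_rpow hx.le (by linarith) (by linarith)
    have a5 : (1 + X 0 w) ^ (α - 1) ≤ (1 + X 0 w) ^ (α - 1 / 2) :=
      rpow_le_rpow_of_exponent_le hy (by linarith)
    rw [e2, mul_assoc]
    refine mul_le_mul_of_nonneg_left ?_ hδα.le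
    calc Vm δ (X δ w) ^ α * (Sh δ w - tau (S δ w)) ≤ X δ w ^ α * (1 / X δ w) :=
          mul_le_mul a2 e4 (by linarith) (by positivity)
      _ ≤ _ := by rw [a3]; exact a4.trans a5
  have b7 : 0 ≤ exp (α * tau (S δ w)) * (Sh δ w - tau (S δ w)) :=
    mul_nonneg (exp_pos _).le (by linarith)
  rw [e6, abs_neg, abs_of_nonneg (add_nonneg (mul_nonneg b1 b0) b7)]
  linarith

variable {η : Measure ℝ} [IsProbabilityMeasure η] {α : ℝ}

lemma Hyp.A_Hf (h : Hyp η α) {t : ℝ} (ht : t ≤ 0) :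
    ∫ ξ, Hf α (t + ξ) ∂η = Hf α t - exp (α * t) * mu η α (-t) := by
  have e : ∀ ξ, Hf α (t + ξ) =
      exp (α * t) * (exp (α * ξ) * (-t) - exp (α * ξ) * min ξ (-t)) := by
    intro ξ
    unfold Hf
    rw [mul_add, exp_add]
    rcases le_total ξ (-t) with h1 | h1
    · rw [max_eq_left (by linarith), min_eq_left h1]; ring
    · rw [max_eq_right (by linarith), min_eq_right h1]; ring
  simp only [e]
  rw [integral_const_mul, integral_sub (h.int.mul_const _) (h.int_min (by linarith)),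
    integral_mul_const, h.mean, Hf, max_eq_left (by linarith), mu]
  ring

lemma Hyp.main_identity (h : Hyp η α) : ∃ C : ℝ, ∀ δ, 0 < δ → δ ≤ 1 →
    Integrable (fun w => exp (α * Sh δ w) * mu η α (-Sh δ w)) (Pm η) ∧
    Integrable (fun w => Hf α (tau (S δ w)) - Hf α (S δ w)) (Pm η) ∧
    |∫ w, exp (α * Sh δ w) * mu η α (-Sh δ w) ∂(Pm η) -
      ∫ w, (Hf α (tau (S δ w)) - Hf α (S δ w)) ∂(Pm η) -
      log (1 / δ) * ∫ w, psi α (S δ w) ∂(Pm η)| ≤ δ ^ α * C := by
  refine ⟨∫ w, (2 * α + 1) * (1 + X 0 w) ^ (α - 1 / 2) ∂(Pm η), fun δ h0 h1 => ?_⟩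
  have hα := h.pos
  have hb : ∀ (g : (ℕ → ℝ) → ℝ), Measurable g → Integrable (fun w => Hf α (g w)) (Pm η) :=
    fun g hg => Integrable.mono' (integrable_const (1 / α))
      ((Hf_meas α).comp hg).aestronglyMeasurable (ae_of_all _ fun w => by
        rw [Real.norm_eq_abs, abs_of_nonneg (Hf_nonneg _ _)]; exact Hf_le hα _)
  obtain ⟨a1, a2, a3⟩ := stat h h0 h1 (Hf_meas α) (C := 1 / α) fun s => by
    rw [abs_of_nonneg (Hf_nonneg _ _)]
    have := Hf_le hα s
    have h2 : 0 ≤ 1 / α * exp (α * s) := by positivity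
    linarith
  simp only [h.A_Hf (Sh_nonpos h0 h1 _)] at a2 a3
  have i1 := hb _ (Sh_meas δ)
  have i2 := hb _ (tau_meas.comp (S_meas δ))
  simp only [Function.comp] at i2
  have i3 : Integrable (fun w => exp (α * Sh δ w) * mu η α (-Sh δ w)) (Pm η) :=
    (i1.sub a2).congr (ae_of_all _ fun w => by simp)
  obtain ⟨c1, c2⟩ := h.sol_psi.chain h h0 h1
  simp only [h.A_exp] at c2
  have i4 : Integrable (fun w => exp (α * tau (S δ w))) (Pm η) :=
    ((h.int_exp_S h0 h1).1.sub c1).congr (ae_of_all _ fun w => by simp [psi])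
  have i5 : Integrable (fun w => exp (α * Sh δ w) - exp (α * tau (S δ w))) (Pm η) :=
    (h.int_exp_S h0 h1).2.1.sub i4
  have i6 : Integrable (fun w => Hf α (Sh δ w) - Hf α (tau (S δ w))) (Pm η) := i1.sub i2
  refine ⟨i3, i2.sub a1, ?_⟩
  rw [integral_sub i1 i3] at a3
  have e : ∫ w, exp (α * Sh δ w) * mu η α (-Sh δ w) ∂(Pm η) -
      ∫ w, (Hf α (tau (S δ w)) - Hf α (S δ w)) ∂(Pm η) -
      log (1 / δ) * ∫ w, psi α (S δ w) ∂(Pm η) =
      ∫ w, (Hf α (Sh δ w) - Hf α (tau (S δ w)) -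
        log (1 / δ) * (exp (α * Sh δ w) - exp (α * tau (S δ w)))) ∂(Pm η) := by
    rw [integral_sub i6 (i5.const_mul _), integral_const_mul, ← c2, integral_sub i1 i2,
      integral_sub i2 a1, a3]
    ring
  rw [e, ← integral_const_mul, ← Real.norm_eq_abs]
  refine norm_integral_le_of_norm_le ((h.int_half.const_mul _).const_mul _) ?_
  filter_upwards [h.good] with w hw
  exact Hf_source h.one_le h0 h1 hw

lemma Hyp.mu_pointwise (h : Hyp η α) {T δ : ℝ} (hT : 0 ≤ T) (h0 : 0 < δ) (h1 : δ ≤ 1)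
    (h2 : δ ≤ exp (-T) / 2) (w : ℕ → ℝ) :
    mu η α T * exp (α * Sh δ w) -
      (mu η α T + 1 / α) * exp ((α + 1) * (T + 1)) * psi α (S δ w) ≤
      exp (α * Sh δ w) * mu η α (-Sh δ w) := by
  have hα := h.pos
  have a0 := Sh_nonpos h0 h1 w
  have a1 : 0 ≤ mu η α T + 1 / α := by linarith [h.mu_lower hT]
  have a2 := psi_nonneg hα.le (S δ w)
  have a3 := exp_pos (α * Sh δ w)
  rcases le_total T (-Sh δ w) with hc | hc
  · have b1 := h.mu_mono hT hc
    have b2 : 0 ≤ (mu η α T + 1 / α) * exp ((α + 1) * (T + 1)) * psi α (S δ w) := by positivity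
    nlinarith
  · have b1 := h.mu_lower (t := -Sh δ w) (by linarith)
    have b2 : exp (-T) ≤ exp (Sh δ w) := exp_le_exp.2 (by linarith)
    have b3 : exp (Sh δ w) ≤ exp (tau (S δ w)) + δ := by
      have := exp_pos (S δ w)
      rw [exp_Sh' h0 h1, exp_tau, add_div]
      have : δ / (1 + exp (S δ w)) ≤ δ := div_le_self h0.le (by linarith)
      linarith
    have b4 : exp (-(T + 1)) ≤ exp (tau (S δ w)) := by
      have c1 : exp (-(T + 1)) * exp 1 = exp (-T) := by rw [← exp_add]; ring_nf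
      have c2 := add_one_le_exp (1 : ℝ)
      have c3 := exp_pos (-(T + 1))
      nlinarith
    have b5 := exp_le_exp.1 b4
    have b6 : 1 ≤ exp ((α + 1) * (T + 1)) * psi α (S δ w) := by
      refine le_trans ?_ (mul_le_mul_of_nonneg_left (psi_ge h.one_le (S δ w)) (exp_pos _).le)
      rw [← exp_add, ← exp_add]
      refine one_le_exp ?_
      nlinarith [tau_le (S δ w)]
    have b7 : exp (α * Sh δ w) ≤ 1 := exp_le_one_iff.2 (by nlinarith)
    have b8 := mul_le_mul_of_nonneg_left (b7.trans b6) a1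
    nlinarith

lemma log_one_div_tendsto : Tendsto (fun δ : ℝ => log (1 / δ)) (𝓝[>] 0) atTop := by
  simp only [one_div, log_inv]
  exact tendsto_neg_atBot_atTop.comp tendsto_log_nhdsGT_zero

lemma ratio_aux {P : ℝ → ℝ} {k : ℝ} (hP : Tendsto P (𝓝[>] 0) (𝓝 k)) (C1 C2 a : ℝ) :
    Tendsto (fun δ => (P δ + (C1 + C2 * P δ) / log (1 / δ)) / a) (𝓝[>] 0) (𝓝 (k / a)) := by
  have := (hP.add (((hP.const_mul C2).const_add C1).div_atTop log_one_div_tendsto)).div_const a
  simpa using this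

/-- normalised critical moment -/
noncomputable def Dn (η : Measure ℝ) (α δ : ℝ) : ℝ :=
  (∫ w, exp (α * S δ w) ∂(Pm η)) / δ ^ α / log (1 / δ)

lemma Hyp.Dn_upper (h : Hyp η α) {T : ℝ} (hT : 0 ≤ T) (hμ : 0 < mu η α T) {b : ℝ}
    (hb : K η α / mu η α T < b) : ∀ᶠ δ in 𝓝[>] (0 : ℝ), Dn η α δ < b := by
  obtain ⟨C, hC⟩ := h.main_identity
  set c2 := 2 + (mu η α T + 1 / α) * exp ((α + 1) * (T + 1)) with hc2
  filter_upwards [(ratio_aux h.psi_tendsto C c2 (mu η α T)).eventually (gt_mem_nhds hb),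
    Ioc_mem_nhdsGT (zero_lt_one' ℝ), Ioc_mem_nhdsGT (show 0 < exp (-T) / 2 by positivity),
    log_one_div_tendsto.eventually (eventually_gt_atTop 0)] with δ h1 hδ hδ' hl
  refine lt_of_le_of_lt ?_ h1
  obtain ⟨i1, i2, i3⟩ := hC δ hδ.1 hδ.2
  obtain ⟨j1, j2, j3⟩ := h.int_exp_S hδ.1 hδ.2
  have j4 := (h.sol_psi.chain h hδ.1 hδ.2).1
  have k1 := integral_mono ((j2.const_mul (mu η α T)).sub (j4.const_mul _)) i1
    (h.mu_pointwise hT hδ.1 hδ.2 hδ'.2)
  simp only [Pi.sub_apply] at k1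
  rw [integral_sub (j2.const_mul _) (j4.const_mul _), integral_const_mul, integral_const_mul,
    ← j3] at k1
  have k2 := integral_mono i2 (j4.const_mul 2) fun w => Hf_tau_upper h.one_le (S δ w)
  rw [integral_const_mul] at k2
  have k3 := (abs_le.1 i3).2
  have hδα : 0 < δ ^ α := rpow_pos_of_pos hδ.1 α
  unfold Dn
  rw [le_div_iff₀ hμ]
  set D := ∫ w, exp (α * S δ w) ∂(Pm η)
  set P := ∫ w, psi α (S δ w) ∂(Pm η)
  have k4 : mu η α T * D ≤ log (1 / δ) * P + δ ^ α * C + c2 * P := by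
    rw [hc2]; linarith
  have e : P / δ ^ α + (C + c2 * (P / δ ^ α)) / log (1 / δ) =
      (log (1 / δ) * P + δ ^ α * C + c2 * P) / δ ^ α / log (1 / δ) := by
    field_simp
    ring
  rw [e, div_mul_eq_mul_div, div_mul_eq_mul_div, mul_comm D]
  gcongr

lemma Hyp.Dn_lower (h : Hyp η α) (hi : Integrable (fun ξ => exp (α * ξ) * ξ) η) {T : ℝ}
    (hT : 0 ≤ T) {b : ℝ}
    (hb : b < K η α / (∫ ξ, exp (α * ξ) * ξ ∂η + 2 * α * exp (-T / 2))) :
    ∀ᶠ δ in 𝓝[>] (0 : ℝ), b < Dn η α δ := by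
  obtain ⟨C, hC⟩ := h.main_identity
  have hα := h.pos
  have hμ := h.mu1_pos hi
  set μ1 := ∫ ξ, exp (α * ξ) * ξ ∂η
  have ha : 0 < μ1 + 2 * α * exp (-T / 2) := by positivity
  filter_upwards [(ratio_aux h.psi_tendsto (-C) (-T) _).eventually (lt_mem_nhds hb),
    Ioc_mem_nhdsGT (zero_lt_one' ℝ),
    log_one_div_tendsto.eventually (eventually_gt_atTop 0)] with δ h1 hδ hl
  refine lt_of_lt_of_le h1 ?_
  obtain ⟨i1, i2, i3⟩ := hC δ hδ.1 hδ.2
  obtain ⟨j1, j2, j3⟩ := h.int_exp_S hδ.1 hδ.2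
  have j4 := (h.sol_psi.chain h hδ.1 hδ.2).1
  have k1 := integral_mono i1 (j2.mul_const μ1) fun w => mul_le_mul_of_nonneg_left
    (h.mu_le hi (t := -Sh δ w) (by linarith [Sh_nonpos hδ.1 hδ.2 w])) (exp_pos _).le
  rw [integral_mul_const, ← j3] at k1
  have j5 : Integrable (fun w => - (T * psi α (S δ w))) (Pm η) := (j4.const_mul T).neg
  have k2 := integral_mono (j5.sub (j1.const_mul _)) i2
    fun w => Hf_tau_lower h.one_le hT (S δ w)
  simp only [Pi.sub_apply] at k2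
  rw [integral_sub j5 (j1.const_mul _), integral_neg, integral_const_mul, integral_const_mul] at k2
  have k3 := (abs_le.1 i3).1
  have hδα : 0 < δ ^ α := rpow_pos_of_pos hδ.1 α
  unfold Dn
  rw [div_le_iff₀ ha]
  set D := ∫ w, exp (α * S δ w) ∂(Pm η)
  set P := ∫ w, psi α (S δ w) ∂(Pm η)
  have k4 : log (1 / δ) * P - δ ^ α * C - T * P ≤ (μ1 + 2 * α * exp (-T / 2)) * D := by
    linarith
  have e : P / δ ^ α + (-C + -T * (P / δ ^ α)) / log (1 / δ) =
      (log (1 / δ) * P - δ ^ α * C - T * P) / δ ^ α / log (1 / δ) := by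
    field_simp
    ring
  rw [e, div_mul_eq_mul_div, div_mul_eq_mul_div, mul_comm D]
  gcongr

theorem Hyp.Dn_fin (h : Hyp η α) (hi : Integrable (fun ξ => exp (α * ξ) * ξ) η) :
    Tendsto (Dn η α) (𝓝[>] 0) (𝓝 (K η α / ∫ ξ, exp (α * ξ) * ξ ∂η)) := by
  have hμ := h.mu1_pos hi
  rw [tendsto_order]
  constructor
  · intro b hb
    have t1 : Tendsto (fun T : ℝ => exp (-T / 2)) atTop (𝓝 0) :=
      tendsto_exp_atBot.comp (tendsto_neg_atTop_atBot.atBot_div_const (by norm_num))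
    have t2 := (tendsto_const_nhds (x := K η α)).div
      ((t1.const_mul (2 * α)).const_add (∫ ξ, exp (α * ξ) * ξ ∂η)) (by simpa using hμ.ne')
    simp only [mul_zero, add_zero] at t2
    obtain ⟨T, h1, h2⟩ := ((t2.eventually (lt_mem_nhds hb)).and (eventually_ge_atTop 0)).exists
    exact h.Dn_lower hi h2 h1
  · intro b hb
    have t2 := (tendsto_const_nhds (x := K η α)).div (mu_tendsto hi) hμ.ne'
    obtain ⟨n, h1, h2⟩ := ((t2.eventually (gt_mem_nhds hb)).and
      ((mu_tendsto hi).eventually (lt_mem_nhds hμ))).exists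
    exact h.Dn_upper (Nat.cast_nonneg n) h2 h1

theorem Hyp.Dn_inf (h : Hyp η α) (hi : ¬ Integrable (fun ξ => exp (α * ξ) * ξ) η) :
    Tendsto (Dn η α) (𝓝[>] 0) (𝓝 0) := by
  rw [tendsto_order]
  constructor
  · intro b hb
    filter_upwards [Ioc_mem_nhdsGT (zero_lt_one' ℝ),
      log_one_div_tendsto.eventually (eventually_gt_atTop 0)] with δ hδ hl
    refine hb.trans_le (div_nonneg (div_nonneg (integral_nonneg fun w => (exp_pos _).le)
      (rpow_nonneg hδ.1.le _)) hl.le)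
  · intro b hb
    have t2 := (tendsto_const_nhds (x := K η α)).div_atTop (h.mu_tendsto_top hi)
    obtain ⟨n, h1, h2⟩ := ((t2.eventually (gt_mem_nhds hb)).and
      ((h.mu_tendsto_top hi).eventually (eventually_gt_atTop 0))).exists
    exact h.Dn_upper (Nat.cast_nonneg n) h2 h1

end Pool.Agent.H653Z.DH
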