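import Pool.Agent.H653Z.DH.Poisson

/-!
# The limit at minus infinity of a solution of the Poisson equation
-/

open Set Filter Topology MeasureTheory ProbabilityTheory Real

namespace Pool.Agent.H653Z.DH

/-- the tilted law -/
noncomputable def nu (η : Measure ℝ) (α : ℝ) : Measure ℝ := η.tilted fun ξ => α * ξ

variable {η : Measure ℝ} [IsProbabilityMeasure η] {α : ℝ}

lemma Hyp.nu_prob (h : Hyp η α) : IsProbabilityMeasure (nu η α) :=
  isProbabilityMeasure_tilted h.int

omit [IsProbabilityMeasure η] in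
lemma Hyp.integral_nu (h : Hyp η α) (g : ℝ → ℝ) :
    ∫ ξ, g ξ ∂(nu η α) = ∫ ξ, exp (α * ξ) * g ξ ∂η := by
  unfold nu
  rw [integral_tilted, h.mean]
  simp

omit [IsProbabilityMeasure η] in
lemma Hyp.integrable_nu (h : Hyp η α) (g : ℝ → ℝ) :
    Integrable g (nu η α) ↔ Integrable (fun ξ => exp (α * ξ) * g ξ) η :=
  integrable_tilted_iff h.int g

/-- non-arithmetic laws -/
def NonArith (η : Measure ℝ) : Prop := ¬ ∃ c : ℝ, 0 < c ∧ ∀ᵐ ξ ∂η, ∃ k : ℤ, c * ξ = k

omit [IsProbabilityMeasure η] in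
lemma Hyp.nonarith_nu (h : Hyp η α) (hna : NonArith η) : NonArith (nu η α) := by
  rintro ⟨c, hc, hae⟩
  exact hna ⟨c, hc, (absolutelyContinuous_tilted h.int).ae_le hae⟩

/-- growth conditions on the right-hand side -/
structure Gr (α : ℝ) (r : ℝ → ℝ) (C κ γ : ℝ) : Prop where
  κpos : 0 < κ
  κle : κ ≤ 1
  γpos : 0 ≤ γ
  γlt : γ < α
  nonneg : ∀ s, 0 ≤ r s
  bot : ∀ s, s ≤ 0 → r s ≤ C * exp ((α + κ) * s)
  top : ∀ s, 0 ≤ s → r s ≤ C * exp (γ * s)

namespace Sol

variable {r φ : ℝ → ℝ} {B C κ γ : ℝ}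

omit [IsProbabilityMeasure η] in
lemma conv (h : Hyp η α) (s : ℝ) :
    ∫ ξ, exp (-(α * (s + ξ))) * φ (s + ξ) ∂(nu η α) = exp (-(α * s)) * A η φ s := by
  rw [h.integral_nu, A, ← integral_const_mul]
  refine integral_congr_ae (ae_of_all _ fun ξ => ?_)
  simp only
  rw [← mul_assoc, ← exp_add]
  ring_nf

lemma fh (h : Hyp η α) (hs : Sol η α r φ B) (hg : Gr α r C κ γ) :
    FH (nu η α) (fun s => exp (-(α * s)) * φ s) B (B * α) ((C + B) / (α - γ)) := by
  have hB := hs.B_nonneg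
  have hC : 0 ≤ C := by
    have := (hg.nonneg 0).trans (hg.top 0 le_rfl)
    simpa using this
  have hd : 0 < α - γ := sub_pos.2 hg.γlt
  refine ⟨hs.bl h, fun s => mul_nonneg (exp_pos _).le (hs.nonneg s), fun x hx => ?_,
    fun t ht => (h.integrable_nu _).2 (h.int_min ht)⟩
  have h1 : ∫ s in (0 : ℝ)..x, exp (-(α * s)) * φ s ≤
      ∫ s in (0 : ℝ)..x, (C + B) * exp (-(α - γ) * s) := by
    refine intervalIntegral.integral_mono_on hx ((hs.bl h).ii 0 x)
      (Continuous.intervalIntegrable (by fun_prop) _ _) fun s hs' => ?_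
    have a1 := hg.top s hs'.1
    have a2 := hs.A_le h (tau s)
    have a3 : exp (α * tau s) ≤ exp (γ * s) := exp_le_exp.2 (by
      nlinarith [tau_nonpos s, h.pos, hg.γpos, hs'.1])
    have a4 : φ s ≤ (C + B) * exp (γ * s) := by
      rw [hs.eq s]
      nlinarith [mul_le_mul_of_nonneg_left a3 hB]
    have a5 : exp (-(α - γ) * s) = exp (-(α * s)) * exp (γ * s) := by
      rw [← exp_add]; ring_nf
    rw [a5]
    nlinarith [mul_le_mul_of_nonneg_left a4 (exp_pos (-(α * s))).le]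
  refine h1.trans ?_
  have h2 : ∫ s in (0 : ℝ)..x, (C + B) * exp (-(α - γ) * s) =
      (C + B) * (-(exp (-(α - γ) * x)) / (α - γ)) - (C + B) * (-(exp (-(α - γ) * 0)) / (α - γ)) := by
    refine intervalIntegral.integral_eq_sub_of_hasDerivAt
      (f := fun s => (C + B) * (-(exp (-(α - γ) * s)) / (α - γ))) (fun s _ => ?_)
      (Continuous.intervalIntegrable (by fun_prop) _ _)
    have := ((((hasDerivAt_id s).const_mul (-(α - γ))).exp.neg).div_const (α - γ)).const_mul (C + B)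
    refine HasDerivAt.congr_deriv this ?_
    simp only [id]
    field_simp
  rw [h2]
  simp only [mul_zero, exp_zero]
  have h3 : 0 ≤ (C + B) * (exp (-(α - γ) * x) / (α - γ)) := by positivity
  have h4 : (C + B) / (α - γ) = - ((C + B) * (-1 / (α - γ))) := by ring
  rw [h4, neg_div]
  linarith

omit [IsProbabilityMeasure η] in
lemma e_eq (hs : Sol η α r φ B) (s : ℝ) :
    exp (-(α * s)) * φ s - exp (-(α * s)) * A η φ s =
      exp (-(α * s)) * (r s - (A η φ s - A η φ (tau s))) := by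
  rw [hs.eq s]; ring

omit [IsProbabilityMeasure η] in
lemma e_bound (h : Hyp η α) (hs : Sol η α r φ B) (hg : Gr α r C κ γ) {s : ℝ} (h0 : s ≤ 0) :
    |exp (-(α * s)) * φ s - exp (-(α * s)) * A η φ s| ≤ (C + B * α) * exp (κ * s) := by
  have hB := hs.B_nonneg
  have hα := h.pos
  have hC : 0 ≤ C := by
    have := (hg.nonneg 0).trans (hg.top 0 le_rfl)
    simpa using this
  rw [hs.e_eq, abs_mul, abs_of_pos (exp_pos _)]
  have a1 := hg.bot s h0
  have a2 := hg.nonneg s
  have a3 := hs.A_monotone h (tau_le s)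
  have a4 := hs.A_incr h (tau_le s)
  have a5 := mul_le_mul_of_nonneg_left (exp_sub_exp_tau_le hα.le s) hB
  have a6 : exp s ≤ exp (κ * s) := exp_le_exp.2 (by nlinarith [hg.κle])
  have a7 : exp ((α + κ) * s) = exp (α * s) * exp (κ * s) := by rw [← exp_add]; ring_nf
  have a8 : exp (-(α * s)) * exp (α * s) = 1 := by rw [← exp_add]; simp
  have a9 : B * (α * (exp (α * s) * exp s)) ≤ B * α * (exp (α * s) * exp (κ * s)) := by
    rw [← mul_assoc]; gcongr
  have b1 : 0 ≤ B * α * (exp (α * s) * exp (κ * s)) := by positivity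
  have b2 : 0 ≤ C * (exp (α * s) * exp (κ * s)) := by positivity
  rw [a7] at a1
  have b3 : |r s - (A η φ s - A η φ (tau s))| ≤ (C + B * α) * (exp (α * s) * exp (κ * s)) := by
    rw [abs_le]; constructor <;> nlinarith
  calc exp (-(α * s)) * |r s - (A η φ s - A η φ (tau s))|
      ≤ exp (-(α * s)) * ((C + B * α) * (exp (α * s) * exp (κ * s))) := by gcongr
    _ = (exp (-(α * s)) * exp (α * s)) * ((C + B * α) * exp (κ * s)) := by ring
    _ = _ := by rw [a8, one_mul]

omit [IsProbabilityMeasure η] in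
lemma e_tendsto (h : Hyp η α) (hs : Sol η α r φ B) (hg : Gr α r C κ γ) :
    Tendsto (fun s => exp (-(α * s)) * φ s - exp (-(α * s)) * A η φ s) atBot (𝓝 0) := by
  have t1 : Tendsto (fun s => (C + B * α) * exp (κ * s)) atBot (𝓝 0) := by
    have := (tendsto_exp_atBot.comp (tendsto_id.const_mul_atBot hg.κpos)).const_mul (C + B * α)
    simpa using this
  refine squeeze_zero_norm' ?_ t1
  filter_upwards [eventually_le_atBot 0] with s h0
  exact hs.e_bound h hg h0

lemma e_int (h : Hyp η α) (hs : Sol η α r φ B) (hg : Gr α r C κ γ) :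
    IntegrableOn (fun s => exp (-(α * s)) * φ s -
      ∫ ξ, exp (-(α * (s + ξ))) * φ (s + ξ) ∂(nu η α)) (Iic 0) := by
  have := h.nu_prob
  refine Integrable.mono' ((integrableOn_exp_mul_Iic hg.κpos 0).const_mul (C + B * α))
    ((hs.bl h).continuous.sub (hs.bl h).cont_conv).aestronglyMeasurable ?_
  filter_upwards [ae_restrict_mem measurableSet_Iic] with s h0
  rw [conv h]
  exact hs.e_bound h hg h0

lemma slow' (h : Hyp η α) (hna : NonArith η) (hs : Sol η α r φ B) (hg : Gr α r C κ γ) (t : ℝ) :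
    Tendsto (fun s => exp (-(α * (s + t))) * φ (s + t) - exp (-(α * s)) * φ s) atBot (𝓝 0) := by
  have := h.nu_prob
  refine slow (ν := nu η α) (hs.bl h) ?_ (h.nonarith_nu hna) t
  simp only [conv h]
  exact hs.e_tendsto h hg

theorem limit_fin (h : Hyp η α) (hna : NonArith η) (hs : Sol η α r φ B) (hg : Gr α r C κ γ)
    (hi : Integrable (fun ξ => exp (α * ξ) * ξ) η) :
    ∃ w, Tendsto (fun s => exp (-(α * s)) * A η φ s) atBot (𝓝 w) ∧
      Tendsto (J (nu η α) (fun s => exp (-(α * s)) * φ s)) atBot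
        (𝓝 ((∫ ξ, exp (α * ξ) * ξ ∂η) * w)) := by
  have := h.nu_prob
  obtain ⟨w, h1, h2⟩ := (hs.fh h hg).limit_fin (hs.slow' h hna hg) (hs.e_int h hg)
    ((h.integrable_nu _).2 hi) (by rw [h.integral_nu]; exact h.mu1_pos hi)
  rw [h.integral_nu] at h2
  refine ⟨w, ?_, h2⟩
  have := h1.sub (hs.e_tendsto h hg)
  simpa using this

theorem limit_inf (h : Hyp η α) (hna : NonArith η) (hs : Sol η α r φ B) (hg : Gr α r C κ γ)
    (hi : ¬ Integrable (fun ξ => exp (α * ξ) * ξ) η) :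
    Tendsto (fun s => exp (-(α * s)) * A η φ s) atBot (𝓝 0) := by
  have := h.nu_prob
  have h1 := (hs.fh h hg).limit_inf (hs.slow' h hna hg) (hs.e_int h hg) (by
    simp only [h.integral_nu]
    exact h.mu_tendsto_top hi)
  have := h1.sub (hs.e_tendsto h hg)
  simpa using this

end Sol

end Pool.Agent.H653Z.DH
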