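import Pool.Agent.H653Z.DH.Chain
import Pool.Agent.H653Z.DH.Flux

/-!
# The Poisson equation of the limiting chain
-/

open Set Filter Topology MeasureTheory ProbabilityTheory Real

namespace Pool.Agent.H653Z.DH

/-- the map `y ↦ y / (1 + y)` in logarithmic coordinates -/
noncomputable def tau (s : ℝ) : ℝ := s - log (1 + exp s)

lemma exp_tau (s : ℝ) : exp (tau s) = exp s / (1 + exp s) := by
  unfold tau
  rw [exp_sub, exp_log (by positivity)]

lemma tau_le (s : ℝ) : tau s ≤ s := by
  have := log_nonneg (show 1 ≤ 1 + exp s by linarith [exp_pos s])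
  unfold tau; linarith

lemma tau_nonpos (s : ℝ) : tau s ≤ 0 := by
  rw [← exp_le_one_iff, exp_tau, div_le_one (by positivity)]
  linarith

lemma tau_mono : Monotone tau := by
  intro a b hab
  rw [← exp_le_exp, exp_tau, exp_tau, div_le_div_iff₀ (by positivity) (by positivity)]
  nlinarith [exp_le_exp.2 hab]

lemma sub_tau_le (s : ℝ) : s - tau s ≤ exp s := by
  have := log_le_sub_one_of_pos (show 0 < 1 + exp s by positivity)
  unfold tau; linarith

lemma tau_meas : Measurable tau := tau_mono.measurable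

lemma exp_sub_exp_tau_le {α : ℝ} (hα : 0 ≤ α) (s : ℝ) :
    exp (α * s) - exp (α * tau s) ≤ α * (exp (α * s) * exp s) := by
  have h1 := add_one_le_exp (α * tau s - α * s)
  have h2 : exp (α * tau s) = exp (α * s) * exp (α * tau s - α * s) := by
    rw [← exp_add]; ring_nf
  have h3 := mul_le_mul_of_nonneg_left (sub_tau_le s) hα
  have h4 := exp_pos (α * s)
  rw [h2]
  nlinarith [mul_le_mul_of_nonneg_left h1 h4.le, mul_le_mul_of_nonneg_left h3 h4.le]

/-- convolution with the law of `log Z` -/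
noncomputable def A (η : Measure ℝ) (φ : ℝ → ℝ) (s : ℝ) : ℝ := ∫ ξ, φ (s + ξ) ∂η

variable {η : Measure ℝ} [IsProbabilityMeasure η] {α : ℝ}

omit [IsProbabilityMeasure η] in
lemma Hyp.int_shift (h : Hyp η α) (s : ℝ) : Integrable (fun ξ => exp (α * (s + ξ))) η := by
  simp only [mul_add, exp_add]
  exact h.int.const_mul _

omit [IsProbabilityMeasure η] in
lemma Hyp.A_exp (h : Hyp η α) (s : ℝ) : A η (fun s => exp (α * s)) s = exp (α * s) := by
  simp only [A, mul_add, exp_add]
  rw [integral_const_mul, h.mean, mul_one]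

omit [IsProbabilityMeasure η] in
lemma Hyp.int_of_le (h : Hyp η α) {φ : ℝ → ℝ} (hm : Measurable φ) (h0 : ∀ s, 0 ≤ φ s) {B : ℝ}
    (hB : ∀ s, φ s ≤ B * exp (α * s)) (s : ℝ) : Integrable (fun ξ => φ (s + ξ)) η := by
  refine Integrable.mono' ((h.int_shift s).const_mul B)
    (hm.comp (measurable_const.add measurable_id)).aestronglyMeasurable ?_
  filter_upwards with ξ
  rw [Real.norm_eq_abs, abs_of_nonneg (h0 _)]
  exact hB _

omit [IsProbabilityMeasure η] in
lemma A_mono {φ : ℝ → ℝ} (hm : Monotone φ) (hi : ∀ s, Integrable (fun ξ => φ (s + ξ)) η) :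
    Monotone (A η φ) := fun a b hab =>
  integral_mono (hi a) (hi b) fun ξ => hm (by linarith)

omit [IsProbabilityMeasure η] in
lemma A_nonneg {φ : ℝ → ℝ} (h0 : ∀ s, 0 ≤ φ s) (s : ℝ) : 0 ≤ A η φ s :=
  integral_nonneg fun _ => h0 _

omit [IsProbabilityMeasure η] in
lemma A_sub {φ ψ : ℝ → ℝ} (hi : ∀ s, Integrable (fun ξ => φ (s + ξ)) η)
    (hj : ∀ s, Integrable (fun ξ => ψ (s + ξ)) η) (s : ℝ) :
    A η (fun s => φ s - ψ s) s = A η φ s - A η ψ s := integral_sub (hi s) (hj s)

/-- solution of the Poisson equation with right-hand side `r` -/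
structure Sol (η : Measure ℝ) (α : ℝ) (r φ : ℝ → ℝ) (B : ℝ) : Prop where
  mono : Monotone φ
  nonneg : ∀ s, 0 ≤ φ s
  mono' : Monotone fun s => B * exp (α * s) - φ s
  le : ∀ s, φ s ≤ B * exp (α * s)
  eq : ∀ s, φ s = r s + A η φ (tau s)

/-- monotone iteration -/
noncomputable def it (η : Measure ℝ) (r : ℝ → ℝ) : ℕ → ℝ → ℝ
  | 0 => fun _ => 0
  | n + 1 => fun s => r s + A η (it η r n) (tau s)

omit [IsProbabilityMeasure η] in
theorem exists_sol (h : Hyp η α) {U r : ℝ → ℝ} {B : ℝ} (hU : Monotone U) (hU0 : ∀ s, 0 ≤ U s)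
    (hUB : Monotone fun s => B * exp (α * s) - U s) (hUle : ∀ s, U s ≤ B * exp (α * s))
    (hr : Monotone r) (hr0 : ∀ s, 0 ≤ r s)
    (hD : Monotone fun s => U s - A η U (tau s) - r s)
    (hD0 : ∀ s, 0 ≤ U s - A η U (tau s) - r s) : ∃ φ, Sol η α r φ B := by
  have hUi := h.int_of_le hU.measurable hU0 hUle
  have inv : ∀ n, Monotone (it η r n) ∧ (∀ s, 0 ≤ it η r n s) ∧
      Monotone (fun s => U s - it η r n s) ∧ ∀ s, it η r n s ≤ U s := by
    intro n
    induction n with
    | zero => exact ⟨monotone_const, fun _ => le_rfl, by simpa [it] using hU, hU0⟩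
    | succ n ih =>
      obtain ⟨a1, a2, a3, a4⟩ := ih
      have hi := h.int_of_le a1.measurable a2 (fun s => (a4 s).trans (hUle s))
      have hi' : ∀ s, Integrable (fun ξ => U (s + ξ) - it η r n (s + ξ)) η := fun s =>
        (hUi s).sub (hi s)
      have e : ∀ s, U s - it η r (n + 1) s = (U s - A η U (tau s) - r s) +
          A η (fun s => U s - it η r n s) (tau s) := by
        intro s
        rw [A_sub hUi hi]
        simp only [it]
        ring
      refine ⟨hr.add ((A_mono a1 hi).comp tau_mono), fun s => add_nonneg (hr0 s) (A_nonneg a2 _),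
        ?_, fun s => ?_⟩
      · simp only [e]
        exact hD.add ((A_mono a3 hi').comp tau_mono)
      · have := A_nonneg (η := η) (φ := fun s => U s - it η r n s)
          (fun s => sub_nonneg.2 (a4 s)) (tau s)
        linarith [e s, hD0 s]
  have hi : ∀ n s, Integrable (fun ξ => it η r n (s + ξ)) η := fun n =>
    h.int_of_le (inv n).1.measurable (inv n).2.1 (fun s => ((inv n).2.2.2 s).trans (hUle s))
  have hsucc : ∀ n s, it η r n s ≤ it η r (n + 1) s := by
    intro n
    induction n with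
    | zero => exact fun s => (inv 1).2.1 s
    | succ n ih =>
      intro s
      have : A η (it η r n) (tau s) ≤ A η (it η r (n + 1)) (tau s) :=
        integral_mono (hi n _) (hi (n + 1) _) fun ξ => ih _
      show r s + _ ≤ r s + _
      linarith
  have hlim : ∀ s, Tendsto (fun n => it η r n s) atTop (𝓝 (⨆ n, it η r n s)) := fun s =>
    tendsto_atTop_ciSup (monotone_nat_of_le_succ fun n => hsucc n s)
      ⟨U s, by rintro _ ⟨n, rfl⟩; exact (inv n).2.2.2 s⟩
  have hle : ∀ s, (⨆ n, it η r n s) ≤ U s := fun s => ciSup_le fun n => (inv n).2.2.2 s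
  refine ⟨fun s => ⨆ n, it η r n s, fun a b hab => ?_, fun s => ?_, fun a b hab => ?_,
    fun s => (hle s).trans (hUle s), fun s => ?_⟩
  · exact le_of_tendsto_of_tendsto' (hlim a) (hlim b) fun n => (inv n).1 hab
  · exact ge_of_tendsto' (hlim s) fun n => (inv n).2.1 s
  · have h1 := le_of_tendsto_of_tendsto' ((hlim a).const_sub (U a)) ((hlim b).const_sub (U b))
      fun n => (inv n).2.2.1 hab
    have h2 := hUB hab
    simp only at h2 ⊢
    linarith
  · have t1 := (hlim s).comp (tendsto_add_atTop_nat 1)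
    have t2 : Tendsto (fun n => A η (it η r n) (tau s)) atTop
        (𝓝 (A η (fun s => ⨆ n, it η r n s) (tau s))) := by
      refine tendsto_integral_of_dominated_convergence (fun ξ => U (tau s + ξ))
        (fun n => (hi n _).aestronglyMeasurable) (hUi _) (fun n => ae_of_all _ fun ξ => ?_)
        (ae_of_all _ fun ξ => hlim _)
      rw [Real.norm_eq_abs, abs_of_nonneg ((inv n).2.1 _)]
      exact (inv n).2.2.2 _
    exact tendsto_nhds_unique t1 (t2.const_add (r s))

namespace Sol

variable {r φ : ℝ → ℝ} {B : ℝ}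

omit [IsProbabilityMeasure η] in
lemma B_nonneg (hs : Sol η α r φ B) : 0 ≤ B := by
  have := (hs.nonneg 0).trans (hs.le 0)
  simpa using this

omit [IsProbabilityMeasure η] in
lemma int (h : Hyp η α) (hs : Sol η α r φ B) (s : ℝ) : Integrable (fun ξ => φ (s + ξ)) η :=
  h.int_of_le hs.mono.measurable hs.nonneg hs.le s

omit [IsProbabilityMeasure η] in
lemma A_monotone (h : Hyp η α) (hs : Sol η α r φ B) : Monotone (A η φ) :=
  A_mono hs.mono (hs.int h)

omit [IsProbabilityMeasure η] in
lemma A_compl (h : Hyp η α) (hs : Sol η α r φ B) (s : ℝ) :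
    A η (fun s => B * exp (α * s) - φ s) s = B * exp (α * s) - A η φ s := by
  rw [A_sub (fun s => (h.int_shift s).const_mul B) (hs.int h)]
  congr 1
  rw [← h.A_exp s]
  exact integral_const_mul _ _

omit [IsProbabilityMeasure η] in
lemma A_le (h : Hyp η α) (hs : Sol η α r φ B) (s : ℝ) : A η φ s ≤ B * exp (α * s) := by
  have := A_nonneg (η := η) (φ := fun s => B * exp (α * s) - φ s)
    (fun s => sub_nonneg.2 (hs.le s)) s
  rw [hs.A_compl h] at this
  linarith

omit [IsProbabilityMeasure η] in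
lemma A_incr (h : Hyp η α) (hs : Sol η α r φ B) {a b : ℝ} (hab : a ≤ b) :
    A η φ b - A η φ a ≤ B * (exp (α * b) - exp (α * a)) := by
  have := A_mono (η := η) hs.mono'
    (fun s => ((h.int_shift s).const_mul B).sub (hs.int h s)) hab
  rw [hs.A_compl h, hs.A_compl h] at this
  linarith

omit [IsProbabilityMeasure η] in
lemma bl (h : Hyp η α) (hs : Sol η α r φ B) :
    BL (fun s => exp (-(α * s)) * φ s) B (B * α) := by
  have hB := hs.B_nonneg
  have hα := h.pos
  have he : ∀ s, exp (-(α * s)) * exp (α * s) = 1 := fun s => by rw [← exp_add]; simp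
  have hu0 : ∀ s, 0 ≤ exp (-(α * s)) * φ s := fun s => mul_nonneg (exp_pos _).le (hs.nonneg s)
  have huB : ∀ s, exp (-(α * s)) * φ s ≤ B := fun s => by
    have := mul_le_mul_of_nonneg_left (hs.le s) (exp_pos (-(α * s))).le
    nlinarith [he s]
  have key : ∀ a b, a ≤ b → |exp (-(α * b)) * φ b - exp (-(α * a)) * φ a| ≤ B * α * (b - a) := by
    intro a b hab
    set q := exp (-(α * (b - a))) with hq
    have hq0 : 0 < q := exp_pos _
    have hq1 : q ≤ 1 := exp_le_one_iff.2 (by nlinarith)
    have hq2 : 1 - q ≤ α * (b - a) := by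
      have := add_one_le_exp (-(α * (b - a))); linarith
    have e1 : exp (-(α * b)) = q * exp (-(α * a)) := by rw [hq, ← exp_add]; ring_nf
    have e2 : exp (-(α * b)) * exp (α * a) = q := by rw [hq, ← exp_add]; ring_nf
    have m1 := mul_le_mul_of_nonneg_left (hs.mono hab) (exp_pos (-(α * b))).le
    have m2 := mul_le_mul_of_nonneg_left (hs.mono' hab) (exp_pos (-(α * b))).le
    simp only at m2
    have m3 : exp (-(α * b)) * φ a = q * (exp (-(α * a)) * φ a) := by rw [e1]; ring
    have m4 := hu0 a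
    have m5 := huB a
    have m6 := mul_le_mul_of_nonneg_left hq2 hB
    rw [abs_le]
    constructor
    · nlinarith
    · nlinarith [he b]
  refine ⟨fun s => by rw [abs_of_nonneg (hu0 s)]; exact huB s, fun s t => ?_⟩
  rcases le_total s t with hst | hst
  · rw [abs_sub_comm, abs_sub_comm s t, abs_of_nonneg (sub_nonneg.2 hst)]
    exact key s t hst
  · rw [abs_of_nonneg (sub_nonneg.2 hst)]
    exact key t s hst

end Sol

end Pool.Agent.H653Z.DH
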