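import Pool.Agent.H653Z.DH.Super
import Pool.Agent.H653Z.DH.Limit

/-!
# The non-integer case
-/

open Set Filter Topology MeasureTheory ProbabilityTheory Real Asymptotics

namespace Pool.Agent.H653Z.DH

variable {η : Measure ℝ} [IsProbabilityMeasure η] {α : ℝ}

lemma gr_of_le {m : ℕ} (h1 : 1 ≤ m) (hm : (m : ℝ) < α) (hm' : α < m + 1) {r : ℝ → ℝ} {C : ℝ}
    (hC : 0 ≤ C) (hr0 : ∀ s, 0 ≤ r s) (h2 : ∀ s, r s ≤ C * Rm m s) :
    Gr α r C (m + 1 - α) m := by
  refine ⟨by linarith, by linarith, Nat.cast_nonneg m, hm, hr0, fun s _ => ?_, fun s _ => ?_⟩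
  · refine (h2 s).trans (mul_le_mul_of_nonneg_left ((Rm_le_wf h1 s).trans
      ((wf_le _ _ s).trans (le_of_eq ?_))) hC)
    rw [← exp_nat_mul]; push_cast; ring_nf
  · refine (h2 s).trans (mul_le_mul_of_nonneg_left ((Rm_le_wf h1 s).trans
      ((wf_succ_le m 0 s).trans (le_of_eq ?_))) hC)
    rw [← exp_nat_mul]

omit [IsProbabilityMeasure η] in
lemma Sol.limit_nonneg {r φ : ℝ → ℝ} {B w : ℝ} (hs : Sol η α r φ B)
    (hw : Tendsto (fun s => exp (-(α * s)) * A η φ s) atBot (𝓝 w)) : 0 ≤ w :=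
  ge_of_tendsto' hw fun s => mul_nonneg (exp_pos _).le (A_nonneg hs.nonneg s)

lemma Hyp.exists_pos (h : Hyp η α) (hna : NonArith η) {m : ℕ} (h1 : 1 ≤ m) (hm : (m : ℝ) < α)
    (hm' : α < m + 1) (hi : Integrable (fun ξ => exp (α * ξ) * ξ) η) :
    ∃ (r : ℝ → ℝ) (C c : ℝ), 0 < c ∧ (∀ s, 0 ≤ r s) ∧ (∀ s, r s ≤ C * Rm m s) ∧
      Tendsto (fun δ => (∫ w, r (S δ w) ∂(Pm η)) / δ ^ α) (𝓝[>] 0) (𝓝 c) := by
  have hα := h.pos
  have := h.nu_prob
  have hμ := h.mu1_pos hi
  obtain ⟨n, hn⟩ := ((mu_tendsto hi).eventually (lt_mem_nhds hμ)).exists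
  have hiν : Integrable (fun ξ => ξ) (nu η α) := (h.integrable_nu _).2 hi
  set M := ∫ ξ, |ξ| ∂(nu η α) with hM
  have t1 : Tendsto (fun s => exp (-(α * s)) * M) atTop (𝓝 0) := by
    have := (tendsto_exp_atBot.comp (tendsto_neg_atTop_atBot.comp
      (tendsto_id.const_mul_atTop hα))).mul_const M
    simpa using this
  obtain ⟨s1, hs1⟩ := (t1.eventually (gt_mem_nhds hn)).exists
  set R := s1 + n with hR
  have hn0 : (0 : ℝ) ≤ n := Nat.cast_nonneg n
  set r : ℝ → ℝ := fun s => min (psi α s) (psi α R) with hr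
  have hr0 : ∀ s, 0 ≤ r s := fun s => le_min (psi_nonneg hα.le _) (psi_nonneg hα.le _)
  have hrR : ∀ s ≤ R, r s = psi α s := fun s hs => min_eq_left (psi_mono hα.le hs)
  have hsub : ∀ s, exp (α * s) - A η (fun s => exp (α * s)) (tau s) - r s =
      max (psi α s - psi α R) 0 := by
    intro s
    rw [h.A_exp, hr]
    rcases le_total (psi α s) (psi α R) with h2 | h2
    · simp only [min_eq_left h2]
      rw [max_eq_right (by linarith), psi]; ring
    · simp only [min_eq_right h2]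
      rw [max_eq_left (by linarith)]
      rfl
  obtain ⟨φ, hφ⟩ := exists_sol h (U := fun s => exp (α * s)) (r := r) (B := 1)
    h.sol_psi.mono (fun s => (exp_pos _).le) h.sol_psi.mono' h.sol_psi.le
    ((psi_mono hα.le).min monotone_const) hr0
    (by
      simp only [hsub]
      exact Monotone.max (fun a b hab => sub_le_sub_right (psi_mono hα.le hab) _) monotone_const)
    (fun s => by rw [hsub]; exact le_max_right _ _)
  set C := α * exp ((α - m) * R) * (1 + exp R) * (m + 1) with hC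
  have hC0 : 0 ≤ C := by positivity
  have hψ : ∀ s ≤ R, psi α s ≤ C * Rm m s := by
    intro s hs
    have a1 : psi α s ≤ α * (exp (α * s) * exp s) := exp_sub_exp_tau_le hα.le s
    have a2 : exp (α * s) * exp s ≤ exp ((α - m) * R) * exp s ^ (m + 1) := by
      rw [← exp_nat_mul, ← exp_add, ← exp_add]
      refine exp_le_exp.2 ?_
      push_cast
      nlinarith
    have a3 : exp s ^ (m + 1) ≤ (1 + exp R) * wf (m + 1) 1 s := by
      have := exp_pos s
      rw [wf, pow_one, ← mul_div_assoc, le_div_iff₀ (by positivity), mul_comm]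
      gcongr
    have a4 := wf_le_Rm m s
    calc psi α s ≤ α * (exp ((α - m) * R) * ((1 + exp R) * ((m + 1) * Rm m s))) := by
          refine a1.trans (mul_le_mul_of_nonneg_left (a2.trans (mul_le_mul_of_nonneg_left
            (a3.trans (mul_le_mul_of_nonneg_left a4 (by positivity))) (exp_pos _).le)) hα.le)
      _ = C * Rm m s := by rw [hC]; ring
  have hrC : ∀ s, r s ≤ C * Rm m s := by
    intro s
    rcases le_total s R with h2 | h2
    · exact (min_le_left _ _).trans (hψ s h2)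
    · exact (min_le_right _ _).trans ((hψ R le_rfl).trans
        (mul_le_mul_of_nonneg_left (Rm_mono m h2) hC0))
  have hg := gr_of_le h1 hm hm' hC0 hr0 hrC
  obtain ⟨w, hw1, hw2⟩ := hφ.limit_fin h hna hg hi
  have hfh := hφ.fh h hg
  have hJ1 : ∀ s ≤ s1, J (nu η α) (fun s => exp (-(α * s)) * φ s) s1 ≤
      J (nu η α) (fun s => exp (-(α * s)) * φ s) s := by
    intro s hs
    have a1 := hfh.flux s s1
    have a2 : 0 ≤ ∫ t in s..s1, (exp (-(α * t)) * φ t -
        ∫ ξ, exp (-(α * (t + ξ))) * φ (t + ξ) ∂(nu η α)) := by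
      refine intervalIntegral.integral_nonneg hs fun t ht => ?_
      rw [Sol.conv h, hφ.e_eq, hrR t (by linarith [ht.2])]
      have := hφ.A_incr h (tau_le t)
      exact mul_nonneg (exp_pos _).le (by unfold psi; linarith)
    linarith
  have hJ2 : 0 < J (nu η α) (fun s => exp (-(α * s)) * φ s) s1 := by
    refine lt_of_lt_of_le ?_ (hfh.J_ge s1 hn0)
    have hb : ∀ ξ : ℝ, |∫ t in s1..(s1 + min ξ n), exp (-(α * t)) * φ t| ≤ 1 * |min ξ (n : ℝ)| :=
      fun ξ => by simpa using hfh.bl.abs_int_le s1 (s1 + min ξ n)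
    have a1 : ∫ ξ, (min ξ n - exp (-(α * s1)) * |ξ|) ∂(nu η α) ≤
        ∫ ξ, (∫ t in s1..(s1 + min ξ n), exp (-(α * t)) * φ t) ∂(nu η α) := by
      refine integral_mono ((hfh.intmin n hn0).sub (hiν.abs.const_mul _))
        (Integrable.mono' ((hfh.intmin n hn0).abs.const_mul 1)
          ((hfh.bl.cont_prim s1).comp (continuous_id.min continuous_const)).aestronglyMeasurable
          (ae_of_all _ hb)) fun ξ => ?_
      have b0 : 0 ≤ exp (-(α * s1)) * |ξ| := by positivity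
      rcases le_total ξ 0 with hξ | hξ
      · have b1 := (abs_le.1 (hb ξ)).1
        have b2 : min ξ n ≤ 0 := (min_le_left _ _).trans hξ
        rw [abs_of_nonpos b2] at b1
        simp only
        linarith
      · have b2 : 0 ≤ min ξ (n : ℝ) := le_min hξ hn0
        have b3 : ∫ _t in s1..(s1 + min ξ n), (1 - exp (-(α * s1))) ≤
            ∫ t in s1..(s1 + min ξ n), exp (-(α * t)) * φ t := by
          refine intervalIntegral.integral_mono_on (by linarith) intervalIntegrable_const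
            (hfh.bl.ii _ _) fun t ht => ?_
          have c1 : t ≤ R := ht.2.trans (by linarith [min_le_right ξ (n : ℝ)])
          have c2 : psi α t ≤ φ t := by
            rw [hφ.eq t, hrR t c1]; linarith [A_nonneg (η := η) hφ.nonneg (tau t)]
          have c3 : exp (α * tau t) ≤ 1 := exp_le_one_iff.2 (by nlinarith [tau_nonpos t])
          have c4 : exp (-(α * t)) * exp (α * t) = 1 := by rw [← exp_add]; simp
          have c5 : exp (-(α * t)) ≤ exp (-(α * s1)) := exp_le_exp.2 (by nlinarith [ht.1])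
          have c6 : exp (α * t) - 1 ≤ φ t := by unfold psi at c2; linarith
          nlinarith [mul_le_mul_of_nonneg_left c6 (exp_pos (-(α * t))).le]
        simp only [intervalIntegral.integral_const, add_sub_cancel_left, smul_eq_mul] at b3
        have b4 : min ξ (n : ℝ) ≤ |ξ| := (min_le_left _ _).trans (le_abs_self _)
        have b5 := mul_le_mul_of_nonneg_left b4 (exp_pos (-(α * s1))).le
        simp only
        nlinarith
    refine lt_of_lt_of_le ?_ a1
    rw [integral_sub (hfh.intmin n hn0) (hiν.abs.const_mul _), integral_const_mul,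
      h.integral_nu]
    unfold mu at hs1
    linarith
  have hw0 : 0 < w := by
    have a1 : J (nu η α) (fun s => exp (-(α * s)) * φ s) s1 ≤ (∫ ξ, exp (α * ξ) * ξ ∂η) * w :=
      ge_of_tendsto hw2 ((eventually_le_atBot s1).mono hJ1)
    exact (mul_pos_iff_of_pos_left hμ).1 (hJ2.trans_le a1)
  exact ⟨r, C, w * K η α, mul_pos hw0 h.K_pos, hr0, hrC, hφ.transfer h hw1⟩

lemma Hyp.rem_frac (h : Hyp η α) (hna : NonArith η) {m : ℕ} (h1 : 1 ≤ m) (hm : (m : ℝ) < α)
    (hm' : α < m + 1) {r : ℝ → ℝ} {C : ℝ} (hC : 0 ≤ C) (hr : Monotone r) (hr0 : ∀ s, 0 ≤ r s)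
    (h2 : Monotone fun s => C * Rm m s - r s) (h3 : ∀ s, r s ≤ C * Rm m s) :
    ∃ c : ℝ, 0 ≤ c ∧ (¬ Integrable (fun ξ => exp (α * ξ) * ξ) η → c = 0) ∧
      Tendsto (fun δ => (∫ w, r (S δ w) ∂(Pm η)) / δ ^ α) (𝓝[>] 0) (𝓝 c) := by
  obtain ⟨φ, B, hφ⟩ := h.exists_sol' hm hm' hC hr hr0 h2 h3
  have hg := gr_of_le h1 hm hm' hC hr0 h3
  by_cases hi : Integrable (fun ξ => exp (α * ξ) * ξ) η
  · obtain ⟨w, hw, _⟩ := hφ.limit_fin h hna hg hi
    exact ⟨w * K η α, mul_nonneg (hφ.limit_nonneg hw) h.K_pos.le, fun h0 => absurd hi h0,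
      hφ.transfer h hw⟩
  · refine ⟨0, le_rfl, fun _ => rfl, ?_⟩
    simpa using hφ.transfer h (hφ.limit_inf h hna hg hi)

lemma littleO_of_tendsto {F : ℝ → ℝ} {c : ℝ}
    (h : Tendsto (fun δ => F δ / δ ^ α) (𝓝[>] 0) (𝓝 c)) :
    (fun δ => F δ - c * δ ^ α) =o[𝓝[>] 0] fun δ => δ ^ α := by
  refine (isLittleO_iff_tendsto' ?_).2 ?_
  · filter_upwards [self_mem_nhdsWithin] with δ hδ h4
    exact absurd h4 (rpow_pos_of_pos hδ α).ne'
  · have t2 := h.sub_const c
    rw [sub_self] at t2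
    refine t2.congr' ?_
    filter_upwards [self_mem_nhdsWithin] with δ hδ
    have hδα : 0 < δ ^ α := rpow_pos_of_pos hδ α
    field_simp

lemma rpow_tendsto {a : ℝ} (ha : 0 < a) : Tendsto (fun δ : ℝ => δ ^ a) (𝓝[>] 0) (𝓝 0) := by
  have t1 : Tendsto (fun δ : ℝ => δ) (𝓝[>] 0) (𝓝 0) := tendsto_id.mono_left nhdsWithin_le_nhds
  have := t1.rpow_const (p := a) (Or.inr ha.le)
  rwa [zero_rpow ha.ne'] at this

theorem Hyp.q1 (h : Hyp η α) (hna : NonArith η) {m : ℕ} (h1 : 1 ≤ m) (hm : (m : ℝ) < α)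
    (hm' : α < m + 1) :
    ∃ ℓ : ℕ → ℝ, (∀ k, 1 ≤ k → k ≤ m → 0 < ℓ k) ∧ ∃ C : ℝ, 0 ≤ C ∧
      (0 < C ↔ Integrable (fun ξ => exp (α * ξ) * ξ) η) ∧
      (fun δ => Lam η δ - ∑ k ∈ Finset.Icc 1 m, (-1) ^ (k + 1) * ℓ k * δ ^ k -
        (-1) ^ m * C * δ ^ α) =o[𝓝[>] 0] fun δ => δ ^ α := by
  classical
  have hσ1 : (fun δ : ℝ => δ ^ (m + 1)) =o[𝓝[>] 0] fun δ => δ ^ α := by
    have a1 : (fun δ : ℝ => δ ^ ((m : ℝ) + 1 - α)) =o[𝓝[>] 0] fun _ => (1 : ℝ) :=
      (isLittleO_one_iff ℝ).2 (rpow_tendsto (by linarith))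
    refine (a1.mul_isBigO (isBigO_refl (fun δ : ℝ => δ ^ α) _)).congr' ?_
      (Eventually.of_forall fun δ => one_mul _)
    filter_upwards [self_mem_nhdsWithin] with δ hδ
    rw [← rpow_add hδ, ← rpow_natCast]; push_cast; ring_nf
  have hσ2 : (fun δ : ℝ => δ ^ α) =O[𝓝[>] 0] fun δ => δ ^ m := by
    have a1 := (rpow_tendsto (a := α - m) (by linarith)).isBigO_one ℝ
    refine (a1.mul (isBigO_refl (fun δ : ℝ => δ ^ m) _)).congr' ?_
      (Eventually.of_forall fun δ => one_mul _)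
    filter_upwards [self_mem_nhdsWithin] with δ hδ
    rw [← rpow_natCast, ← rpow_add hδ]; ring_nf
  obtain ⟨c0, hc0, hc1, hc2⟩ := h.rem_frac hna h1 hm hm' (r := Rm m) (C := 1) zero_le_one
    (Rm_mono m) (Rm_nonneg m) (by simpa using monotone_const) (fun s => by simp)
  obtain ⟨ℓ, hℓ, c, hc, hfin⟩ := h.expansion hm
    (z := if Integrable (fun ξ => exp (α * ξ) * ξ) η then 1 else 0) (c0 := c0) hσ1 hσ2
    (rpow_tendsto h.pos) (fun b hb1 hb2 => by
      have a0 : ∀ s, wf (m + 1) b s ≤ (m + 1) * Rm m s := fun s => by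
        refine le_trans ?_ (wf_le_Rm m s)
        unfold wf
        gcongr
        linarith [exp_pos s]
      obtain ⟨c, a1, a2, a3⟩ := h.rem_frac hna h1 hm hm' (r := wf (m + 1) b) (C := m + 1)
        (by positivity) (wf_mono (by omega)) (fun s => (wf_pos _ _ s).le)
        (Rm_sub_wf_mono m hb1) a0
      refine ⟨c, a1, ?_⟩
      have e : (if Integrable (fun ξ => exp (α * ξ) * ξ) η then (1 : ℝ) else 0) * c = c := by
        split_ifs with hi
        · exact one_mul c
        · rw [a2 hi, mul_zero]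
      rw [e]
      exact littleO_of_tendsto a3) (littleO_of_tendsto hc2)
  refine ⟨ℓ, hℓ, _, ?_, ?_, hfin⟩
  · split_ifs <;> positivity
  · constructor
    · intro hpos
      by_contra hi
      rw [if_neg hi, hc1 hi] at hpos
      simp at hpos
    · intro hi
      rw [if_pos hi]
      obtain ⟨r, C, c', b1, b2, b3, b4⟩ := h.exists_pos hna h1 hm hm' hi
      have b5 : c' ≤ C * c0 := by
        refine le_of_tendsto_of_tendsto b4 (hc2.const_mul C) ?_
        filter_upwards [Ioc_mem_nhdsGT (zero_lt_one' ℝ)] with δ hδ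
        have := integral_mono_of_nonneg (ae_of_all _ fun w => b2 (S δ w))
          ((h.int_Rm hδ.1 hδ.2 hm.le).const_mul C) (ae_of_all _ fun w => b3 (S δ w))
        rw [integral_const_mul] at this
        have hδα : 0 < δ ^ α := rpow_pos_of_pos hδ.1 α
        rw [← mul_div_assoc]
        gcongr
      have b6 : 0 < c0 := by
        rcases hc0.lt_or_eq with h0 | h0
        · exact h0
        · rw [← h0, mul_zero] at b5; linarith
      positivity

end Pool.Agent.H653Z.DH
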