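import Mathlib

/-!
# Asymptotically harmonic functions of a non-arithmetic random walk vary slowly
-/

open Set Filter Topology MeasureTheory ProbabilityTheory Real

namespace Pool.Agent.H653Z.DH

/-- bounded Lipschitz functions -/
structure BL (u : ℝ → ℝ) (B L : ℝ) : Prop where
  bd : ∀ s, |u s| ≤ B
  lip : ∀ s t, |u s - u t| ≤ L * |s - t|

namespace BL

variable {u : ℝ → ℝ} {B L : ℝ}

lemma L_nonneg (h : BL u B L) : 0 ≤ L := by
  have := (abs_nonneg _).trans (h.lip 1 0)
  simpa using this

lemma B_nonneg (h : BL u B L) : 0 ≤ B := (abs_nonneg _).trans (h.bd 0)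

lemma continuous (h : BL u B L) : Continuous u := by
  have : LipschitzWith ⟨L, h.L_nonneg⟩ u := LipschitzWith.of_dist_le_mul fun s t => by
    rw [Real.dist_eq, Real.dist_eq]
    exact h.lip s t
  exact this.continuous

lemma int (h : BL u B L) (ν : Measure ℝ) [IsProbabilityMeasure ν] (s : ℝ) :
    Integrable (fun ξ => u (s + ξ)) ν := by
  refine Integrable.mono' (integrable_const B)
    (h.continuous.comp (continuous_const.add continuous_id)).aestronglyMeasurable ?_
  filter_upwards with ξ
  exact h.bd _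

lemma neg (h : BL u B L) : BL (fun s => - u s) B L :=
  ⟨fun s => by simpa using h.bd s, fun s t => by
    rw [show -u s - -u t = -(u s - u t) by ring, abs_neg]; exact h.lip s t⟩

lemma diff (h : BL u B L) (a : ℝ) : BL (fun s => u (s + a) - u s) (2 * B) (2 * L) := by
  refine ⟨fun s => ?_, fun s t => ?_⟩
  · have := abs_sub (u (s + a)) (u s)
    linarith [h.bd (s + a), h.bd s]
  · have h1 := h.lip (s + a) (t + a)
    have h2 := h.lip s t
    rw [show s + a - (t + a) = s - t by ring] at h1
    have := abs_sub (u (s + a) - u (t + a)) (u s - u t)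
    rw [show u (s + a) - u s - (u (t + a) - u t) = u (s + a) - u (t + a) - (u s - u t) by ring]
    linarith

end BL

variable {ν : Measure ℝ} [IsProbabilityMeasure ν]

lemma tendsto_add_atBot (a : ℝ) : Tendsto (fun s : ℝ => s + a) atBot atBot :=
  tendsto_atBot_add_const_right _ a tendsto_id

lemma step_max {d : ℝ → ℝ} {D L M a : ℝ} (hd : BL d D L)
    (hh : Tendsto (fun s => d s - ∫ ξ, d (s + ξ) ∂ν) atBot (𝓝 0))
    (hM : ∀ θ > 0, ∀ᶠ s in atBot, d s < M + θ) (ha : a ∈ ν.support)
    {F : Filter ℝ} (hF : F ≤ atBot) (hFM : Tendsto d F (𝓝 M)) :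
    Tendsto (fun s => d (s + a)) F (𝓝 M) := by
  have hc := hd.continuous
  have hN : Tendsto (fun s => ∫ ξ, max (d (s + ξ) - M) 0 ∂ν) atBot (𝓝 0) := by
    have := tendsto_integral_filter_of_dominated_convergence (μ := ν) (l := atBot)
      (F := fun s ξ => max (d (s + ξ) - M) 0) (f := fun _ => (0 : ℝ)) (fun _ => D + |M|)
      (Eventually.of_forall fun s => by fun_prop)
      (Eventually.of_forall fun s => ae_of_all _ fun ξ => ?_) (integrable_const _)
      (ae_of_all _ fun ξ => ?_)
    · simpa using this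
    · have h1 := abs_le.1 (hd.bd (s + ξ))
      have h2 := neg_abs_le M
      have h3 := hd.B_nonneg
      rw [Real.norm_eq_abs, abs_of_nonneg (le_max_right _ _)]
      exact max_le (by linarith) (by positivity)
    · rw [tendsto_order]
      refine ⟨fun b hb => Eventually.of_forall fun s => hb.trans_le (le_max_right _ _),
        fun b hb => ?_⟩
      filter_upwards [(tendsto_add_atBot ξ).eventually (hM b hb)] with s hs
      exact max_lt (by linarith) hb
  have hi1 : ∀ s, Integrable (fun ξ => max (d (s + ξ) - M) 0) ν := fun s =>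
    ((hd.int ν s).sub (integrable_const M)).sup (integrable_const 0)
  have hi2 : ∀ s, Integrable (fun ξ => max (M - d (s + ξ)) 0) ν := fun s =>
    ((integrable_const M).sub (hd.int ν s)).sup (integrable_const 0)
  have hP : ∀ s, ∫ ξ, max (M - d (s + ξ)) 0 ∂ν =
      (M - d s) + (d s - ∫ ξ, d (s + ξ) ∂ν) + ∫ ξ, max (d (s + ξ) - M) 0 ∂ν := by
    intro s
    have h1 : ∀ ξ, max (M - d (s + ξ)) 0 = (M - d (s + ξ)) + max (d (s + ξ) - M) 0 := by
      intro ξ
      rcases le_total M (d (s + ξ)) with h | h
      · rw [max_eq_right (by linarith), max_eq_left (by linarith)]; ring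
      · rw [max_eq_left (by linarith), max_eq_right (by linarith)]; ring
    have h2 : Integrable (fun ξ => M - d (s + ξ)) ν := (integrable_const M).sub (hd.int ν s)
    simp only [h1]
    rw [integral_add h2 (hi1 s), integral_sub (integrable_const M) (hd.int ν s)]
    simp
  have hP0 : Tendsto (fun s => ∫ ξ, max (M - d (s + ξ)) 0 ∂ν) F (𝓝 0) := by
    simp only [hP]
    have := ((hFM.const_sub M).add (hh.mono_left hF)).add (hN.mono_left hF)
    simpa using this
  rw [tendsto_order]
  constructor
  · intro b hb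
    have hL := hd.L_nonneg
    set ρ := (M - b) / (2 * (L + 1)) with hρ
    have hρ0 : 0 < ρ := by
      have : 0 < M - b := by linarith
      positivity
    have hLρ : L * ρ ≤ (M - b) / 2 := by
      have : (L + 1) * ρ = (M - b) / 2 := by rw [hρ]; field_simp
      nlinarith
    have hp : 0 < ν.real (Metric.ball a ρ) := by
      have := (Measure.mem_support_iff_forall a).1 ha _ (Metric.ball_mem_nhds a hρ0)
      exact ENNReal.toReal_pos this.ne' (measure_ne_top _ _)
    have hlow : ∀ s, ν.real (Metric.ball a ρ) * (M - d (s + a) - L * ρ) ≤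
        ∫ ξ, max (M - d (s + ξ)) 0 ∂ν := by
      intro s
      have h1 : ∫ ξ, (Metric.ball a ρ).indicator (fun _ => M - d (s + a) - L * ρ) ξ ∂ν =
          ν.real (Metric.ball a ρ) * (M - d (s + a) - L * ρ) := by
        rw [integral_indicator measurableSet_ball]; simp
      rw [← h1]
      refine integral_mono ((integrable_const _).indicator measurableSet_ball) (hi2 s) fun ξ => ?_
      by_cases hξ : ξ ∈ Metric.ball a ρ
      · rw [indicator_of_mem hξ]
        refine le_max_of_le_left ?_
        have h2 := hd.lip (s + ξ) (s + a)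
        rw [show s + ξ - (s + a) = ξ - a by ring] at h2
        have h3 : |ξ - a| ≤ ρ := by
          rw [Metric.mem_ball, Real.dist_eq] at hξ; exact hξ.le
        have h4 := (le_abs_self _).trans (h2.trans (mul_le_mul_of_nonneg_left h3 hL))
        linarith
      · rw [indicator_of_notMem hξ]; exact le_max_right _ _
    have hpos : 0 < ν.real (Metric.ball a ρ) * ((M - b) / 2) := by
      have : 0 < M - b := by linarith
      positivity
    filter_upwards [hP0.eventually (gt_mem_nhds hpos)] with s hs
    have h1 := (hlow s).trans_lt hs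
    have h2 := lt_of_mul_lt_mul_left h1 hp.le
    linarith
  · intro b hb
    filter_upwards [hF ((tendsto_add_atBot a).eventually (hM (b - M) (by linarith)))] with s hs
    linarith

lemma limsup_nonpos {d : ℝ → ℝ} {D L a K : ℝ} (hd : BL d D L)
    (hh : Tendsto (fun s => d s - ∫ ξ, d (s + ξ) ∂ν) atBot (𝓝 0)) (ha : a ∈ ν.support)
    (hK : ∀ (n : ℕ) s, ∑ k ∈ Finset.range n, d (s + k * a) ≤ K) :
    ∀ θ > 0, ∀ᶠ s in atBot, d s < θ := by
  have hb1 : IsBoundedUnder (· ≤ ·) atBot d :=
    isBoundedUnder_of ⟨D, fun s => (le_abs_self _).trans (hd.bd s)⟩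
  have hb2 : IsBoundedUnder (· ≥ ·) atBot d :=
    isBoundedUnder_of ⟨-D, fun s => (abs_le.1 (hd.bd s)).1⟩
  set M := limsup d atBot with hMdef
  have hM : ∀ θ > 0, ∀ᶠ s in atBot, d s < M + θ := fun θ hθ =>
    eventually_lt_of_limsup_lt (by linarith) hb1
  have hcl : MapClusterPt M atBot d := MapClusterPt.limsup hb2.isCoboundedUnder_le hb1
  set F : Filter ℝ := atBot ⊓ comap d (𝓝 M) with hF
  have : F.NeBot := by
    have := (mapClusterPt_def.1 hcl).neBot
    rw [inf_comm, ← Filter.push_pull, map_neBot_iff] at this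
    exact this
  have hk : ∀ k : ℕ, Tendsto (fun s => d (s + k * a)) F (𝓝 M) := by
    intro k
    induction k with
    | zero => simpa using (tendsto_comap.mono_left inf_le_right : Tendsto d F (𝓝 M))
    | succ k ih =>
      have h1 : map (fun s => s + k * a) F ≤ atBot :=
        (tendsto_add_atBot (k * a)).mono_left inf_le_left
      have h2 := step_max hd hh hM ha h1 (by rw [tendsto_map'_iff]; exact ih)
      rw [tendsto_map'_iff] at h2
      refine h2.congr fun s => ?_
      simp only [Function.comp]
      push_cast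
      ring_nf
  have hn : ∀ n : ℕ, (n : ℝ) * M ≤ K := by
    intro n
    have h1 := tendsto_finsetSum (Finset.range n) fun k _ => hk k
    simp only [Finset.sum_const, Finset.card_range, nsmul_eq_mul] at h1
    exact le_of_tendsto' h1 (hK n)
  have hM0 : M ≤ 0 := by
    by_contra hc
    push Not at hc
    obtain ⟨n, hn'⟩ := exists_nat_gt (K / M)
    rw [div_lt_iff₀ hc] at hn'
    linarith [hn n]
  intro θ hθ
  filter_upwards [hM θ hθ] with s hs
  linarith

lemma slow_supp {u : ℝ → ℝ} {B L a : ℝ} (hu : BL u B L)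
    (hh : Tendsto (fun s => u s - ∫ ξ, u (s + ξ) ∂ν) atBot (𝓝 0)) (ha : a ∈ ν.support) :
    ∀ θ > 0, ∀ᶠ s in atBot, u (s + a) - u s < θ := by
  refine limsup_nonpos (hu.diff a) ?_ ha (K := 2 * B) ?_
  · have h1 := (hh.comp (tendsto_add_atBot a)).sub hh
    rw [sub_zero] at h1
    refine h1.congr fun s => ?_
    simp only [Function.comp]
    have h2 : ∀ ξ, s + ξ + a = s + a + ξ := fun ξ => by ring
    simp only [h2]
    rw [integral_sub (hu.int ν (s + a)) (hu.int ν s)]
    ring
  · intro n s
    have h1 : ∑ k ∈ Finset.range n, (u (s + k * a + a) - u (s + k * a)) =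
        u (s + n * a) - u (s + (0 : ℕ) * a) := by
      rw [← Finset.sum_range_sub (fun k : ℕ => u (s + k * a))]
      refine Finset.sum_congr rfl fun k _ => ?_
      push_cast
      ring_nf
    rw [h1]
    linarith [(abs_le.1 (hu.bd (s + n * a))).2, (abs_le.1 (hu.bd (s + (0 : ℕ) * a))).1]

theorem slow {u : ℝ → ℝ} {B L : ℝ} (hu : BL u B L)
    (hh : Tendsto (fun s => u s - ∫ ξ, u (s + ξ) ∂ν) atBot (𝓝 0))
    (hna : ¬ ∃ c : ℝ, 0 < c ∧ ∀ᵐ ξ ∂ν, ∃ k : ℤ, c * ξ = k) (t : ℝ) :
    Tendsto (fun s => u (s + t) - u s) atBot (𝓝 0) := by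
  let G : AddSubgroup ℝ :=
    { carrier := {t | Tendsto (fun s => u (s + t) - u s) atBot (𝓝 0)}
      zero_mem' := by simp
      add_mem' := by
        intro a b ha hb
        have := (Tendsto.comp hb (tendsto_add_atBot a)).add ha
        rw [add_zero] at this
        refine this.congr fun s => ?_
        simp only [Function.comp, add_assoc]
        ring
      neg_mem' := by
        intro a ha
        have := (Tendsto.comp ha (tendsto_add_atBot (-a))).neg
        rw [neg_zero] at this
        refine this.congr fun s => ?_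
        simp }
  have hsupp : ∀ a ∈ ν.support, a ∈ G := by
    intro a ha
    show Tendsto (fun s => u (s + a) - u s) atBot (𝓝 0)
    rw [tendsto_order]
    refine ⟨fun b hb => ?_, slow_supp hu hh ha⟩
    have h1 : Tendsto (fun s => -u s - ∫ ξ, -u (s + ξ) ∂ν) atBot (𝓝 0) := by
      have := hh.neg
      rw [neg_zero] at this
      refine this.congr fun s => ?_
      rw [integral_neg]; ring
    filter_upwards [slow_supp hu.neg h1 ha (-b) (by linarith)] with s hs
    linarith
  rcases G.dense_or_cyclic with hden | ⟨a, ha⟩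
  · rw [Metric.tendsto_nhds]
    intro θ hθ
    have hL := hu.L_nonneg
    obtain ⟨g, hg1, hg2⟩ := hden.exists_dist_lt t (ε := θ / (2 * (L + 1))) (by positivity)
    have hg3 : Tendsto (fun s => u (s + g) - u s) atBot (𝓝 0) := hg1
    filter_upwards [Metric.tendsto_nhds.1 hg3 (θ / 2) (by positivity)] with s hs
    rw [Real.dist_eq, sub_zero] at hs ⊢
    rw [Real.dist_eq] at hg2
    have h1 := hu.lip (s + t) (s + g)
    rw [show s + t - (s + g) = t - g by ring] at h1
    have h2 : L * |t - g| ≤ θ / 2 := by
      have h3 : (L + 1) * (θ / (2 * (L + 1))) = θ / 2 := by field_simp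
      nlinarith [abs_nonneg (t - g)]
    have h4 := abs_add_le (u (s + t) - u (s + g)) (u (s + g) - u s)
    rw [show u (s + t) - u (s + g) + (u (s + g) - u s) = u (s + t) - u s by ring] at h4
    linarith
  · exfalso
    apply hna
    have hmem : ∀ᵐ ξ ∂ν, ∃ k : ℤ, k * a = ξ := by
      filter_upwards [Measure.support_mem_ae (μ := ν)] with ξ hξ
      have := hsupp ξ hξ
      rw [ha, AddSubgroup.mem_closure_singleton] at this
      simpa using this
    rcases lt_trichotomy a 0 with h | h | h
    · refine ⟨-1 / a, div_pos_of_neg_of_neg (by norm_num) h, ?_⟩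
      filter_upwards [hmem] with ξ ⟨k, hk⟩
      refine ⟨-k, ?_⟩
      rw [← hk]; push_cast; field_simp [h.ne]
    · refine ⟨1, one_pos, ?_⟩
      filter_upwards [hmem] with ξ ⟨k, hk⟩
      exact ⟨0, by rw [← hk, h]; simp⟩
    · refine ⟨1 / a, by positivity, ?_⟩
      filter_upwards [hmem] with ξ ⟨k, hk⟩
      refine ⟨k, ?_⟩
      rw [← hk]; field_simp

end Pool.Agent.H653Z.DH
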