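import Pool.Agent.H653Z.DH.Fun

/-!
# A supersolution in the non-integer case
-/

open Set Filter Topology MeasureTheory ProbabilityTheory Real

namespace Pool.Agent.H653Z.DH

variable {η : Measure ℝ} [IsProbabilityMeasure η] {α : ℝ}

lemma int_trunc {β : ℝ} (hβ : 0 ≤ β) (T : ℝ) :
    Integrable (fun ξ => (Iic T).indicator (fun ξ => exp (β * ξ)) ξ) η := by
  refine Integrable.mono' (integrable_const (exp (β * T)))
    (((by fun_prop : Measurable fun ξ => exp (β * ξ)).indicator
      measurableSet_Iic).aestronglyMeasurable) (ae_of_all _ fun ξ => ?_)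
  by_cases hξ : ξ ∈ Iic T
  · rw [indicator_of_mem hξ, Real.norm_eq_abs, abs_of_pos (exp_pos _)]
    exact exp_le_exp.2 (mul_le_mul_of_nonneg_left hξ hβ)
  · rw [indicator_of_notMem hξ, norm_zero]; exact (exp_pos _).le

lemma Hyp.exists_trunc (h : Hyp η α) {β : ℝ} (hβ : α < β) :
    ∃ T : ℝ, 0 ≤ T ∧ 1 < ∫ ξ, (Iic T).indicator (fun ξ => exp (β * ξ)) ξ ∂η := by
  have hα := h.pos
  have hβ0 : 0 < β := hα.trans hβ
  set g : ℝ → ℝ := fun ξ => 1 + β / α * (exp (α * ξ) - 1) with hg
  have hgi : Integrable g η :=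
    (integrable_const _).add ((h.int.sub (integrable_const _)).const_mul _)
  have hg1 : ∫ ξ, g ξ ∂η = 1 := by
    have hi2 : Integrable (fun ξ => β / α * (exp (α * ξ) - 1)) η :=
      (h.int.sub (integrable_const _)).const_mul _
    rw [hg, integral_add (integrable_const _) hi2, integral_const_mul,
      integral_sub h.int (integrable_const _), h.mean]
    simp
  have key : ∀ ξ, ξ ≠ 0 → g ξ < exp (β * ξ) := by
    intro ξ hξ
    have h1 := exp_conc (div_pos hα hβ0) ((div_lt_one hβ0).2 hβ) (mul_ne_zero hβ0.ne' hξ)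
    rw [show α / β * (β * ξ) = α * ξ by field_simp] at h1
    have h2 : β / α * (exp (α * ξ) - 1) < β / α * (α / β * (exp (β * ξ) - 1)) :=
      mul_lt_mul_of_pos_left (by linarith) (div_pos hβ0 hα)
    rw [show β / α * (α / β * (exp (β * ξ) - 1)) = exp (β * ξ) - 1 by field_simp] at h2
    simp only [hg]
    linarith
  have key' : ∀ ξ, g ξ ≤ exp (β * ξ) := fun ξ => by
    by_cases hξ : ξ = 0
    · simp [hg, hξ]
    · exact (key ξ hξ).le
  set k : ℕ → ℝ → ℝ := fun n ξ => (Iic (n : ℝ)).indicator (fun ξ => exp (β * ξ)) ξ -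
    (Iic (n : ℝ)).indicator g ξ with hk
  have hki : ∀ n, Integrable (k n) η := fun n =>
    (int_trunc hβ0.le n).sub (hgi.indicator measurableSet_Iic)
  have hk0 : ∀ n ξ, 0 ≤ k n ξ := fun n ξ => by
    by_cases hξ : ξ ∈ Iic (n : ℝ)
    · simp only [hk, indicator_of_mem hξ]; linarith [key' ξ]
    · simp only [hk, indicator_of_notMem hξ]; linarith
  have hkm : ∀ a b : ℕ, a ≤ b → ∀ ξ, k a ξ ≤ k b ξ := fun a b hab ξ => by
    by_cases hξ : ξ ∈ Iic (a : ℝ)
    · have hξ' : ξ ∈ Iic (b : ℝ) := le_trans (mem_Iic.1 hξ) (Nat.cast_le.2 hab)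
      simp only [hk, indicator_of_mem hξ, indicator_of_mem hξ', le_refl]
    · have := hk0 b ξ
      simp only [hk, indicator_of_notMem hξ, sub_zero] at this ⊢
      exact this
  obtain ⟨n0, hn0⟩ : ∃ n0, 0 < ∫ ξ, k n0 ξ ∂η := by
    by_contra hc
    push Not at hc
    apply h.nondeg
    have h1 : ∀ n, ∀ᵐ ξ ∂η, k n ξ = 0 := fun n =>
      (integral_eq_zero_iff_of_nonneg (hk0 n) (hki n)).1
        (le_antisymm (hc n) (integral_nonneg (hk0 n)))
    filter_upwards [ae_all_iff.2 h1] with ξ hξ
    by_contra hne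
    obtain ⟨n, hn⟩ := exists_nat_ge ξ
    have h2 := hξ n
    simp only [hk, indicator_of_mem (show ξ ∈ Iic (n : ℝ) from hn)] at h2
    linarith [key ξ hne]
  have t1 : Tendsto (fun n : ℕ => ∫ ξ, (Iic (n : ℝ)).indicator g ξ ∂η) atTop (𝓝 1) := by
    rw [← hg1]
    refine tendsto_integral_of_dominated_convergence (fun ξ => ‖g ξ‖)
      (fun n => (hgi.indicator measurableSet_Iic).aestronglyMeasurable) hgi.norm
      (fun n => ae_of_all _ fun ξ => norm_indicator_le_norm_self _ _) (ae_of_all _ fun ξ => ?_)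
    refine tendsto_const_nhds.congr' ?_
    obtain ⟨N, hN⟩ := exists_nat_ge ξ
    filter_upwards [eventually_ge_atTop N] with n hn
    rw [indicator_of_mem (show ξ ∈ Iic (n : ℝ) from hN.trans (by exact_mod_cast hn))]
  obtain ⟨n, h1, h2⟩ := ((t1.eventually (lt_mem_nhds
    (show 1 - ∫ ξ, k n0 ξ ∂η < 1 by linarith))).and (eventually_ge_atTop n0)).exists
  refine ⟨n, Nat.cast_nonneg n, ?_⟩
  have h3 := integral_mono (hki n0) (hki n) (hkm n0 n h2)
  have h4 : ∫ ξ, k n ξ ∂η = ∫ ξ, (Iic (n : ℝ)).indicator (fun ξ => exp (β * ξ)) ξ ∂η -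
      ∫ ξ, (Iic (n : ℝ)).indicator g ξ ∂η :=
    integral_sub (int_trunc hβ0.le n) (hgi.indicator measurableSet_Iic)
  linarith

lemma monoOn_of_deriv {D : Set ℝ} (hD : Convex ℝ D) {f f' : ℝ → ℝ}
    (h : ∀ s, HasDerivAt f (f' s) s) (h0 : ∀ s ∈ D, 0 ≤ f' s) : MonotoneOn f D :=
  monotoneOn_of_deriv_nonneg hD (fun s _ => (h s).continuousAt.continuousWithinAt)
    (fun s _ => (h s).differentiableAt.differentiableWithinAt) fun s hs => by
      rw [(h s).deriv]; exact h0 s (interior_subset hs)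

/-- `min (y ^ β) (y ^ α)` -/
noncomputable def ph (α β s : ℝ) : ℝ := min (exp (β * s)) (exp (α * s))

lemma ph_mono {β : ℝ} (hα : 0 ≤ α) (hβ : 0 ≤ β) : Monotone (ph α β) := fun _ _ hab =>
  min_le_min (exp_le_exp.2 (mul_le_mul_of_nonneg_left hab hβ))
    (exp_le_exp.2 (mul_le_mul_of_nonneg_left hab hα))

lemma ph_nonneg (β s : ℝ) : 0 ≤ ph α β s := le_min (exp_pos _).le (exp_pos _).le

lemma ph_le (β s : ℝ) : ph α β s ≤ 1 * exp (α * s) := by
  rw [one_mul]; exact min_le_right _ _

lemma ph_of_nonpos {β s : ℝ} (h : α ≤ β) (hs : s ≤ 0) : ph α β s = exp (β * s) :=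
  min_eq_left (exp_le_exp.2 (by nlinarith))

lemma ph_of_nonneg {β s : ℝ} (h : α ≤ β) (hs : 0 ≤ s) : ph α β s = exp (α * s) :=
  min_eq_right (exp_le_exp.2 (by nlinarith))

lemma sub_ph_mono {β a : ℝ} (hα : 0 < α) (h : α ≤ β) (ha : β ≤ a * α) :
    Monotone fun s => a * exp (α * s) - ph α β s := by
  have ha1 : 1 ≤ a := by
    by_contra hc
    push Not at hc
    nlinarith
  refine MonotoneOn.Iic_union_Ici (a := 0) ?_ ?_
  · refine MonotoneOn.congr (f₁ := fun s => a * exp (α * s) - exp (β * s)) ?_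
      fun s hs => by simp only [ph_of_nonpos h hs]
    refine monoOn_of_deriv (convex_Iic 0) (fun s => ((hasDerivAt_expmul α s).const_mul a).sub
      (hasDerivAt_expmul β s)) fun s hs => ?_
    have h1 : exp (β * s) ≤ exp (α * s) := exp_le_exp.2 (by nlinarith [mem_Iic.1 hs])
    have h2 := exp_pos (β * s)
    nlinarith
  · refine MonotoneOn.congr (f₁ := fun s => (a - 1) * exp (α * s)) ?_
      fun s hs => by simp only [ph_of_nonneg h hs]; ring
    intro x _ y _ hxy
    exact mul_le_mul_of_nonneg_left (exp_le_exp.2 (mul_le_mul_of_nonneg_left hxy hα.le))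
      (by linarith)

lemma exp_mul_tendsto {a : ℝ} (ha : 0 < a) : Tendsto (fun s => exp (a * s)) atBot (𝓝 0) :=
  tendsto_exp_atBot.comp (tendsto_id.const_mul_atBot ha)

theorem Hyp.super (h : Hyp η α) {m : ℕ} (hm : (m : ℝ) < α) (hm' : α < m + 1) :
    ∃ a c : ℝ, 0 < c ∧ (m : ℝ) + 1 ≤ a * α ∧
      Monotone fun s => a * psi α s - ph α (m + 1) s + A η (ph α (m + 1)) (tau s) - c * Rm m s := by
  have hα := h.pos
  have hβ : (0 : ℝ) < m + 1 := by positivity
  obtain ⟨T, hT, hq⟩ := h.exists_trunc hm'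
  set q := ∫ ξ, (Iic T).indicator (fun ξ => exp (((m : ℝ) + 1) * ξ)) ξ ∂η with hqdef
  set c := ((m : ℝ) + 1) * (q - 1) / 2 with hc
  have hc0 : 0 < c := by
    have : 0 < q - 1 := by linarith
    positivity
  have t1 : Tendsto (fun s => (q + 1) / 2 * (1 + exp s) ^ (m + 2)) atBot (𝓝 ((q + 1) / 2)) := by
    have := ((tendsto_exp_atBot.const_add 1).pow (m + 2)).const_mul ((q + 1) / 2)
    simpa using this
  obtain ⟨s0, hs0⟩ := eventually_atBot.1
    ((t1.eventually (gt_mem_nhds (show (q + 1) / 2 < q by linarith))).and (eventually_le_atBot (-T)))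
  have hs0T : s0 ≤ -T := (hs0 s0 le_rfl).2
  have hpm := ph_mono (α := α) hα.le hβ.le
  have hpi := h.int_of_le hpm.measurable (ph_nonneg _) (ph_le _)
  set a1 := ((m : ℝ) + 1) / α with ha1
  have ha1' : a1 * α = m + 1 := by rw [ha1]; field_simp
  have ha10 : 0 < a1 := by positivity
  set a2 := (a1 * α + c * exp ((m - α) * s0)) / (α * exp (tau s0)) with ha2
  have ha20 : 0 < a2 := by positivity
  refine ⟨a2 + a1, c, hc0, by nlinarith, MonotoneOn.Iic_union_Ici (a := s0) ?_ ?_⟩
  · have m1 : MonotoneOn (fun s => q * wf (m + 1) (m + 1) s - exp s ^ (m + 1) - c * Rm m s)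
        (Iic s0) := by
      refine monoOn_of_deriv (convex_Iic s0) (fun s =>
        (((hasDerivAt_wf (m + 1) (m + 1) s).const_mul q).sub
          ((hasDerivAt_exp s).pow (m + 1))).sub ((hasDerivAt_Rm m s).const_mul c)) fun s hs => ?_
      have b1 := (hs0 s hs).1
      have b2 := exp_pos s
      have b3 : wf (m + 1) 1 s ≤ exp s ^ (m + 1) := wf_le _ _ s
      have b4 : q * (wf (m + 1) (m + 1) s * (((m + 1 : ℕ) : ℝ) -
          ((m + 1 : ℕ) : ℝ) * (exp s / (1 + exp s)))) =
          ((m : ℝ) + 1) * exp s ^ (m + 1) * (q / (1 + exp s) ^ (m + 2)) := by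
        unfold wf
        push_cast
        field_simp
        ring
      have b5 : (q + 1) / 2 ≤ q / (1 + exp s) ^ (m + 2) := by
        rw [le_div_iff₀ (by positivity)]; exact b1.le
      have b6 := mul_le_mul_of_nonneg_left b5
        (show 0 ≤ ((m : ℝ) + 1) * exp s ^ (m + 1) by positivity)
      have b7 := mul_le_mul_of_nonneg_left b3 hc0.le
      have b8 : ((m + 1 : ℕ) : ℝ) * exp s ^ (m + 1 - 1) * exp s =
          ((m : ℝ) + 1) * exp s ^ (m + 1) := by
        push_cast
        ring
      rw [b4, b8]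
      have b9 : ((m : ℝ) + 1) * exp s ^ (m + 1) * ((q + 1) / 2) =
          ((m : ℝ) + 1) * exp s ^ (m + 1) + c * exp s ^ (m + 1) := by rw [hc]; ring
      linarith
    have m2 : Monotone fun t => ∫ ξ, (Iic T)ᶜ.indicator (fun ξ => ph α (m + 1) (t + ξ)) ξ ∂η := by
      intro x y hxy
      refine integral_mono ((hpi x).indicator measurableSet_Iic.compl)
        ((hpi y).indicator measurableSet_Iic.compl) fun ξ => ?_
      exact indicator_le_indicator (hpm (by linarith))
    have m3 : MonotoneOn (fun s => (a2 + a1) * psi α s) (Iic s0) := fun x _ y _ hxy =>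
      mul_le_mul_of_nonneg_left (psi_mono hα.le hxy) (by positivity)
    refine MonotoneOn.congr ((m3.add m1).add ((m2.comp tau_mono).monotoneOn _)) fun s hs => ?_
    have hs' : s ≤ -T := (mem_Iic.1 hs).trans hs0T
    have e1 : ph α (m + 1) s = exp s ^ (m + 1) := by
      rw [ph_of_nonpos hm'.le (by linarith), ← exp_nat_mul]; push_cast; rfl
    have e2 : A η (ph α (m + 1)) (tau s) = q * wf (m + 1) (m + 1) s +
        ∫ ξ, (Iic T)ᶜ.indicator (fun ξ => ph α (m + 1) (tau s + ξ)) ξ ∂η := by
      have e3 : ∀ ξ, ph α (m + 1) (tau s + ξ) =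
          (Iic T).indicator (fun ξ => exp (((m : ℝ) + 1) * ξ)) ξ * wf (m + 1) (m + 1) s +
          (Iic T)ᶜ.indicator (fun ξ => ph α (m + 1) (tau s + ξ)) ξ := by
        intro ξ
        by_cases hξ : ξ ∈ Iic T
        · rw [indicator_of_mem hξ, indicator_of_notMem (by simpa using hξ), add_zero,
            ph_of_nonpos hm'.le (by linarith [tau_le s, mem_Iic.1 hξ]), mul_add, exp_add, wf,
            ← div_pow, ← exp_tau, ← exp_nat_mul]
          push_cast
          ring
        · rw [indicator_of_notMem hξ, indicator_of_mem (by simpa using hξ)]; ring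
      rw [A, integral_congr_ae (ae_of_all _ e3), integral_add ((int_trunc hβ.le T).mul_const _)
        ((hpi _).indicator measurableSet_Iic.compl), integral_mul_const]
    simp only [Function.comp, e1, e2]
    ring
  · have m1 := (sub_ph_mono hα hm'.le ha1'.ge).monotoneOn (Ici s0)
    have m2 := ((A_mono hpm hpi).comp tau_mono).monotoneOn (Ici s0)
    have m3 : MonotoneOn (fun s => (a2 + a1) * psi α s - a1 * exp (α * s) - c * Rm m s)
        (Ici s0) := by
      refine monoOn_of_deriv (convex_Ici s0) (fun s =>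
        (((hasDerivAt_psi α s).const_mul (a2 + a1)).sub
          ((hasDerivAt_expmul α s).const_mul a1)).sub ((hasDerivAt_Rm m s).const_mul c))
        fun s hs => ?_
      have b2 := exp_pos s
      have b0 := exp_pos (α * s)
      have b1 : exp (α * tau s) ≤ exp (α * s) :=
        exp_le_exp.2 (mul_le_mul_of_nonneg_left (tau_le s) hα.le)
      have b3 : α * exp (α * s) * exp (tau s0) ≤
          α * exp (α * s) - α * exp (α * tau s) / (1 + exp s) := by
        have c1 : exp (tau s0) ≤ exp (tau s) := exp_le_exp.2 (tau_mono hs)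
        have c2 : α * exp (α * tau s) / (1 + exp s) ≤ α * exp (α * s) / (1 + exp s) := by gcongr
        have c3 : α * exp (α * s) * exp (tau s) =
            α * exp (α * s) - α * exp (α * s) / (1 + exp s) := by
          rw [exp_tau]; field_simp; ring
        have c4 := mul_le_mul_of_nonneg_left c1 (mul_pos hα b0).le
        linarith
      have b4 : wf (m + 1) 1 s ≤ exp ((m - α) * s0) * exp (α * s) := by
        refine (wf_succ_le m 0 s).trans ?_
        rw [← exp_nat_mul, ← exp_add]
        exact exp_le_exp.2 (by nlinarith [mem_Ici.1 hs])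
      have b5 := mul_le_mul_of_nonneg_left b4 hc0.le
      have b6 : a2 * (α * exp (α * s) * exp (tau s0)) =
          a1 * (α * exp (α * s)) + c * (exp ((m - α) * s0) * exp (α * s)) := by
        rw [ha2]; field_simp
      have b7 := mul_le_mul_of_nonneg_left b3 (add_pos ha20 ha10).le
      have b8 : 0 ≤ a1 * (α * exp (α * s) * exp (tau s0)) := by positivity
      nlinarith
    refine MonotoneOn.congr ((m1.add m2).add m3) fun s _ => ?_
    simp only [Function.comp]
    ring

theorem Hyp.exists_sol' (h : Hyp η α) {m : ℕ} (hm : (m : ℝ) < α) (hm' : α < m + 1) {r : ℝ → ℝ}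
    {C : ℝ} (hC : 0 ≤ C) (hr : Monotone r) (hr0 : ∀ s, 0 ≤ r s)
    (h1 : Monotone fun s => C * Rm m s - r s) (h2 : ∀ s, r s ≤ C * Rm m s) :
    ∃ φ B, Sol η α r φ B := by
  have hα := h.pos
  have hβ : (0 : ℝ) < m + 1 := by positivity
  obtain ⟨a, c, hc, ha, hD⟩ := h.super hm hm'
  have ha1 : 1 ≤ a := by
    by_contra hc
    push Not at hc
    nlinarith
  have hpm := ph_mono (α := α) hα.le hβ.le
  have hpi := h.int_of_le hpm.measurable (ph_nonneg _) (ph_le _)
  have hAle : ∀ s, A η (ph α (m + 1)) s ≤ exp (α * s) := fun s => by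
    rw [← h.A_exp s]
    exact integral_mono (hpi s) (h.int_shift s) fun ξ => by simpa using ph_le (α := α) _ (s + ξ)
  have hD0 : ∀ s, 0 ≤ a * psi α s - ph α (m + 1) s + A η (ph α (m + 1)) (tau s) - c * Rm m s := by
    refine hD.le_of_tendsto ?_
    have t0 := exp_mul_tendsto hα
    have t1 : Tendsto (psi α) atBot (𝓝 0) := squeeze_zero (psi_nonneg hα.le)
      (fun s => by unfold psi; linarith [exp_pos (α * tau s)]) t0
    have t2 : Tendsto (ph α (m + 1)) atBot (𝓝 0) := squeeze_zero (ph_nonneg _)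
      (fun s => min_le_right _ _) t0
    have t3 : Tendsto (fun s => A η (ph α (m + 1)) (tau s)) atBot (𝓝 0) :=
      squeeze_zero (fun s => A_nonneg (ph_nonneg _) _) (fun s => (hAle _).trans
        (exp_le_exp.2 (mul_le_mul_of_nonneg_left (tau_le s) hα.le))) t0
    simpa using (((t1.const_mul a).sub t2).add t3).sub ((Rm_tendsto m).const_mul c)
  have hk : 0 ≤ C / c := by positivity
  have e : ∀ s, C / c * (a * exp (α * s) - ph α (m + 1) s) -
      A η (fun s => C / c * (a * exp (α * s) - ph α (m + 1) s)) (tau s) - r s =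
      C / c * (a * psi α s - ph α (m + 1) s + A η (ph α (m + 1)) (tau s) - c * Rm m s) +
        (C * Rm m s - r s) := by
    intro s
    have e1 : A η (fun s => C / c * (a * exp (α * s) - ph α (m + 1) s)) (tau s) =
        C / c * (a * exp (α * tau s) - A η (ph α (m + 1)) (tau s)) := by
      rw [← h.A_exp (tau s)]
      unfold A
      rw [integral_const_mul, integral_sub ((h.int_shift _).const_mul a) (hpi _),
        integral_const_mul]
    rw [e1, psi]
    field_simp
    ring
  obtain ⟨φ, hφ⟩ := exists_sol h (U := fun s => C / c * (a * exp (α * s) - ph α (m + 1) s))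
    (r := r) (B := C / c * a) ((sub_ph_mono hα hm'.le ha).const_mul hk)
    (fun s => mul_nonneg hk (by
      have := ph_le (α := α) ((m : ℝ) + 1) s
      nlinarith [exp_pos (α * s)]))
    (by
      have : (fun s => C / c * a * exp (α * s) - C / c * (a * exp (α * s) - ph α (m + 1) s)) =
          fun s => C / c * ph α (m + 1) s := by ext s; ring
      rw [this]
      exact hpm.const_mul hk)
    (fun s => by
      have := mul_nonneg hk (ph_nonneg (α := α) ((m : ℝ) + 1) s)
      nlinarith)
    hr hr0 (by simp only [e]; exact (hD.const_mul hk).add h1)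
    (fun s => by
      rw [e]
      exact add_nonneg (mul_nonneg hk (hD0 s)) (sub_nonneg.2 (h2 s)))
  exact ⟨φ, _, hφ⟩

end Pool.Agent.H653Z.DH
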